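import Mathlib

/-!
# Pfister forms with two constant slots: definitions (MP_fa3e6c_al)

Paper: `/team-store/MP_fa3e6c_paper.md`.
-/

set_option autoImplicit false

namespace Pool.Agent.Lib.MeadF

/-- coefficient of the Pfister form of `t` at the index `s` -/
def pc {F : Type*} [CommRing F] {n : ℕ} (t : Fin n → F) (s : Fin n → Bool) : F :=
  ∏ j, if s j = true then -t j else 1

/-- the Pfister form of `t` (tensor product of the forms `⟨1, -t j⟩`) -/
def pf {F : Type*} [CommRing F] {n : ℕ} (t : Fin n → F) (x : (Fin n → Bool) → F) : F :=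
  ∑ s, pc t s * x s ^ 2

/-- the norm form of the quaternion algebra `(a, b)` -/
def nf {F : Type*} [CommRing F] (a b : F) (x : Fin 4 → F) : F :=
  x 0 ^ 2 - a * x 1 ^ 2 - b * x 2 ^ 2 + a * b * x 3 ^ 2

/-- its bilinear form -/
def nb {F : Type*} [CommRing F] (a b : F) (x y : Fin 4 → F) : F :=
  x 0 * y 0 - a * (x 1 * y 1) - b * (x 2 * y 2) + a * b * (x 3 * y 3)

/-- squares of pure quaternions -/
def pq {F : Type*} [CommRing F] (a b : F) (x : Fin 3 → F) : F :=
  a * x 0 ^ 2 + b * x 1 ^ 2 - a * b * x 2 ^ 2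

/-- the tensor product of the norm form of `(a, b)` and the Pfister form of `t` -/
def qf {F : Type*} [CommRing F] {n : ℕ} (a b : F) (t : Fin n → F)
    (x : (Fin n → Bool) → Fin 4 → F) : F :=
  ∑ s, pc t s * nf a b (x s)

/-- its bilinear form -/
def qb {F : Type*} [CommRing F] {n : ℕ} (a b : F) (t : Fin n → F)
    (x y : (Fin n → Bool) → Fin 4 → F) : F :=
  ∑ s, pc t s * nb a b (x s) (y s)

/-- `qf a b t` has a nontrivial zero -/
def Iso {F : Type*} [CommRing F] {n : ℕ} (a b : F) (t : Fin n → F) : Prop :=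
  ∃ x : (Fin n → Bool) → Fin 4 → F, x ≠ 0 ∧ qf a b t x = 0

/-- `qf a b t` has a nontrivial zero with entries in the subfield `S` -/
def IsoIn {Ω : Type*} [Field Ω] [CharZero Ω] {n : ℕ} (S : IntermediateField ℚ Ω) (a b : Ω)
    (t : Fin n → Ω) : Prop :=
  ∃ x : (Fin n → Bool) → Fin 4 → Ω, x ≠ 0 ∧ (∀ s i, x s i ∈ S) ∧ qf a b t x = 0

open IsDedekindDomain NumberField in
/-- `a` is, up to squares, congruent to `1` modulo `8` at the primes above `2` -/
def Nice {k : Type*} [Field k] [NumberField k] (a : k) : Prop :=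
  ∃ α : k, α ≠ 0 ∧ ∀ v : HeightOneSpectrum (𝓞 k), v.valuation k (2 : k) ≠ 1 →
    v.valuation k (a / α ^ 2 - 1) ≤ v.valuation k (8 : k)

/-- the same for an element of a number field inside `Ω` -/
def NiceIn {Ω : Type*} [Field Ω] [CharZero Ω] (l : IntermediateField ℚ Ω) (a : Ω) : Prop :=
  ∃ (_ : NumberField l) (ha : a ∈ l), Nice (⟨a, ha⟩ : l)

/-- systems of quadratic forms in more than `lam` times as many variables have nontrivial zeros -/
def QS (F : Type*) [Field F] (lam : ℕ) : Prop :=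
  ∀ (ι κ : Type) [Fintype ι] [Fintype κ], lam * Fintype.card κ < Fintype.card ι →
    ∀ M : κ → ι → ι → F, ∃ x : ι → F, x ≠ 0 ∧ ∀ j, ∑ a, ∑ b, M j a b * (x a * x b) = 0

end Pool.Agent.Lib.MeadF
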