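import Mathlib
import Pool.Agent.Lib.MeadF.Defs

/-!
# Basic facts about the forms
-/

set_option autoImplicit false

namespace Pool.Agent.Lib.MeadF

section ring

variable {F : Type*} [CommRing F] {n : ℕ}

theorem sum_cons {M : Type*} [AddCommMonoid M] (f : (Fin (n + 1) → Bool) → M) :
    ∑ s, f s = ∑ s : Fin n → Bool, f (Fin.cons false s) + ∑ s : Fin n → Bool, f (Fin.cons true s) := by
  rw [← (Fin.consEquiv (fun _ => Bool)).sum_comp, Fintype.sum_prod_type, Fintype.sum_bool, add_comm]
  rfl

theorem pc_cons_false (c : F) (t : Fin n → F) (s : Fin n → Bool) :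
    pc (Fin.cons c t : Fin (n + 1) → F) (Fin.cons false s) = pc t s := by
  simp [pc, Fin.prod_univ_succ]

theorem pc_cons_true (c : F) (t : Fin n → F) (s : Fin n → Bool) :
    pc (Fin.cons c t : Fin (n + 1) → F) (Fin.cons true s) = -c * pc t s := by
  simp [pc, Fin.prod_univ_succ]

theorem pf_cons (c : F) (t : Fin n → F) (x : (Fin (n + 1) → Bool) → F) :
    pf (Fin.cons c t : Fin (n + 1) → F) x =
      pf t (fun s => x (Fin.cons false s)) - c * pf t (fun s => x (Fin.cons true s)) := by
  simp only [pf]
  rw [sum_cons, Finset.mul_sum, sub_eq_add_neg, ← Finset.sum_neg_distrib]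
  congr 1
  · exact Finset.sum_congr rfl fun s _ => by rw [pc_cons_false]
  · exact Finset.sum_congr rfl fun s _ => by rw [pc_cons_true]; ring

theorem qf_cons (a b c : F) (t : Fin n → F) (x : (Fin (n + 1) → Bool) → Fin 4 → F) :
    qf a b (Fin.cons c t : Fin (n + 1) → F) x =
      qf a b t (fun s => x (Fin.cons false s)) - c * qf a b t (fun s => x (Fin.cons true s)) := by
  simp only [qf]
  rw [sum_cons, Finset.mul_sum, sub_eq_add_neg, ← Finset.sum_neg_distrib]
  congr 1
  · exact Finset.sum_congr rfl fun s _ => by rw [pc_cons_false]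
  · exact Finset.sum_congr rfl fun s _ => by rw [pc_cons_true]; ring

theorem pc_false (t : Fin n → F) : pc t (fun _ => false) = 1 := by
  simp [pc]

variable {F' : Type*} [CommRing F'] (f : F →+* F')

theorem map_pc (t : Fin n → F) (s : Fin n → Bool) : f (pc t s) = pc (fun j => f (t j)) s := by
  simp only [pc, map_prod]
  refine Finset.prod_congr rfl fun j _ => ?_
  split_ifs <;> simp

theorem map_pf (t : Fin n → F) (x : (Fin n → Bool) → F) :
    f (pf t x) = pf (fun j => f (t j)) (fun s => f (x s)) := by
  simp only [pf, map_sum, map_mul, map_pow, map_pc]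

theorem map_nf (a b : F) (x : Fin 4 → F) : f (nf a b x) = nf (f a) (f b) (fun i => f (x i)) := by
  simp [nf]

theorem map_nb (a b : F) (x y : Fin 4 → F) :
    f (nb a b x y) = nb (f a) (f b) (fun i => f (x i)) (fun i => f (y i)) := by
  simp [nb]

theorem map_pq (a b : F) (x : Fin 3 → F) : f (pq a b x) = pq (f a) (f b) (fun i => f (x i)) := by
  simp [pq]

theorem map_qf (a b : F) (t : Fin n → F) (x : (Fin n → Bool) → Fin 4 → F) :
    f (qf a b t x) = qf (f a) (f b) (fun j => f (t j)) (fun s i => f (x s i)) := by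
  simp only [qf, map_sum, map_mul, map_pc, map_nf]

theorem map_qb (a b : F) (t : Fin n → F) (x y : (Fin n → Bool) → Fin 4 → F) :
    f (qb a b t x y) =
      qb (f a) (f b) (fun j => f (t j)) (fun s i => f (x s i)) (fun s i => f (y s i)) := by
  simp only [qb, map_sum, map_mul, map_pc, map_nb]

/-- real and imaginary parts -/
theorem qf_add_mul (a b : F) (t : Fin n → F) (x y : (Fin n → Bool) → Fin 4 → F) (i : F) :
    qf a b t (fun s j => x s j + i * y s j) = qf a b t x + i ^ 2 * qf a b t y +
      2 * i * qb a b t x y := by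
  simp only [qf, qb, Finset.mul_sum, ← Finset.sum_add_distrib]
  refine Finset.sum_congr rfl fun s _ => ?_
  simp only [nf, nb]
  ring

theorem nf_swap (a b : F) (x : Fin 4 → F) : nf a b x = nf b a ![x 0, x 2, x 1, x 3] := by
  simp only [nf, Matrix.cons_val_zero, Matrix.cons_val_one, Matrix.cons_val]
  ring

end ring

section field

variable {F : Type*} [Field F] {n : ℕ}

theorem pc_ne_zero {t : Fin n → F} (ht : ∀ j, t j ≠ 0) (s : Fin n → Bool) : pc t s ≠ 0 := by
  rw [pc, Finset.prod_ne_zero_iff]
  intro j _
  split_ifs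
  · exact neg_ne_zero.mpr (ht j)
  · exact one_ne_zero

theorem Iso.map {F' : Type*} [Field F'] (f : F →+* F') {a b : F} {t : Fin n → F} (h : Iso a b t) :
    Iso (f a) (f b) (fun j => f (t j)) := by
  obtain ⟨x, hx, h0⟩ := h
  refine ⟨fun s i => f (x s i), ?_, ?_⟩
  · intro hcon
    apply hx
    funext s i
    have h1 : f (x s i) = 0 := congrFun (congrFun hcon s) i
    exact (map_eq_zero f).mp h1
  · rw [← map_qf, h0, map_zero]

theorem Iso.swap {a b : F} {t : Fin n → F} (h : Iso a b t) : Iso b a t := by
  obtain ⟨x, hx, h0⟩ := h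
  refine ⟨fun s => ![x s 0, x s 2, x s 1, x s 3], ?_, ?_⟩
  · intro hcon
    apply hx
    funext s i
    have h1 := congrFun hcon s
    have e0 := congrFun h1 0
    have e1 := congrFun h1 1
    have e2 := congrFun h1 2
    have e3 := congrFun h1 3
    simp at e0 e1 e2 e3
    fin_cases i
    · exact e0
    · exact e2
    · exact e1
    · exact e3
  · rw [← h0]
    simp only [qf]
    exact Finset.sum_congr rfl fun s _ => by rw [nf_swap a b]

/-- a zero of the norm form gives a zero -/
theorem iso_of_nf {a b : F} (t : Fin n → F) {y : Fin 4 → F} (hy : y ≠ 0) (h : nf a b y = 0) :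
    Iso a b t := by
  classical
  refine ⟨fun s => if s = (fun _ => false) then y else 0, ?_, ?_⟩
  · intro hcon
    apply hy
    have := congrFun hcon (fun _ => false)
    simpa using this
  · simp only [qf]
    refine Finset.sum_eq_zero fun s _ => ?_
    split_ifs
    · rw [h, mul_zero]
    · simp [nf]

/-- a zero of the Pfister form gives a zero -/
theorem iso_of_pf (a b : F) {t : Fin n → F} {y : (Fin n → Bool) → F} (hy : y ≠ 0)
    (h : pf t y = 0) : Iso a b t := by
  refine ⟨fun s => ![y s, 0, 0, 0], ?_, ?_⟩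
  · intro hcon
    apply hy
    funext s
    have := congrFun (congrFun hcon s) 0
    simpa using this
  · refine Eq.trans ?_ h
    simp only [qf, pf]
    refine Finset.sum_congr rfl fun s _ => ?_
    simp [nf]

/-- a slot equal to zero gives a zero -/
theorem iso_of_zero (a b : F) {t : Fin n → F} {j : Fin n} (hj : t j = 0) : Iso a b t := by
  classical
  refine iso_of_pf a b (y := Pi.single (fun i => decide (i = j)) 1) ?_ ?_
  · intro h
    have := congrFun h (fun i => decide (i = j))
    simp at this
  · simp only [pf]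
    refine Finset.sum_eq_zero fun s _ => ?_
    by_cases hs : s = fun i => decide (i = j)
    · have : pc t s = 0 := by
        rw [pc]
        refine Finset.prod_eq_zero (Finset.mem_univ j) ?_
        rw [hs]
        simp [hj]
      rw [this, zero_mul]
    · rw [Pi.single_eq_of_ne hs]
      ring

end field

section sub

variable {Ω : Type*} [Field Ω] [CharZero Ω] {n : ℕ}

theorem IsoIn.mono {S S' : IntermediateField ℚ Ω} (h : S ≤ S') {a b : Ω} {t : Fin n → Ω}
    (hi : IsoIn S a b t) : IsoIn S' a b t := by
  obtain ⟨x, hx, hS, h0⟩ := hi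
  exact ⟨x, hx, fun s i => h (hS s i), h0⟩

theorem isoIn_iff {S : IntermediateField ℚ Ω} {a b : Ω} {t : Fin n → Ω} (ha : a ∈ S) (hb : b ∈ S)
    (ht : ∀ j, t j ∈ S) :
    IsoIn S a b t ↔ Iso (⟨a, ha⟩ : S) (⟨b, hb⟩ : S) (fun j => (⟨t j, ht j⟩ : S)) := by
  constructor
  · rintro ⟨x, hx, hS, h0⟩
    refine ⟨fun s i => ⟨x s i, hS s i⟩, ?_, ?_⟩
    · intro hcon
      apply hx
      funext s i
      exact congrArg Subtype.val (congrFun (congrFun hcon s) i)
    · apply (algebraMap S Ω).injective
      rw [map_qf, map_zero]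
      exact h0
  · rintro ⟨x, hx, h0⟩
    refine ⟨fun s i => (x s i : Ω), ?_, fun s i => (x s i).2, ?_⟩
    · intro hcon
      apply hx
      funext s i
      exact Subtype.ext (congrFun (congrFun hcon s) i)
    · have h1 := congrArg (algebraMap S Ω) h0
      rw [map_qf, map_zero] at h1
      exact h1

end sub

end Pool.Agent.Lib.MeadF
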