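import Mathlib
import Pool.Agent.Lib.MP_fa3e6c_al.PrimeP
import Pool.Agent.Lib.MP_fa3e6c_al.AnQp
import Pool.Agent.Lib.MeadF.Basic

/-!
# MeadF.BaseP (size 110): number fields embed into `ℚ_p`, `p = 1 mod 8`; `⟨⟨p, u⟩⟩` is anisotropic over `ℚ_p`

* `exists_emb`: primitive element `θ` of `K/ℚ`, `g = minpoly ℚ θ`, `exists_p` (PrimeP.lean) gives `p` and a root `y` of `g` in `ℚ_[p]`; `K = ℚ(θ) → ℚ_[p]`.
* `nf_aniso`: `nf p u x = (x 0² - u x 2²) - p (x 1² - u x 3²)`; by `norm_form p u hu` (AnQp.lean, if it is private copy it) `‖x² - u z²‖ = max (‖x‖, ‖z‖)²`, so the norms of the two sides of `x 0² - u x 2² = p (x 1² - u x 3²)` have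
  different parity unless both vanish (`parity` in AnQp.lean), and then all `x i = 0`. (`hF_anisotropic` there is the ternary case.)
-/

set_option autoImplicit false

universe u

namespace Pool.Agent.Lib.MeadF

theorem exists_emb (K : Type u) [Field K] [NumberField K] :
    ∃ (p : ℕ) (_ : Fact p.Prime), p % 8 = 1 ∧ Nonempty (K →+* ℚ_[p]) := by
  let pb := Field.powerBasisOfFiniteOfSeparable ℚ K
  obtain ⟨p, hp, h8, y, hy⟩ := MP_fa3e6c_al.exists_p (minpoly ℚ pb.gen)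
    (minpoly.natDegree_pos pb.isIntegral_gen)
  exact ⟨p, hp, h8, ⟨(pb.lift y hy).toRingHom⟩⟩

private theorem norm_u (p u : ℕ) [Fact p.Prime] (hu : ¬ IsSquare (u : ZMod p)) :
    ‖(u : ℚ_[p])‖ = 1 := by
  have h1 : ‖(u : ℚ_[p])‖ ≤ 1 := by
    have := Padic.norm_int_le_one (p := p) (u : ℤ)
    simpa using this
  refine le_antisymm h1 ?_
  by_contra h2
  push Not at h2
  rw [Padic.norm_natCast_lt_one_iff] at h2
  apply hu
  rw [(ZMod.natCast_eq_zero_iff u p).2 h2]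
  exact ⟨0, by simp⟩

private theorem red (p u : ℕ) [Fact p.Prime] (hu : ¬ IsSquare (u : ZMod p)) (t : ℤ_[p]) :
    ‖((t : ℚ_[p])) ^ 2 - (u : ℚ_[p])‖ = 1 := by
  have h0 : ((t : ℚ_[p])) ^ 2 - (u : ℚ_[p]) = ((t ^ 2 - (u : ℤ_[p]) : ℤ_[p]) : ℚ_[p]) := by
    push_cast
    rfl
  rw [h0, ← PadicInt.norm_def]
  refine le_antisymm (PadicInt.norm_le_one _) ?_
  by_contra h2
  push Not at h2
  have h3 : t ^ 2 - (u : ℤ_[p]) ∈ RingHom.ker (PadicInt.toZMod : ℤ_[p] →+* ZMod p) := by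
    rw [PadicInt.ker_toZMod, IsLocalRing.mem_maximalIdeal, PadicInt.mem_nonunits]
    exact h2
  rw [RingHom.mem_ker, map_sub, map_pow, map_natCast, sub_eq_zero] at h3
  exact hu ⟨PadicInt.toZMod t, by rw [← h3, sq]⟩

private theorem norm_form (p u : ℕ) [Fact p.Prime] (hu : ¬ IsSquare (u : ZMod p)) (a b : ℚ_[p]) :
    ‖a ^ 2 - (u : ℚ_[p]) * b ^ 2‖ = (max ‖a‖ ‖b‖) ^ 2 := by
  rcases le_or_gt ‖a‖ ‖b‖ with h | h
  · rw [max_eq_right h]
    by_cases hb : b = 0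
    · subst hb
      have ha : a = 0 := by simpa using h
      subst ha
      simp
    · have hb' : 0 < ‖b‖ := norm_pos_iff.2 hb
      have ht : ‖a / b‖ ≤ 1 := by rw [norm_div, div_le_one hb']; exact h
      have h1 := red p u hu ⟨a / b, ht⟩
      have h2 : a ^ 2 - (u : ℚ_[p]) * b ^ 2 = b ^ 2 * ((a / b) ^ 2 - (u : ℚ_[p])) := by
        field_simp
      rw [h2, norm_mul, norm_pow]
      have h3 : ‖(a / b) ^ 2 - (u : ℚ_[p])‖ = 1 := h1
      rw [h3, mul_one]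
  · rw [max_eq_left h.le]
    have h1 : ‖(u : ℚ_[p]) * b ^ 2‖ < ‖a ^ 2‖ := by
      rw [norm_mul, norm_pow, norm_pow, norm_u p u hu, one_mul]
      exact pow_lt_pow_left₀ h (norm_nonneg _) (by norm_num)
    rw [sub_eq_add_neg, Padic.add_eq_max_of_ne (by rw [norm_neg]; exact h1.ne'), norm_neg,
      max_eq_left h1.le, norm_pow]

private theorem parity (p : ℕ) [Fact p.Prime] (a b : ℚ_[p]) (hb : b ≠ 0)
    (h : ‖a‖ ^ 2 = ‖(p : ℚ_[p])‖ * ‖b‖ ^ 2) : False := by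
  have hp1 : (1 : ℝ) < p := by exact_mod_cast (Fact.out : p.Prime).one_lt
  have ha : a ≠ 0 := by
    rintro rfl
    rw [norm_zero, Padic.norm_p] at h
    have : 0 < ((p : ℝ)⁻¹) * ‖b‖ ^ 2 := by positivity
    rw [← h] at this
    norm_num at this
  rw [Padic.norm_eq_zpow_neg_valuation ha, Padic.norm_eq_zpow_neg_valuation hb, Padic.norm_p,
    ← zpow_natCast, ← zpow_natCast, ← zpow_mul, ← zpow_mul, ← zpow_neg_one,
    ← zpow_add₀ (by positivity)] at h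
  have := zpow_right_injective₀ (by positivity) hp1.ne' h
  push_cast at this
  omega

private theorem max_norm_eq (p : ℕ) [Fact p.Prime] (a b : ℚ_[p]) :
    ∃ c : ℚ_[p], max ‖a‖ ‖b‖ = ‖c‖ := by
  rcases le_total ‖a‖ ‖b‖ with h | h
  · exact ⟨b, max_eq_right h⟩
  · exact ⟨a, max_eq_left h⟩

private theorem zero_of_max (p : ℕ) [Fact p.Prime] (a b : ℚ_[p]) (h : max ‖a‖ ‖b‖ = 0) :
    a = 0 ∧ b = 0 :=
  ⟨norm_le_zero_iff.1 ((le_max_left _ _).trans h.le),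
    norm_le_zero_iff.1 ((le_max_right _ _).trans h.le)⟩

theorem nf_aniso (p u : ℕ) [Fact p.Prime] (hu : ¬ IsSquare (u : ZMod p)) (x : Fin 4 → ℚ_[p])
    (h : nf (p : ℚ_[p]) (u : ℚ_[p]) x = 0) : x = 0 := by
  have h1 : x 0 ^ 2 - (u : ℚ_[p]) * x 2 ^ 2 =
      (p : ℚ_[p]) * (x 1 ^ 2 - (u : ℚ_[p]) * x 3 ^ 2) := by
    unfold nf at h
    linear_combination h
  have h2 := congrArg norm h1
  rw [norm_form p u hu, norm_mul, norm_form p u hu] at h2
  obtain ⟨c, hc⟩ := max_norm_eq p (x 0) (x 2)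
  obtain ⟨d, hd⟩ := max_norm_eq p (x 1) (x 3)
  rw [hc, hd] at h2
  have hd0 : d = 0 := by
    by_contra hd0
    exact parity p c d hd0 h2
  rw [hd0, norm_zero] at h2
  have hc0 : ‖c‖ = 0 := by
    have : ‖c‖ ^ 2 = 0 := by rw [h2]; ring
    exact pow_eq_zero_iff (by norm_num) |>.1 this
  rw [hc0] at hc
  rw [hd0, norm_zero] at hd
  obtain ⟨h0, h2'⟩ := zero_of_max p _ _ hc
  obtain ⟨h1', h3⟩ := zero_of_max p _ _ hd
  funext i
  fin_cases i
  · exact h0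
  · exact h1'
  · exact h2'
  · exact h3

end Pool.Agent.Lib.MeadF
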