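import Mathlib
import Pool.Agent.Lib.MeadF.Basic

/-!
# MeadF.LaurentA (size 150): anisotropy over Laurent series

`aniso_diag`: generalises `Pool.Agent.Lib.MP_fa3e6c_al.aniso_laurent` (file AnLs.lean, copy its method): multiply all entries by one power series `b ≠ 0` so that they are power series; if they are not all zero divide by the largest
power of `X` dividing all of them; constant coefficients: `∑ c i * (x i)₀² = 0` so all `(x i)₀ = 0`, `x i = X x' i`, then `X ∑ x'² = ∑ y²`, constant coefficients again: all `(y i)₀ = 0`: contradiction.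
`aniso_cons`: `qf_cons`, `aniso_diag` with `ι = (Fin n → Bool) × Fin 4`, `c (s, i) = pc t s * ![1, -a, -b, a * b] i`.
-/

set_option autoImplicit false

universe u

namespace Pool.Agent.Lib.MeadF

private theorem aniso_ps {F : Type u} [Field F] {ι : Type} [Fintype ι] (c : ι → F)
    (han : ∀ x : ι → F, ∑ i, c i * x i ^ 2 = 0 → x = 0) (n : ℕ) : ∀ z w : ι → PowerSeries F,
    ∑ i, PowerSeries.C (c i) * z i ^ 2 = PowerSeries.X * ∑ i, PowerSeries.C (c i) * w i ^ 2 →
    ∀ i, PowerSeries.coeff n (z i) = 0 ∧ PowerSeries.coeff n (w i) = 0 := by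
  have hC : ∀ v : ι → PowerSeries F,
      PowerSeries.constantCoeff (∑ i, PowerSeries.C (c i) * v i ^ 2) = 0 →
      ∀ i, ∃ v1 : PowerSeries F, v i = PowerSeries.X * v1 := by
    intro v hv i
    have h1 : ∑ i, c i * (PowerSeries.constantCoeff (v i)) ^ 2 = 0 := by
      rw [← hv, map_sum]
      exact Finset.sum_congr rfl fun j _ => by simp
    have h2 := congrFun (han _ h1) i
    exact PowerSeries.X_dvd_iff.2 h2
  have hX : (PowerSeries.X : PowerSeries F) ≠ 0 := PowerSeries.X_ne_zero
  have hmul : ∀ v v1 : ι → PowerSeries F, (∀ i, v i = PowerSeries.X * v1 i) →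
      ∑ i, PowerSeries.C (c i) * v i ^ 2 =
        PowerSeries.X * (PowerSeries.X * ∑ i, PowerSeries.C (c i) * v1 i ^ 2) := by
    intro v v1 hv
    rw [Finset.mul_sum, Finset.mul_sum]
    exact Finset.sum_congr rfl fun j _ => by rw [hv j]; ring
  have key : ∀ z w : ι → PowerSeries F,
      ∑ i, PowerSeries.C (c i) * z i ^ 2 = PowerSeries.X * ∑ i, PowerSeries.C (c i) * w i ^ 2 →
      ∃ z1 w1 : ι → PowerSeries F, (∀ i, z i = PowerSeries.X * z1 i) ∧
        (∀ i, w i = PowerSeries.X * w1 i) ∧
        ∑ i, PowerSeries.C (c i) * z1 i ^ 2 =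
          PowerSeries.X * ∑ i, PowerSeries.C (c i) * w1 i ^ 2 := by
    intro z w h
    choose z1 hz1 using hC z (by rw [h, map_mul]; simp)
    have h2 : ∑ i, PowerSeries.C (c i) * w i ^ 2 =
        PowerSeries.X * ∑ i, PowerSeries.C (c i) * z1 i ^ 2 := by
      apply mul_left_cancel₀ hX
      rw [← h]
      exact hmul z z1 hz1
    choose w1 hw1 using hC w (by rw [h2, map_mul]; simp)
    refine ⟨z1, w1, hz1, hw1, ?_⟩
    apply mul_left_cancel₀ hX
    rw [← h2]
    exact hmul w w1 hw1
  induction n with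
  | zero =>
    intro z w h i
    obtain ⟨z1, w1, hz, hw, -⟩ := key z w h
    rw [hz, hw]
    simp
  | succ n ih =>
    intro z w h i
    obtain ⟨z1, w1, hz, hw, h1⟩ := key z w h
    rw [hz, hw, mul_comm, PowerSeries.coeff_succ_mul_X, mul_comm, PowerSeries.coeff_succ_mul_X]
    exact ih z1 w1 h1 i

theorem aniso_diag {F : Type u} [Field F] {ι : Type} [Fintype ι] (c : ι → F)
    (han : ∀ x : ι → F, ∑ i, c i * x i ^ 2 = 0 → x = 0) (x y : ι → LaurentSeries F)
    (h : ∑ i, HahnSeries.C (c i) * x i ^ 2 =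
      HahnSeries.single 1 1 * ∑ i, HahnSeries.C (c i) * y i ^ 2) : x = 0 ∧ y = 0 := by
  obtain ⟨b, hb⟩ := IsLocalization.exist_integer_multiples_of_finite
    (nonZeroDivisors (PowerSeries F)) (S := LaurentSeries F) (Sum.elim x y)
  have hb0 : (b : PowerSeries F) ≠ 0 := nonZeroDivisors.coe_ne_zero b
  choose f hf using hb
  have hinj : Function.Injective (algebraMap (PowerSeries F) (LaurentSeries F)) :=
    IsFractionRing.injective _ _
  have hCp : ∀ a : F, algebraMap (PowerSeries F) (LaurentSeries F) (PowerSeries.C a) =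
      HahnSeries.C a := fun a => HahnSeries.ofPowerSeries_C a
  have hXX : algebraMap (PowerSeries F) (LaurentSeries F) PowerSeries.X = HahnSeries.single 1 1 :=
    HahnSeries.ofPowerSeries_X
  have hz : ∀ i, algebraMap (PowerSeries F) (LaurentSeries F) (f (Sum.inl i)) =
      algebraMap (PowerSeries F) (LaurentSeries F) b * x i := by
    intro i
    rw [hf, Algebra.smul_def]
    rfl
  have hw : ∀ i, algebraMap (PowerSeries F) (LaurentSeries F) (f (Sum.inr i)) =
      algebraMap (PowerSeries F) (LaurentSeries F) b * y i := by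
    intro i
    rw [hf, Algebra.smul_def]
    rfl
  have hsum : ∀ (g : ι → PowerSeries F) (v : ι → LaurentSeries F),
      (∀ i, algebraMap (PowerSeries F) (LaurentSeries F) (g i) =
        algebraMap (PowerSeries F) (LaurentSeries F) b * v i) →
      algebraMap (PowerSeries F) (LaurentSeries F) (∑ i, PowerSeries.C (c i) * g i ^ 2) =
        algebraMap (PowerSeries F) (LaurentSeries F) b ^ 2 *
          ∑ i, HahnSeries.C (c i) * v i ^ 2 := by
    intro g v hg
    rw [map_sum, Finset.mul_sum]
    refine Finset.sum_congr rfl fun j _ => ?_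
    rw [map_mul, map_pow, hg, hCp]
    ring
  have hps : ∑ i, PowerSeries.C (c i) * f (Sum.inl i) ^ 2 =
      PowerSeries.X * ∑ i, PowerSeries.C (c i) * f (Sum.inr i) ^ 2 := by
    apply hinj
    rw [map_mul, hsum _ x hz, hsum _ y hw, hXX, h]
    ring
  have hzero := fun n => aniso_ps c han n _ _ hps
  have hb1 : algebraMap (PowerSeries F) (LaurentSeries F) b ≠ 0 := by
    rw [Ne, map_eq_zero_iff _ hinj]
    exact hb0
  constructor
  · funext i
    have h1 : f (Sum.inl i) = 0 := by
      ext n
      rw [(hzero n i).1]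
      simp
    have h2 := hz i
    rw [h1, map_zero] at h2
    exact (mul_eq_zero.1 h2.symm).resolve_left hb1
  · funext i
    have h1 : f (Sum.inr i) = 0 := by
      ext n
      rw [(hzero n i).2]
      simp
    have h2 := hw i
    rw [h1, map_zero] at h2
    exact (mul_eq_zero.1 h2.symm).resolve_left hb1

private theorem qf_diag {R : Type u} [CommRing R] {n : ℕ} (a b : R) (t : Fin n → R)
    (x : (Fin n → Bool) → Fin 4 → R) :
    qf a b t x = ∑ i : (Fin n → Bool) × Fin 4,
      (pc t i.1 * ![1, -a, -b, a * b] i.2) * x i.1 i.2 ^ 2 := by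
  rw [Fintype.sum_prod_type]
  simp only [qf]
  refine Finset.sum_congr rfl fun s _ => ?_
  rw [Fin.sum_univ_four]
  simp only [nf, Matrix.cons_val_zero, Matrix.cons_val_one, Matrix.cons_val]
  ring

theorem aniso_cons {F : Type u} [Field F] {n : ℕ} (a b : F) (t : Fin n → F)
    (han : ∀ x : (Fin n → Bool) → Fin 4 → F, qf a b t x = 0 → x = 0)
    (x : (Fin (n + 1) → Bool) → Fin 4 → LaurentSeries F)
    (h : qf (HahnSeries.C a : LaurentSeries F) (HahnSeries.C b)
      (Fin.cons (HahnSeries.single 1 1) (fun j => HahnSeries.C (t j)) : Fin (n + 1) → LaurentSeries F)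
        x = 0) : x = 0 := by
  rw [qf_cons, sub_eq_zero] at h
  have hc : ∀ i : (Fin n → Bool) × Fin 4,
      pc (fun j => (HahnSeries.C (t j) : LaurentSeries F)) i.1 *
        ![1, -(HahnSeries.C a : LaurentSeries F), -HahnSeries.C b,
          HahnSeries.C a * HahnSeries.C b] i.2 =
      HahnSeries.C (pc t i.1 * ![1, -a, -b, a * b] i.2) := by
    rintro ⟨s, j⟩
    rw [map_mul, map_pc]
    congr 1
    fin_cases j <;> simp
  have hq : ∀ y : (Fin n → Bool) → Fin 4 → LaurentSeries F,
      qf (HahnSeries.C a : LaurentSeries F) (HahnSeries.C b) (fun j => HahnSeries.C (t j)) y =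
        ∑ i : (Fin n → Bool) × Fin 4,
          HahnSeries.C (pc t i.1 * ![1, -a, -b, a * b] i.2) * y i.1 i.2 ^ 2 := by
    intro y
    rw [qf_diag]
    exact Finset.sum_congr rfl fun i _ => by rw [hc i]
  rw [hq, hq] at h
  have han' : ∀ z : (Fin n → Bool) × Fin 4 → F,
      ∑ i, (pc t i.1 * ![1, -a, -b, a * b] i.2) * z i ^ 2 = 0 → z = 0 := by
    intro z hz
    have h1 := han (fun s j => z (s, j)) (by rw [qf_diag]; exact hz)
    funext i
    exact congrFun (congrFun h1 i.1) i.2
  obtain ⟨h1, h2⟩ := aniso_diag _ han' _ _ h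
  funext s i
  rw [← Fin.cons_self_tail s]
  cases s 0
  · exact congrFun h1 (Fin.tail s, i)
  · exact congrFun h2 (Fin.tail s, i)

end Pool.Agent.Lib.MeadF
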