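import Mathlib

/-!
# MeadF.PlaceH (size 200): Hensel and choice of the specialisation point over a field `κ`

These are `hensel_ps`, `jps_injective` (Lib/MP_fa3e6c_al/EmbH.lean) and `exists_r` (Lib/MP_fa3e6c_al/EmbR.lean) with `ℚ` replaced by a field `κ` of characteristic zero (`jps` = the map `κ[X] → κ'⟦X⟧`, `P ↦ P(r + X)`, `r` rational). Copy and adapt the proofs.
-/

set_option autoImplicit false

open Polynomial

namespace Pool.Agent.Lib.MeadF

/-- `P ↦ P(r + X)` -/
noncomputable def jps {κ : Type*} [Field κ] (κ' : Type*) [Field κ'] [Algebra κ κ'] (r : κ) :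
    κ[X] →+* PowerSeries κ' :=
  Polynomial.eval₂RingHom (PowerSeries.C.comp (algebraMap κ κ'))
    (PowerSeries.C (algebraMap κ κ' r) + PowerSeries.X)

private lemma cc_jps {κ : Type*} [Field κ] (κ' : Type*) [Field κ'] [Algebra κ κ'] (r : κ) :
    (PowerSeries.constantCoeff (R := κ')).comp (jps κ' r) =
      (algebraMap κ κ').comp (evalRingHom r) := by
  apply Polynomial.ringHom_ext
  · intro a
    simp [jps]
  · simp [jps]

theorem jps_injective {κ : Type*} [Field κ] (κ' : Type*) [Field κ'] [Algebra κ κ'] (r : κ) :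
    Function.Injective (jps κ' r) := by
  rw [injective_iff_map_eq_zero]
  intro P hP
  have h1 : jps κ' r P = (((P.comp (X + C r)).map (algebraMap κ κ') : κ'[X]) : PowerSeries κ') := by
    have h2 : jps κ' r = ((Polynomial.coeToPowerSeries.ringHom (R := κ')).comp
        (Polynomial.mapRingHom (algebraMap κ κ'))).comp (Polynomial.compRingHom (X + C r)) := by
      apply Polynomial.ringHom_ext
      · intro a
        simp [jps]
      · simp [jps, add_comm]
    rw [h2]
    rfl
  rw [h1, Polynomial.coe_eq_zero_iff, Polynomial.map_eq_zero] at hP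
  have h3 : (P.comp (X + C r)).comp (X - C r) = P := by
    rw [Polynomial.comp_assoc]
    simp
  rw [← h3, hP, Polynomial.zero_comp]

theorem hensel_ps {κ : Type*} [Field κ] (κ' : Type*) [Field κ'] [Algebra κ κ'] (r : κ)
    (G : κ[X][X]) (hlc : (G.leadingCoeff).eval r ≠ 0) (y0 : κ')
    (h0 : aeval y0 (G.map (evalRingHom r)) = 0)
    (h1 : aeval y0 (derivative (G.map (evalRingHom r))) ≠ 0) :
    ∃ y : PowerSeries κ', eval₂ (jps κ' r) y G = 0 := by
  have hcc : ∀ P : κ[X], PowerSeries.constantCoeff (jps κ' r P) =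
      algebraMap κ κ' (P.eval r) := by
    intro P
    exact congrFun (congrArg DFunLike.coe (cc_jps κ' r)) P
  have hlu : IsUnit (jps κ' r G.leadingCoeff) := by
    rw [PowerSeries.isUnit_iff_constantCoeff, hcc, isUnit_iff_ne_zero]
    exact (_root_.map_ne_zero _).mpr hlc
  obtain ⟨a, ha⟩ := hlu
  set Gt : (PowerSeries κ')[X] := G.map (jps κ' r) with hGt
  have hlc' : Gt.leadingCoeff = (a : PowerSeries κ') := by
    rw [hGt, Polynomial.leadingCoeff_map_of_leadingCoeff_ne_zero, ha]
    rw [← ha]
    exact a.ne_zero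
  set f : (PowerSeries κ')[X] := C ((a⁻¹ : (PowerSeries κ')ˣ) : PowerSeries κ') * Gt with hf
  have hmon : f.Monic := by
    rw [hf]
    apply Polynomial.monic_C_mul_of_mul_leadingCoeff_eq_one
    rw [hlc', Units.inv_mul]
  -- evaluation at the constant
  have hev : ∀ Q : κ[X][X],
      PowerSeries.constantCoeff ((Q.map (jps κ' r)).eval (PowerSeries.C y0)) =
      aeval y0 (Q.map (evalRingHom r)) := by
    intro Q
    rw [Polynomial.eval_map, Polynomial.hom_eval₂, cc_jps, PowerSeries.constantCoeff_C,
      Polynomial.aeval_def, Polynomial.eval₂_map]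
  have hf0 : f.eval (PowerSeries.C y0) ∈
      (Ideal.span {PowerSeries.X} : Ideal (PowerSeries κ')) := by
    rw [Ideal.mem_span_singleton, PowerSeries.X_dvd_iff, hf, Polynomial.eval_mul, map_mul, hev, h0,
      mul_zero]
  have hf1 : IsUnit (f.derivative.eval (PowerSeries.C y0)) := by
    rw [PowerSeries.isUnit_iff_constantCoeff, isUnit_iff_ne_zero, hf, Polynomial.derivative_C_mul,
      Polynomial.eval_mul, Polynomial.eval_C, map_mul, hGt, Polynomial.derivative_map, hev,
      ← Polynomial.derivative_map]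
    refine mul_ne_zero ?_ h1
    have := (PowerSeries.isUnit_iff_constantCoeff.mp (a⁻¹).isUnit)
    exact this.ne_zero
  obtain ⟨y, hy, _⟩ := HenselianRing.is_henselian (R := PowerSeries κ')
    (I := Ideal.span {PowerSeries.X}) f hmon (PowerSeries.C y0) hf0 (hf1.map _)
  refine ⟨y, ?_⟩
  have h2 : f.eval y = 0 := hy
  rw [hf, Polynomial.eval_mul, Polynomial.eval_C] at h2
  rw [← Polynomial.eval_map]
  exact (Units.mul_right_eq_zero _).mp h2

/-- clearing denominators -/
private theorem clear_den {κ : Type*} [Field κ] (a : (FractionRing κ[X])[X]) :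
    ∃ (A : κ[X][X]) (d : κ[X]), d ≠ 0 ∧
      A.map (algebraMap κ[X] (FractionRing κ[X])) =
        C (algebraMap κ[X] (FractionRing κ[X]) d) * a := by
  obtain ⟨b, hbM, hb⟩ := IsLocalization.integerNormalization_spec
    (nonZeroDivisors κ[X]) a
  refine ⟨IsLocalization.integerNormalization (nonZeroDivisors κ[X]) a, b,
    nonZeroDivisors.ne_zero hbM, ?_⟩
  rw [hb]
  ext n
  simp [Algebra.smul_def]

theorem exists_r {κ : Type*} [Field κ] [CharZero κ] (G : κ[X][X]) (hG : G ≠ 0)
    (hsep : (G.map (algebraMap κ[X] (FractionRing κ[X]))).Separable) :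
    ∃ r : ℚ, (G.leadingCoeff).eval (r : κ) ≠ 0 ∧ (G.map (evalRingHom (r : κ))).Separable := by
  obtain ⟨a, b, hab⟩ := hsep
  obtain ⟨A, d, hd, hA⟩ := clear_den a
  obtain ⟨B, e, he, hB⟩ := clear_den b
  have hinj : Function.Injective
      (Polynomial.map (algebraMap κ[X] (FractionRing κ[X])) : κ[X][X] → _) :=
    Polynomial.map_injective _ (IsFractionRing.injective _ _)
  have key : C e * A * G + C d * B * derivative G = C (d * e) := by
    apply hinj
    rw [derivative_map] at hab
    simp only [Polynomial.map_add, Polynomial.map_mul, Polynomial.map_C, hA, hB, map_mul]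
    linear_combination (C (algebraMap κ[X] (FractionRing κ[X]) d) *
      C (algebraMap κ[X] (FractionRing κ[X]) e)) * hab
  have hP : d * e * G.leadingCoeff ≠ 0 :=
    mul_ne_zero (mul_ne_zero hd he) (leadingCoeff_ne_zero.mpr hG)
  obtain ⟨r, hr⟩ : ∃ r : ℚ, (d * e * G.leadingCoeff).eval (r : κ) ≠ 0 := by
    by_contra hcon
    push Not at hcon
    apply hP
    apply Polynomial.eq_zero_of_infinite_isRoot
    apply Set.Infinite.mono (s := Set.range (fun r : ℚ => (r : κ)))
    · rintro x ⟨r, rfl⟩
      exact hcon r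
    · exact Set.infinite_range_of_injective Rat.cast_injective
  rw [eval_mul] at hr
  refine ⟨r, right_ne_zero_of_mul hr, ?_⟩
  have hde := left_ne_zero_of_mul hr
  have key2 := congrArg (Polynomial.map (evalRingHom (r : κ))) key
  simp only [Polynomial.map_add, Polynomial.map_mul, Polynomial.map_C, coe_evalRingHom] at key2
  refine ⟨C ((d * e).eval (r : κ))⁻¹ * (C (e.eval (r : κ)) * A.map (evalRingHom (r : κ))),
    C ((d * e).eval (r : κ))⁻¹ * (C (d.eval (r : κ)) * B.map (evalRingHom (r : κ))), ?_⟩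
  rw [derivative_map]
  have h3 : C ((d * e).eval (r : κ))⁻¹ * C ((d * e).eval (r : κ)) = (1 : κ[X]) := by
    rw [← C_mul, inv_mul_cancel₀ hde, C_1]
  linear_combination (C ((d * e).eval (r : κ))⁻¹) * key2 + h3

end Pool.Agent.Lib.MeadF
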