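import Mathlib
import Pool.Agent.Lib.MeadF.PlaceH

/-!
# MeadF.Place (size 220): a place of a function field of one variable

Follows `Pool.Agent.Lib.MP_fa3e6c_al.exists_embed` (EmbA.lean) with `ℚ` replaced by `κ`. `K` is a finite extension of `Q = FractionRing κ[X]` (embedded by `X ↦ T`), `K = Q(θ)` (primitive element), `G₀ = minpoly Q θ` separable; clear
denominators: `G : κ[X][X]` with `G.map = d • G₀`, `G ≠ 0`. `exists_r` gives `r`; `g` an irreducible factor of `G.map (evalRingHom r)` (positive degree: the leading coefficient does not vanish at `r`), `κ' = AdjoinRoot g` (in universe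
`u`, finite over `κ`), `y0 = root`, separability gives `h1`; `hensel_ps` gives `y`. Then `κ[X] → κ'⟦X⟧ → κ'((X))` by `jps κ' r` is injective, extends to `Q`, and sends `G` to a polynomial with root `y`: the minimal polynomial `G₀` has the
root `y`, so `K = Q(θ) → κ'((X))`, `θ ↦ y` (`IntermediateField` / `AdjoinRoot` lift, `IsAlgebraic`...). `T ↦ jps X = C r + X`.
-/

set_option autoImplicit false

universe u

open Polynomial

namespace Pool.Agent.Lib.MeadF

private theorem finite_transfer {κ K Q : Type u} [Field κ] [Field K] [Algebra κ K] [Field Q]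
    [Algebra κ Q] [Algebra Q K] [IsScalarTower κ Q K] (T : K) (q : Q)
    (hq : algebraMap Q K q = T)
    (hfin : FiniteDimensional (IntermediateField.adjoin κ {T}) K) : FiniteDimensional Q K := by
  obtain ⟨S, hS⟩ := hfin.fg_top
  have hle : IntermediateField.adjoin κ {T} ≤ (IsScalarTower.toAlgHom κ Q K).fieldRange := by
    rw [IntermediateField.adjoin_le_iff, Set.singleton_subset_iff]
    exact ⟨q, hq⟩
  refine ⟨⟨S, ?_⟩⟩
  rw [eq_top_iff]
  intro x _
  have hx : x ∈ Submodule.span (IntermediateField.adjoin κ {T}) (S : Set K) := by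
    rw [hS]
    exact Submodule.mem_top
  induction hx using Submodule.span_induction with
  | mem x hx => exact Submodule.subset_span hx
  | zero => exact Submodule.zero_mem _
  | add x y _ _ hx hy => exact Submodule.add_mem _ (hx trivial) (hy trivial)
  | smul a x _ hx =>
    obtain ⟨b, hb⟩ := hle a.2
    have hab : a • x = b • x := by
      rw [Algebra.smul_def, Algebra.smul_def]
      congr 1
      exact hb.symm
    rw [hab]
    exact Submodule.smul_mem _ _ (hx trivial)

private theorem core (κ Q K : Type u) [Field κ] [CharZero κ] [Field Q] [CharZero Q]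
    [Algebra κ[X] Q] [IsFractionRing κ[X] Q]
    [Field K] [CharZero K] [Algebra Q K] [FiniteDimensional Q K] :
    ∃ (κ' : Type u) (_ : Field κ') (_ : Algebra κ κ') (_ : FiniteDimensional κ κ') (r : ℚ)
      (ι : K →+* LaurentSeries κ'),
      ∀ q : κ[X], ι (algebraMap Q K (algebraMap κ[X] Q q)) =
        HahnSeries.ofPowerSeries ℤ κ' (jps κ' (r : κ) q) := by
  classical
  obtain ⟨θ, hθ⟩ := Field.exists_primitive_element Q K
  have hθi : IsIntegral Q θ := Algebra.IsIntegral.isIntegral θ
  set m := minpoly Q θ with hm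
  have hm0 : m ≠ 0 := minpoly.ne_zero hθi
  have hmsep : m.Separable := Algebra.IsSeparable.isSeparable Q θ
  obtain ⟨b, hb, hG⟩ := IsLocalization.integerNormalization_spec (nonZeroDivisors κ[X]) m
  set G := IsLocalization.integerNormalization (nonZeroDivisors κ[X]) m with hGdef
  have hb0 : b ≠ 0 := nonZeroDivisors.ne_zero hb
  have hinj : Function.Injective (algebraMap κ[X] Q) := IsFractionRing.injective κ[X] Q
  have hbu : algebraMap κ[X] Q b ≠ 0 := by
    intro h
    exact hb0 (hinj (by rw [h, map_zero]))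
  have hG' : G.map (algebraMap κ[X] Q) = C (algebraMap κ[X] Q b) * m := by
    rw [hG, Algebra.smul_def]
    rfl
  have hG0 : G ≠ 0 := by
    intro h
    rw [h, Polynomial.map_zero] at hG'
    exact mul_ne_zero (C_ne_zero.mpr hbu) hm0 hG'.symm
  have hGsep1 : (G.map (algebraMap κ[X] Q)).Separable := by
    rw [hG']
    exact (hmsep.unit_mul ((isUnit_C.mpr (isUnit_iff_ne_zero.mpr hbu))))
  have hGsep : (G.map (algebraMap κ[X] (FractionRing κ[X]))).Separable := by
    have h2 : G.map (algebraMap κ[X] Q) = (G.map (algebraMap κ[X] (FractionRing κ[X]))).map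
        ((FractionRing.algEquiv κ[X] Q : FractionRing κ[X] →+* Q)) := by
      rw [Polynomial.map_map]
      congr 1
      ext x <;> simp
    rw [h2, Polynomial.separable_map] at hGsep1
    exact hGsep1
  have hGdeg : 0 < G.natDegree := by
    rw [← Polynomial.natDegree_map_eq_of_injective hinj G, hG', natDegree_C_mul hbu]
    exact minpoly.natDegree_pos hθi
  obtain ⟨r, hr, hrs⟩ := exists_r G hG0 hGsep
  have hdeg' : 0 < (G.map (evalRingHom (r : κ))).natDegree := by
    rw [Polynomial.natDegree_map_of_leadingCoeff_ne_zero]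
    · exact hGdeg
    · simpa using hr
  obtain ⟨g, hg, hgd⟩ := Polynomial.exists_irreducible_of_natDegree_pos hdeg'
  have hgf : Fact (Irreducible g) := ⟨hg⟩
  have hy0 : aeval (AdjoinRoot.root g) (G.map (evalRingHom (r : κ))) = 0 := by
    obtain ⟨w, hw⟩ := hgd
    rw [hw, map_mul, AdjoinRoot.aeval_eq, AdjoinRoot.mk_self, zero_mul]
  obtain ⟨y, hy⟩ := hensel_ps (AdjoinRoot g) (r : κ) G hr (AdjoinRoot.root g) hy0
    (hrs.aeval_derivative_ne_zero hy0)
  have hfin' : FiniteDimensional κ (AdjoinRoot g) := (AdjoinRoot.powerBasis hg.ne_zero).finite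
  -- the map on `κ[X]`
  let j : κ[X] →+* LaurentSeries (AdjoinRoot g) :=
    (HahnSeries.ofPowerSeries ℤ (AdjoinRoot g)).comp (jps (AdjoinRoot g) (r : κ))
  have hj : Function.Injective j :=
    HahnSeries.ofPowerSeries_injective.comp (jps_injective (AdjoinRoot g) (r : κ))
  let i : Q →+* LaurentSeries (AdjoinRoot g) := IsFractionRing.lift hj
  have hi : ∀ q : κ[X], i (algebraMap κ[X] Q q) = j q :=
    fun q => IsFractionRing.lift_algebraMap hj q
  have hij : i.comp (algebraMap κ[X] Q) = j := RingHom.ext hi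
  have hroot : eval₂ i (HahnSeries.ofPowerSeries ℤ (AdjoinRoot g) y) m = 0 := by
    have h1 : eval₂ i (HahnSeries.ofPowerSeries ℤ (AdjoinRoot g) y)
        (G.map (algebraMap κ[X] Q)) = 0 := by
      rw [eval₂_map, hij]
      have := Polynomial.hom_eval₂ G (jps (AdjoinRoot g) (r : κ))
        (HahnSeries.ofPowerSeries ℤ (AdjoinRoot g)) y
      rw [hy, map_zero] at this
      exact this.symm
    rw [hG', eval₂_mul, eval₂_C] at h1
    have h2 : i (algebraMap κ[X] Q b) ≠ 0 := by
      rw [Ne, map_eq_zero]
      exact hbu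
    exact (mul_eq_zero.mp h1).resolve_left h2
  let L : AdjoinRoot m →+* LaurentSeries (AdjoinRoot g) := AdjoinRoot.lift i _ hroot
  let e1 : IntermediateField.adjoin Q {θ} ≃ₐ[Q] AdjoinRoot m :=
    (IntermediateField.adjoinRootEquivAdjoin Q hθi).symm
  let e2 : K ≃ₐ[Q] IntermediateField.adjoin Q {θ} :=
    ((IntermediateField.equivOfEq hθ).trans IntermediateField.topEquiv).symm
  refine ⟨AdjoinRoot g, inferInstance, inferInstance, hfin', r,
    (L.comp (e1 : _ →+* AdjoinRoot m)).comp
    (e2 : K →+* IntermediateField.adjoin Q {θ}), ?_⟩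
  intro q
  change L (e1 (e2 (algebraMap Q K _))) = _
  rw [AlgEquiv.commutes, AlgEquiv.commutes]
  change AdjoinRoot.lift i _ hroot (AdjoinRoot.of m _) = _
  rw [AdjoinRoot.lift_of, hi]
  rfl

theorem exists_place {κ K : Type u} [Field κ] [CharZero κ] [Field K] [Algebra κ K] (T : K)
    (hT : Transcendental κ T) (hfin : FiniteDimensional (IntermediateField.adjoin κ {T}) K) :
    ∃ (κ' : Type u) (_ : Field κ') (_ : Algebra κ κ') (_ : FiniteDimensional κ κ') (r : ℚ)
      (ι : K →+* LaurentSeries κ'),
      ι T = HahnSeries.C (algebraMap κ κ' (r : κ)) + HahnSeries.single 1 1 ∧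
        ∀ a : κ, ι (algebraMap κ K a) = HahnSeries.C (algebraMap κ κ' a) := by
  have hchar : CharZero K := charZero_of_injective_algebraMap (algebraMap κ K).injective
  let _ : Algebra κ[X] K := (aeval T).toRingHom.toAlgebra
  have hamap : ∀ q : κ[X], algebraMap κ[X] K q = aeval T q := fun q => rfl
  have hfaith : FaithfulSMul κ[X] K := by
    rw [faithfulSMul_iff_algebraMap_injective]
    exact transcendental_iff_injective.mp hT
  let _ : Algebra (FractionRing κ[X]) K := FractionRing.liftAlgebra κ[X] K
  have htower : IsScalarTower κ[X] (FractionRing κ[X]) K :=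
    FractionRing.isScalarTower_liftAlgebra κ[X] K
  have htower2 : IsScalarTower κ (FractionRing κ[X]) K := by
    refine IsScalarTower.of_algebraMap_eq (fun a => ?_)
    rw [IsScalarTower.algebraMap_apply κ κ[X] (FractionRing κ[X]),
      ← IsScalarTower.algebraMap_apply κ[X] (FractionRing κ[X]) K, hamap]
    simp
  have hTX : algebraMap (FractionRing κ[X]) K (algebraMap κ[X] (FractionRing κ[X]) X) = T := by
    rw [← IsScalarTower.algebraMap_apply κ[X] (FractionRing κ[X]) K, hamap]
    simp
  have hfinQ : FiniteDimensional (FractionRing κ[X]) K := finite_transfer T _ hTX hfin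
  obtain ⟨κ', h1, h2, h3, r, ι, hι⟩ := core κ (FractionRing κ[X]) K
  refine ⟨κ', h1, h2, h3, r, ι, ?_, ?_⟩
  · have h4 := hι X
    rw [hTX] at h4
    rw [h4]
    simp [jps]
  · intro a
    have h4 := hι (C a)
    rw [← IsScalarTower.algebraMap_apply κ[X] (FractionRing κ[X]) K, hamap, aeval_C] at h4
    rw [h4]
    simp [jps]

end Pool.Agent.Lib.MeadF
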