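import Mathlib
import Pool.Agent.Lib.MeadF.LaurentA
import Pool.Agent.Lib.MeadF.Place
import Pool.Agent.Lib.MeadF.BaseP

/-!
# MeadF.Aniso (size 220): anisotropy over finitely generated fields

Induction on `n` for all `K` (in universe `u`).
* `n = 0`: `K` is algebraic and finitely generated over `ℚ`: a number field; `exists_emb`; `qf p u t x = nf p u (x default)` (`Fin 0 → Bool` is unique, `pc = 1`), mapped to `ℚ_[p]`: `nf_aniso`.
* `n + 1`: `κ = adjoin ℚ (range (Fin.tail T))` (as a type; `IntermediateField ℚ K`), `T 0` transcendental over `κ`, `K` algebraic and finitely generated, hence finite, over `κ(T 0)`. `exists_place` gives `κ'`, `r₀`, `ι`.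
  `κ'` is finite over `κ`, hence finitely generated over `ℚ`, and `Fin.tail T` (mapped to `κ'`) is a transcendence basis of `κ'` over `ℚ`. Induction gives `r` and `p` for `κ'`. Take `Fin.cons r₀ r`.
  If `qf p u (T j - r j) x = 0` over `K`, map by `ι`: `ι (T 0 - r₀) = single 1 1`, `ι (T j.succ - r j) = C (algebraMap (T j.succ) - r j)`, `ι p = C p`, and `aniso_cons` gives `ι (x s i) = 0`.
-/

set_option autoImplicit false

universe u

open scoped IntermediateField.algebraAdjoinAdjoin

namespace Pool.Agent.Lib.MeadF

/-- algebraic elements stay algebraic over a larger ring -/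
private theorem isAlgebraic_of_le {R S A : Type*} [CommRing R] [CommRing S] [CommRing A]
    [Algebra R A] [Algebra S A] (j : R →+* S) (hj : Function.Injective j)
    (hc : ∀ r, algebraMap S A (j r) = algebraMap R A r) {x : A} (hx : IsAlgebraic R x) :
    IsAlgebraic S x := by
  obtain ⟨p, hp, hpx⟩ := hx
  refine ⟨p.map j, ?_, ?_⟩
  · rwa [Ne, Polynomial.map_eq_zero_iff hj]
  · rw [Polynomial.aeval_def, Polynomial.eval₂_map]
    rw [Polynomial.aeval_def] at hpx
    rw [← hpx]
    congr 1
    exact RingHom.ext hc

/-- elements of a field generated by `S` over `ℚ` go to any subfield containing the image of `S` -/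
private theorem map_mem_of_adjoin {K κ' : Type u} [Field K] [CharZero K] [Field κ'] [CharZero κ']
    (S : Set K) (f : IntermediateField.adjoin ℚ S →+* κ') (E : IntermediateField ℚ κ')
    (hE : ∀ x (hx : x ∈ S), f ⟨x, IntermediateField.subset_adjoin _ _ hx⟩ ∈ E)
    (a : IntermediateField.adjoin ℚ S) : f a ∈ E := by
  obtain ⟨a, ha⟩ := a
  induction ha using IntermediateField.adjoin_induction with
  | mem x hx => exact hE x hx
  | algebraMap q =>
    have h1 : (⟨algebraMap ℚ K q, IntermediateField.algebraMap_mem _ q⟩ :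
        IntermediateField.adjoin ℚ S) = algebraMap ℚ _ q := rfl
    have h2 : f (algebraMap ℚ _ q) = algebraMap ℚ κ' q := by
      rw [eq_ratCast, eq_ratCast, map_ratCast]
    rw [h1, h2]
    exact E.algebraMap_mem q
  | add x y hx hy hx' hy' =>
    have h1 : (⟨x + y, add_mem hx hy⟩ : IntermediateField.adjoin ℚ S) = ⟨x, hx⟩ + ⟨y, hy⟩ := rfl
    rw [h1, map_add]
    exact add_mem hx' hy'
  | inv x hx hx' =>
    have h1 : (⟨x⁻¹, inv_mem hx⟩ : IntermediateField.adjoin ℚ S) = (⟨x, hx⟩)⁻¹ := rfl
    rw [h1, map_inv₀]
    exact inv_mem hx'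
  | mul x y hx hy hx' hy' =>
    have h1 : (⟨x * y, mul_mem hx hy⟩ : IntermediateField.adjoin ℚ S) = ⟨x, hx⟩ * ⟨y, hy⟩ := rfl
    rw [h1, map_mul]
    exact mul_mem hx' hy'

private theorem base_case (K : Type u) [Field K] [CharZero K]
    (T : Fin 0 → K) (hT : IsTranscendenceBasis ℚ T) {m : ℕ} (c : Fin m → K)
    (hc : IntermediateField.adjoin ℚ (Set.range c) = ⊤) :
    ∃ (r : Fin 0 → ℚ) (p : ℕ) (_ : Fact p.Prime), p % 8 = 1 ∧
      ∀ u : ℕ, ¬ IsSquare (u : ZMod p) → ∀ x : (Fin 0 → Bool) → Fin 4 → K,
        qf (p : K) (u : K) (fun j => T j - (r j : K)) x = 0 → x = 0 := by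
  have halg : ∀ x : K, IsAlgebraic ℚ x := by
    intro x
    have h1 : IsAlgebraic (Algebra.adjoin ℚ (Set.range T)) x := hT.isAlgebraic.isAlgebraic x
    rw [Set.range_eq_empty, Algebra.adjoin_empty] at h1
    have h2 : IsAlgebraic (⊥ : Subalgebra ℚ K) x := h1
    refine isAlgebraic_of_le (Algebra.botEquiv ℚ K : (⊥ : Subalgebra ℚ K) →+* ℚ)
      (Algebra.botEquiv ℚ K).injective ?_ h2
    intro r
    obtain ⟨q, rfl⟩ := (Algebra.botEquiv ℚ K).symm.surjective r
    have h3 : (Algebra.botEquiv ℚ K : (⊥ : Subalgebra ℚ K) →+* ℚ) ((Algebra.botEquiv ℚ K).symm q) = q :=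
      (Algebra.botEquiv ℚ K).apply_symm_apply q
    rw [h3, Algebra.botEquiv_symm_apply]
    rfl
  have hfin : FiniteDimensional ℚ K := by
    have h1 : FiniteDimensional ℚ (IntermediateField.adjoin ℚ (Set.range c)) :=
      IntermediateField.finiteDimensional_adjoin fun x _ => (halg x).isIntegral
    rw [hc] at h1
    exact Module.Finite.equiv (IntermediateField.topEquiv (F := ℚ) (E := K)).toLinearEquiv
  have hnf : NumberField K := { to_charZero := inferInstance, to_finiteDimensional := hfin }
  obtain ⟨p, hp, hp8, ⟨ι⟩⟩ := exists_emb K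
  refine ⟨fun _ => 0, p, hp, hp8, fun u hu x hx => ?_⟩
  have h1 : qf (p : K) (u : K) (fun j => T j - ((fun _ : Fin 0 => (0 : ℚ)) j : K)) x =
      nf (p : K) (u : K) (x default) := by
    rw [qf, Fintype.sum_unique, pc, Finset.prod_of_isEmpty, one_mul]
    exact congrArg (fun z => nf (p : K) (u : K) (x z)) (Subsingleton.elim _ _)
  rw [h1] at hx
  have h2 := congrArg ι hx
  rw [map_nf, map_natCast, map_natCast, map_zero] at h2
  have h3 := nf_aniso p u hu _ h2
  funext s i
  have h4 := congrFun h3 i
  rw [Subsingleton.elim s default]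
  exact (map_eq_zero ι).1 h4

theorem exists_aniso (n : ℕ) (K : Type u) [Field K] [CharZero K]
    (T : Fin n → K) (hT : IsTranscendenceBasis ℚ T) {m : ℕ} (c : Fin m → K)
    (hc : IntermediateField.adjoin ℚ (Set.range c) = ⊤) :
    ∃ (r : Fin n → ℚ) (p : ℕ) (_ : Fact p.Prime), p % 8 = 1 ∧
      ∀ u : ℕ, ¬ IsSquare (u : ZMod p) → ∀ x : (Fin n → Bool) → Fin 4 → K,
        qf (p : K) (u : K) (fun j => T j - (r j : K)) x = 0 → x = 0 := by
  classical
  induction n generalizing K m with
  | zero => exact base_case K T hT c hc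
  | succ n ih =>
    set κ : IntermediateField ℚ K := IntermediateField.adjoin ℚ (Set.range (Fin.tail T)) with hκ
    have htail : ∀ j, Fin.tail T j ∈ κ := fun j => IntermediateField.subset_adjoin _ _ ⟨j, rfl⟩
    -- `T 0` is transcendental over `κ`
    have hT0 : Transcendental κ (T 0) := by
      have h1 : Transcendental (Algebra.adjoin ℚ (T '' {0}ᶜ)) (T 0) :=
        hT.1.transcendental_adjoin (by simp)
      have h2 : T '' {0}ᶜ = Set.range (Fin.tail T) := by
        ext x
        constructor
        · rintro ⟨i, hi, rfl⟩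
          obtain ⟨j, rfl⟩ := Fin.exists_succ_eq.2 hi
          exact ⟨j, rfl⟩
        · rintro ⟨j, rfl⟩
          exact ⟨j.succ, by simp, rfl⟩
      rw [h2] at h1
      intro h3
      apply h1
      exact (IsFractionRing.isAlgebraic_iff (Algebra.adjoin ℚ (Set.range (Fin.tail T)))
        (IntermediateField.adjoin ℚ (Set.range (Fin.tail T))) K).2 h3
    -- `K` is finite over `κ(T 0)`
    have hfin : FiniteDimensional (IntermediateField.adjoin κ {T 0}) K := by
      set L : IntermediateField κ K := IntermediateField.adjoin κ {T 0} with hL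
      have hTL : ∀ j, T j ∈ L := by
        intro j
        refine Fin.cases ?_ (fun j => ?_) j
        · exact IntermediateField.subset_adjoin _ _ rfl
        · exact L.algebraMap_mem ⟨Fin.tail T j, htail j⟩
      have hle : ∀ x ∈ Algebra.adjoin ℚ (Set.range T), x ∈ L := by
        intro x hx
        have h1 : Algebra.adjoin ℚ (Set.range T) ≤ (L.restrictScalars ℚ).toSubalgebra := by
          rw [Algebra.adjoin_le_iff]
          rintro _ ⟨j, rfl⟩
          exact hTL j
        exact h1 hx
      have halg : ∀ x : K, IsAlgebraic L x := by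
        intro x
        have h1 : IsAlgebraic (Algebra.adjoin ℚ (Set.range T)) x := hT.isAlgebraic.isAlgebraic x
        let j : Algebra.adjoin ℚ (Set.range T) →+* L :=
          { toFun := fun a => ⟨a.1, hle a.1 a.2⟩
            map_one' := rfl
            map_mul' := fun _ _ => rfl
            map_zero' := rfl
            map_add' := fun _ _ => rfl }
        refine isAlgebraic_of_le j ?_ (fun _ => rfl) h1
        intro a b hab
        exact Subtype.ext (congrArg (fun z : L => (z : K)) hab)
      have h2 : FiniteDimensional L (IntermediateField.adjoin L (Set.range c)) :=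
        IntermediateField.finiteDimensional_adjoin fun x _ => (halg x).isIntegral
      have h3 : IntermediateField.adjoin L (Set.range c) = ⊤ := by
        rw [eq_top_iff]
        intro x _
        have h4 : x ∈ IntermediateField.adjoin ℚ (Set.range c) := by
          rw [hc]
          trivial
        have h5 : IntermediateField.adjoin ℚ (Set.range c) ≤
            (IntermediateField.adjoin L (Set.range c)).restrictScalars ℚ := by
          rw [IntermediateField.adjoin_le_iff]
          exact IntermediateField.subset_adjoin _ _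
        exact h5 h4
      rw [h3] at h2
      exact Module.Finite.equiv (IntermediateField.topEquiv (F := L) (E := K)).toLinearEquiv
    obtain ⟨κ', hκ'1, hκ'2, hκ'3, r₀, ι, hι0, hι⟩ := exists_place (T 0) hT0 hfin
    have hch : CharZero κ' := charZero_of_injective_algebraMap (algebraMap κ κ').injective
    set T' : Fin n → κ' := fun j => algebraMap κ κ' ⟨Fin.tail T j, htail j⟩ with hT'
    -- generators of `κ'`
    obtain ⟨S, hS⟩ := hκ'3.fg_top
    set c' : Fin (n + S.card) → κ' :=
      Fin.append T' (fun i => ((S.equivFin.symm i : S) : κ')) with hc'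
    have hc'top : IntermediateField.adjoin ℚ (Set.range c') = ⊤ := by
      rw [eq_top_iff]
      intro x _
      have hx : x ∈ Submodule.span κ (S : Set κ') := by
        rw [hS]
        exact Submodule.mem_top
      induction hx using Submodule.span_induction with
      | mem x hx =>
        refine IntermediateField.subset_adjoin _ _ ⟨Fin.natAdd n (S.equivFin ⟨x, hx⟩), ?_⟩
        rw [hc', Fin.append_right]
        simp
      | zero => exact zero_mem _
      | add x y _ _ hx hy => exact add_mem (hx trivial) (hy trivial)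
      | smul a x _ hx =>
        rw [Algebra.smul_def]
        refine mul_mem ?_ (hx trivial)
        refine map_mem_of_adjoin (Set.range (Fin.tail T)) (algebraMap κ κ')
          (IntermediateField.adjoin ℚ (Set.range c')) ?_ a
        rintro _ ⟨j, rfl⟩
        refine IntermediateField.subset_adjoin _ _ ⟨Fin.castAdd S.card j, ?_⟩
        rw [hc', Fin.append_left]
    -- transcendence basis of `κ'`
    have hT'ind : AlgebraicIndependent ℚ T' := by
      have h1 : AlgebraicIndependent ℚ (fun j => T (Fin.succ j)) :=
        hT.1.comp Fin.succ (Fin.succ_injective n)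
      have h2 : AlgebraicIndependent ℚ (fun j => (⟨Fin.tail T j, htail j⟩ : κ)) :=
        (AlgHom.algebraicIndependent_iff κ.val κ.val.injective).1 h1
      exact (AlgHom.algebraicIndependent_iff (algebraMap κ κ').toRatAlgHom
        (algebraMap κ κ').injective).2 h2
    have hT'tb : IsTranscendenceBasis ℚ T' := by
      rw [isTranscendenceBasis_iff_algebraicIndependent_isAlgebraic]
      refine ⟨hT'ind, ⟨fun x => ?_⟩⟩
      refine (IsFractionRing.isAlgebraic_iff (Algebra.adjoin ℚ (Set.range T'))
        (IntermediateField.adjoin ℚ (Set.range T')) κ').2 ?_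
      have h1 : IsAlgebraic κ x := Algebra.IsAlgebraic.isAlgebraic x
      have h2 : ∀ a : κ, algebraMap κ κ' a ∈ IntermediateField.adjoin ℚ (Set.range T') := by
        intro a
        refine map_mem_of_adjoin (Set.range (Fin.tail T)) (algebraMap κ κ')
          (IntermediateField.adjoin ℚ (Set.range T')) ?_ a
        rintro _ ⟨j, rfl⟩
        exact IntermediateField.subset_adjoin _ _ ⟨j, rfl⟩
      let j : κ →+* IntermediateField.adjoin ℚ (Set.range T') :=
        (algebraMap κ κ').codRestrict _ h2
      exact isAlgebraic_of_le j j.injective (fun _ => rfl) h1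
    obtain ⟨r, p, hp, hp8, hr⟩ := ih κ' T' hT'tb c' hc'top
    refine ⟨Fin.cons r₀ r, p, hp, hp8, fun u hu x hx => ?_⟩
    have h1 := congrArg ι hx
    rw [map_qf, map_zero, map_natCast, map_natCast] at h1
    have h2 : (fun j : Fin (n + 1) => ι (T j - ((Fin.cons r₀ r : Fin (n + 1) → ℚ) j : K))) =
        (Fin.cons (HahnSeries.single 1 1) (fun j => HahnSeries.C (T' j - (r j : κ'))) :
          Fin (n + 1) → LaurentSeries κ') := by
      funext j
      refine Fin.cases ?_ (fun j => ?_) j
      · rw [Fin.cons_zero, Fin.cons_zero, map_sub, hι0, map_ratCast, map_ratCast, map_ratCast]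
        ring
      · rw [Fin.cons_succ, Fin.cons_succ, map_sub, map_sub, map_ratCast, map_ratCast]
        congr 1
        exact hι ⟨Fin.tail T j, htail j⟩
    rw [h2, ← map_natCast (HahnSeries.C : κ' →+* LaurentSeries κ') p,
      ← map_natCast (HahnSeries.C : κ' →+* LaurentSeries κ') u] at h1
    have h3 := aniso_cons (p : κ') (u : κ') (fun j => T' j - (r j : κ')) (hr u hu) _ h1
    funext s i
    exact (map_eq_zero ι).1 (congrFun (congrFun h3 s) i)

end Pool.Agent.Lib.MeadF
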