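import Mathlib
import Pool.Agent.Lib.MeadF.Aniso

/-!
# MeadF.AnisoK (size 150): the identities hold in `K`

`T` a transcendence basis of `K` over `ℚ` indexed by `Fin n` (`htr`). `K' = K(i)`: `K' = SplittingField (X² + 1)` or `AdjoinRoot` of an irreducible factor, or `IntermediateField.adjoin K {i}` in `AlgebraicClosure K` (universe `u`);
finitely generated over `ℚ` (generators of `K` and `i`), `T` is still a transcendence basis. `exists_aniso` gives `r`, `p`; `t j = T j - r j` is a transcendence basis of `K`.
Squares: `x² = p`: `nf p u ![x, 1, 0, 0] = 0`; `x² = u`: `nf p u ![x, 0, 1, 0] = 0`; `x² = p u`: `nf p u ![i x, 0, 0, 1] = 0` (put the vector at the index `fun _ => false`, `pc_false`): contradiction to anisotropy over `K'`.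
Form: `qf x = qf y`, `qb x y = 0` give by `qf_add_mul` `qf (x + i y) = 0` and `qf (x - i y) = 0` in `K'`, so `x + i y = 0 = x - i y`, `x = y = 0`.
-/

set_option autoImplicit false

universe u

namespace Pool.Agent.Lib.MeadF

private lemma ak_shift {K : Type u} [Field K] [CharZero K] {n : ℕ} {T : Fin n → K}
    (hT : IsTranscendenceBasis ℚ T) (r : Fin n → ℚ) :
    IsTranscendenceBasis ℚ (fun j => T j - (r j : K)) := by
  have hadj : Algebra.adjoin ℚ (Set.range fun j => T j - (r j : K)) =
      Algebra.adjoin ℚ (Set.range T) := by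
    apply le_antisymm
    · refine Algebra.adjoin_le ?_
      rintro _ ⟨j, rfl⟩
      refine Subalgebra.sub_mem _ (Algebra.subset_adjoin ⟨j, rfl⟩) ?_
      have h1 := (Algebra.adjoin ℚ (Set.range T)).algebraMap_mem (r j)
      rwa [eq_ratCast] at h1
    · refine Algebra.adjoin_le ?_
      rintro _ ⟨j, rfl⟩
      have h1 := (Algebra.adjoin ℚ (Set.range fun j => T j - (r j : K))).algebraMap_mem (r j)
      rw [eq_ratCast] at h1
      have h2 : T j - (r j : K) ∈ Algebra.adjoin ℚ (Set.range fun j => T j - (r j : K)) :=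
        Algebra.subset_adjoin ⟨j, rfl⟩
      have h3 := Subalgebra.add_mem _ h2 h1
      rwa [sub_add_cancel] at h3
  have halg : Algebra.IsAlgebraic (Algebra.adjoin ℚ (Set.range fun j => T j - (r j : K))) K := by
    rw [hadj]
    exact hT.isAlgebraic
  refine Algebra.IsAlgebraic.isTranscendenceBasis_of_lift_le_trdeg_of_finite ℚ _ ?_
  rw [← hT.lift_cardinalMk_eq_trdeg]

private lemma ak_basis {K : Type u} [Field K] [CharZero K] (n : ℕ)
    (htr : Algebra.trdeg ℚ K = n) : ∃ T : Fin n → K, IsTranscendenceBasis ℚ T := by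
  obtain ⟨ι, x, hx⟩ := exists_isTranscendenceBasis' ℚ K
  have h1 := hx.cardinalMk_eq_trdeg
  rw [htr] at h1
  obtain ⟨e⟩ : Nonempty (Fin n ≃ ι) := by
    have h2 : Cardinal.lift.{u} (Cardinal.mk (Fin n)) = Cardinal.lift.{0} (Cardinal.mk ι) := by
      rw [h1]
      simp
    exact Cardinal.lift_mk_eq'.1 h2
  exact ⟨x ∘ e, hx.comp_equiv e⟩

theorem exists_anisoK (K : Type u) [Field K] [CharZero K] {m : ℕ} (c : Fin m → K)
    (hc : IntermediateField.adjoin ℚ (Set.range c) = ⊤) (n : ℕ) (htr : Algebra.trdeg ℚ K = n) :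
    ∃ (t : Fin n → K) (p : ℕ) (_ : Fact p.Prime), IsTranscendenceBasis ℚ t ∧ p % 8 = 1 ∧
      ∀ u : ℕ, ¬ IsSquare (u : ZMod p) →
        (∀ x : K, (x ^ 2 - (p : K)) * (x ^ 2 - (u : K)) * (x ^ 2 - (p : K) * (u : K)) ≠ 0) ∧
        ∀ x y : (Fin n → Bool) → Fin 4 → K, qf (p : K) (u : K) t x = qf (p : K) (u : K) t y →
          qb (p : K) (u : K) t x y = 0 → x = 0 ∧ y = 0 := by
  obtain ⟨T, hT⟩ := ak_basis n htr
  obtain ⟨i₀, hi₀⟩ : ∃ i : AlgebraicClosure K, i ^ 2 = -1 := IsAlgClosed.exists_pow_nat_eq _ two_pos
  let K' : IntermediateField K (AlgebraicClosure K) := IntermediateField.adjoin K {i₀}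
  have hmem : i₀ ∈ K' := IntermediateField.mem_adjoin_simple_self K i₀
  let i : K' := ⟨i₀, hmem⟩
  have hi : i ^ 2 = -1 := Subtype.ext hi₀
  have hi0 : i ≠ 0 := by
    intro h
    rw [h] at hi
    norm_num at hi
  have hchar : CharZero K' := charZero_of_injective_algebraMap (algebraMap K K').injective
  let φ : K →+* K' := algebraMap K K'
  have halg : Algebra.IsAlgebraic K K' := inferInstance
  have hT' : IsTranscendenceBasis ℚ (fun j => φ (T j)) := hT.algebraMap_comp
  let c' : Fin (m + 1) → K' := Fin.cons i fun j => φ (c j)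
  have hc' : IntermediateField.adjoin ℚ (Set.range c') = ⊤ := by
    let L : IntermediateField ℚ K' := IntermediateField.adjoin ℚ (Set.range c')
    have h1 : ∀ x : K, φ x ∈ L := by
      have h2 : (⊤ : IntermediateField ℚ K) ≤
          L.comap (IsScalarTower.toAlgHom ℚ K K') := by
        rw [← hc, IntermediateField.adjoin_le_iff]
        rintro _ ⟨j, rfl⟩
        change φ (c j) ∈ L
        exact IntermediateField.subset_adjoin _ _ ⟨j.succ, rfl⟩
      intro x
      exact h2 (IntermediateField.mem_top)
    have h3 : i ∈ L := IntermediateField.subset_adjoin _ _ ⟨0, rfl⟩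
    -- the image of `L` in the algebraic closure as a field over `K`
    let S : Subfield K' := L.toSubfield
    let M : IntermediateField K K' := S.toIntermediateField (fun x => h1 x)
    have h4 : K' ≤ M.map K'.val := by
      refine IntermediateField.adjoin_le_iff.2 ?_
      rintro _ rfl
      exact ⟨i, h3, rfl⟩
    change L = ⊤
    rw [eq_top_iff]
    rintro ⟨x, hx⟩ -
    obtain ⟨y, hy, hyx⟩ := h4 hx
    have h5 : y = ⟨x, hx⟩ := Subtype.ext hyx
    rw [← h5]
    exact hy
  obtain ⟨r, p, hp, hp8, hrp⟩ := exists_aniso n K' (fun j => φ (T j)) hT' c' hc'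
  refine ⟨fun j => T j - (r j : K), p, hp, ak_shift hT r, hp8, fun u hu => ?_⟩
  have key := hrp u hu
  have hφ : ∀ x : K, φ x = 0 → x = 0 := fun x hx => (map_eq_zero φ).1 hx
  have hnf : ∀ y : Fin 4 → K', nf (p : K') (u : K') y = 0 → y = 0 := by
    intro y hy
    by_contra hy0
    obtain ⟨x, hx, hx0⟩ := iso_of_nf (fun j => φ (T j) - (r j : K')) hy0 hy
    exact hx (key x hx0)
  constructor
  · intro x hx
    rcases mul_eq_zero.1 hx with h1 | h1
    · rcases mul_eq_zero.1 h1 with h2 | h2
      · have h3 : φ x ^ 2 = (p : K') := by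
          rw [← map_pow, sub_eq_zero.1 h2, map_natCast]
        have h4 := hnf ![φ x, 1, 0, 0] (by simp [nf, h3])
        have h5 := congrFun h4 1
        simp at h5
      · have h3 : φ x ^ 2 = (u : K') := by
          rw [← map_pow, sub_eq_zero.1 h2, map_natCast]
        have h4 := hnf ![φ x, 0, 1, 0] (by simp [nf, h3])
        have h5 := congrFun h4 2
        simp at h5
    · have h3 : φ x ^ 2 = (p : K') * (u : K') := by
        rw [← map_pow, sub_eq_zero.1 h1, map_mul, map_natCast, map_natCast]
      have h4 := hnf ![i * φ x, 0, 0, 1] (by simp [nf, mul_pow, hi, h3])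
      have h5 := congrFun h4 3
      simp at h5
  · intro x y hxy hb
    have hcast : ∀ j, φ (T j - (r j : K)) = φ (T j) - (r j : K') := by
      intro j
      rw [map_sub, map_ratCast]
    have h1 : qf (p : K') (u : K') (fun j => φ (T j) - (r j : K')) (fun s k => φ (x s k)) =
        φ (qf (p : K) (u : K) (fun j => T j - (r j : K)) x) := by
      rw [map_qf, map_natCast, map_natCast]
      simp only [hcast]
    have h2 : qf (p : K') (u : K') (fun j => φ (T j) - (r j : K')) (fun s k => φ (y s k)) =
        φ (qf (p : K) (u : K) (fun j => T j - (r j : K)) y) := by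
      rw [map_qf, map_natCast, map_natCast]
      simp only [hcast]
    have h3 : qb (p : K') (u : K') (fun j => φ (T j) - (r j : K')) (fun s k => φ (x s k))
        (fun s k => φ (y s k)) =
        φ (qb (p : K) (u : K) (fun j => T j - (r j : K)) x y) := by
      rw [map_qb, map_natCast, map_natCast]
      simp only [hcast]
    have hz : ∀ e : K', e ^ 2 = -1 → ∀ s k, φ (x s k) + e * φ (y s k) = 0 := by
      intro e he s k
      have h4 := qf_add_mul (p : K') (u : K') (fun j => φ (T j) - (r j : K'))
        (fun s k => φ (x s k)) (fun s k => φ (y s k)) e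
      rw [h1, h2, h3, hb, hxy, he, map_zero, mul_zero, add_zero] at h4
      have h5 : qf (p : K') (u : K') (fun j => φ (T j) - (r j : K'))
          (fun s k => φ (x s k) + e * φ (y s k)) = 0 := by
        rw [h4]
        ring
      exact congrFun (congrFun (key _ h5) s) k
    have hz1 := hz i hi
    have hz2 := hz (-i) (by rw [neg_sq, hi])
    constructor
    · funext s k
      apply hφ
      have h4 := hz1 s k
      have h5 := hz2 s k
      have h6 : (2 : K') * φ (x s k) = 0 := by linear_combination h4 + h5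
      rcases mul_eq_zero.1 h6 with h7 | h7
      · exact absurd h7 two_ne_zero
      · exact h7
    · funext s k
      apply hφ
      have h4 := hz1 s k
      have h5 := hz2 s k
      have h6 : (2 * i : K') * φ (y s k) = 0 := by linear_combination h4 - h5
      rcases mul_eq_zero.1 h6 with h7 | h7
      · exact absurd h7 (mul_ne_zero two_ne_zero hi0)
      · exact h7

end Pool.Agent.Lib.MeadF
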