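import Mathlib

/-!
# MeadF.Grp (size 120): steps of odd degree or of degree two

`G = Gal(L/k)` (`L ≃ₐ[k] L`), `card G = finrank k L > 1`. Let `P` be a Sylow `2`-subgroup. If `P ≠ ⊤`: the fixed field of `P` has degree `index P`, odd and `> 1` (`Sylow.not_dvd_index'`, `IntermediateField.finrank_fixedField_eq_card` and the
tower law); take a primitive element `θ` of it: its minimal polynomial over `k` has degree `index P`. If `P = ⊤`: `G` is a nontrivial `2`-group, so it has a subgroup `H` of index `2` (`Sylow.exists_subgroup_card_pow_prime`,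
`card H = card G / 2`); the fixed field is quadratic over `k`; `θ₁` a primitive element with minimal polynomial `X² + b X + c`, `θ = θ₁ + b / 2`.
-/

set_option autoImplicit false

namespace Pool.Agent.Lib.MeadF

/-- a primitive element of an intermediate field -/
theorem exists_prim {k L : Type*} [Field k] [CharZero k] [Field L] [Algebra k L]
    [FiniteDimensional k L] (F : IntermediateField k L) :
    ∃ θ : L, (minpoly k θ).natDegree = Module.finrank k F := by
  obtain ⟨α, hα⟩ := Field.exists_primitive_element k F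
  refine ⟨(α : L), ?_⟩
  have h1 : minpoly k (algebraMap F L α) = minpoly k α :=
    minpoly.algebraMap_eq (algebraMap F L).injective α
  have h2 : Module.finrank k (IntermediateField.adjoin k {α}) = (minpoly k α).natDegree :=
    IntermediateField.adjoin.finrank (Algebra.IsIntegral.isIntegral α)
  have h3 : Module.finrank k (IntermediateField.adjoin k {α}) = Module.finrank k F := by
    rw [hα]; exact IntermediateField.finrank_top'
  change (minpoly k (algebraMap F L α)).natDegree = _
  rw [h1, ← h2, h3]

/-- a quadratic element can be normalised -/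
theorem exists_sq {k L : Type*} [Field k] [CharZero k] [Field L] [Algebra k L]
    (θ : L) (hi : IsIntegral k θ) (h : (minpoly k θ).natDegree = 2) :
    ∃ θ : L, θ ∉ Set.range (algebraMap k L) ∧ θ ^ 2 ∈ Set.range (algebraMap k L) := by
  set f := minpoly k θ with hf
  have hm : f.Monic := minpoly.monic hi
  have h0 : Polynomial.aeval θ f = 0 := minpoly.aeval k θ
  rw [Polynomial.aeval_eq_sum_range, h, Finset.sum_range_succ, Finset.sum_range_succ,
    Finset.sum_range_succ, Finset.sum_range_zero] at h0
  have h2 : f.coeff 2 = 1 := by rw [← h]; exact hm.coeff_natDegree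
  rw [h2] at h0
  simp only [Algebra.smul_def, pow_zero, mul_one, zero_add, pow_one, map_one, one_mul] at h0
  have hc : (2 : k) ≠ 0 := two_ne_zero
  refine ⟨θ + algebraMap k L (f.coeff 1 / 2), ?_, ?_⟩
  · rintro ⟨x, hx⟩
    have hθ : θ = algebraMap k L (x - f.coeff 1 / 2) := by
      rw [map_sub, hx]; ring
    have h1 : (minpoly k θ).natDegree = 1 := by
      rw [minpoly.natDegree_eq_one_iff]
      exact ⟨_, hθ.symm⟩
    rw [← hf, h] at h1
    exact absurd h1 (by norm_num)
  · refine ⟨(f.coeff 1 / 2) ^ 2 - f.coeff 0, ?_⟩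
    have h3 : algebraMap k L (f.coeff 1) = 2 * algebraMap k L (f.coeff 1 / 2) := by
      rw [← map_ofNat (algebraMap k L) 2, ← map_mul]
      congr 1
      field_simp
    rw [h3] at h0
    rw [map_sub, map_pow]
    linear_combination -h0

theorem exists_theta {k L : Type*} [Field k] [CharZero k] [Field L] [Algebra k L]
    [FiniteDimensional k L] [IsGalois k L] (h : 1 < Module.finrank k L) :
    (∃ θ : L, Odd (minpoly k θ).natDegree ∧ 1 < (minpoly k θ).natDegree) ∨
      ∃ θ : L, θ ∉ Set.range (algebraMap k L) ∧ θ ^ 2 ∈ Set.range (algebraMap k L) := by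
  classical
  have : Fact (Nat.Prime 2) := ⟨Nat.prime_two⟩
  have hcard : Nat.card (L ≃ₐ[k] L) = Module.finrank k L := IsGalois.card_aut_eq_finrank k L
  -- degree of a fixed field
  have hdeg : ∀ H : Subgroup (L ≃ₐ[k] L),
      Module.finrank k (IntermediateField.fixedField H) * Nat.card H = Nat.card (L ≃ₐ[k] L) := by
    intro H
    have h1 : Module.finrank (IntermediateField.fixedField H) L = Nat.card H :=
      IntermediateField.finrank_fixedField_eq_card H
    rw [hcard, ← h1]
    exact Module.finrank_mul_finrank k (IntermediateField.fixedField H) L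
  by_cases hp : IsPGroup 2 (L ≃ₐ[k] L)
  · right
    obtain ⟨n, hn⟩ := IsPGroup.iff_card.1 hp
    have hn0 : n ≠ 0 := by
      rintro rfl
      rw [pow_zero] at hn
      omega
    obtain ⟨m, rfl⟩ := Nat.exists_eq_succ_of_ne_zero hn0
    obtain ⟨H, hH⟩ := Sylow.exists_subgroup_card_pow_prime (G := L ≃ₐ[k] L) 2 (n := m)
      (by rw [hn]; exact pow_dvd_pow 2 (Nat.le_succ m))
    have h2 := hdeg H
    rw [hH, hn, Nat.succ_eq_add_one, pow_succ, mul_comm (2 ^ m) 2] at h2
    have h3 : Module.finrank k (IntermediateField.fixedField H) = 2 :=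
      Nat.eq_of_mul_eq_mul_right (by positivity) h2
    obtain ⟨θ, hθ⟩ := exists_prim (IntermediateField.fixedField H)
    exact exists_sq θ (Algebra.IsIntegral.isIntegral θ) (hθ.trans h3)
  · left
    let P : Sylow 2 (L ≃ₐ[k] L) := default
    have h1 := hdeg (P : Subgroup (L ≃ₐ[k] L))
    have h2 : (P : Subgroup (L ≃ₐ[k] L)).index * Nat.card P = Nat.card (L ≃ₐ[k] L) :=
      Subgroup.index_mul_card _
    have hpos : 0 < Nat.card P := Nat.card_pos
    have h3 : Module.finrank k (IntermediateField.fixedField (P : Subgroup (L ≃ₐ[k] L)))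
        = (P : Subgroup (L ≃ₐ[k] L)).index :=
      Nat.eq_of_mul_eq_mul_right hpos (h1.trans h2.symm)
    obtain ⟨θ, hθ⟩ := exists_prim (IntermediateField.fixedField (P : Subgroup (L ≃ₐ[k] L)))
    refine ⟨θ, ?_, ?_⟩
    · rw [hθ, h3, ← Nat.not_even_iff_odd, even_iff_two_dvd]
      exact P.not_dvd_index
    · rw [hθ, h3]
      have hne : (P : Subgroup (L ≃ₐ[k] L)).index ≠ 1 := by
        intro h4
        rw [Subgroup.index_eq_one] at h4
        apply hp
        have h5 : IsPGroup 2 (P : Subgroup (L ≃ₐ[k] L)) := P.isPGroup'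
        rw [h4] at h5
        exact h5.of_equiv Subgroup.topEquiv
      have hne0 : (P : Subgroup (L ≃ₐ[k] L)).index ≠ 0 := Subgroup.index_ne_zero_of_finite
      omega

end Pool.Agent.Lib.MeadF
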