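import Mathlib
import Pool.Agent.Lib.MeadF.Basic

/-!
# MeadF.Isom (size 70): change of slots

`w = ![-b * (x 1 * r 2 - x 2 * r 1), a * (x 0 * r 2 - x 2 * r 0), x 0 * r 1 - x 1 * r 0]` = the pure part of the product of the pure quaternions `x` and `r` (`i² = a`, `j² = b`, `ij = k`, `jk = -b i`, `ki = -a j`).
With `B x r = a * (x 0 * r 0) + b * (x 1 * r 1) - a * b * (x 2 * r 2)`: `pq a b w = (B x r)² - pq a b x * pq a b r`, `B x w = 0`, `B r w = 0` (`ring`).
`y : Fin 4 → E` is mapped to `![y 0, y 1 * x 0 + y 2 * r 0 + y 3 * w 0, y 1 * x 1 + y 2 * r 1 + y 3 * w 1, y 1 * x 2 + y 2 * r 2 + y 3 * w 2]`; `nf a b` of it is `nf e c y`, `e = pq a b x`, `c = pq a b r` (expand; `B x r = 0`).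
Injective: if the image is `0` then `y 0 = 0`, pairing the vector with `x`: `y 1 * e = 0`, with `r`: `y 2 * c = 0`, with `w`: `y 3 * (-(e c)) = 0`. Apply it to each `x s`.
-/

set_option autoImplicit false

namespace Pool.Agent.Lib.MeadF

theorem iso_change {E : Type*} [Field E] {n : ℕ} (t : Fin n → E) (a b : E) (x r : Fin 3 → E)
    (horth : a * (x 0 * r 0) + b * (x 1 * r 1) - a * b * (x 2 * r 2) = 0)
    (hx : pq a b x ≠ 0) (hr : pq a b r ≠ 0) (h : Iso (pq a b x) (pq a b r) t) : Iso a b t := by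
  obtain ⟨y, hy, h0⟩ := h
  obtain ⟨w, hw⟩ : ∃ w : Fin 3 → E, w = ![-b * (x 1 * r 2 - x 2 * r 1),
    a * (x 0 * r 2 - x 2 * r 0), x 0 * r 1 - x 1 * r 0] := ⟨_, rfl⟩
  have hw0 : w 0 = -b * (x 1 * r 2 - x 2 * r 1) := by rw [hw]; rfl
  have hw1 : w 1 = a * (x 0 * r 2 - x 2 * r 0) := by rw [hw]; rfl
  have hw2 : w 2 = x 0 * r 1 - x 1 * r 0 := by rw [hw]; rfl
  obtain ⟨g, hg⟩ : ∃ g : (Fin 4 → E) → Fin 4 → E, g = fun y =>
    ![y 0, y 1 * x 0 + y 2 * r 0 + y 3 * w 0, y 1 * x 1 + y 2 * r 1 + y 3 * w 1,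
      y 1 * x 2 + y 2 * r 2 + y 3 * w 2] := ⟨_, rfl⟩
  have hnf : ∀ y, nf a b (g y) = nf (pq a b x) (pq a b r) y := by
    intro y
    rw [hg]
    simp only [nf, pq, Matrix.cons_val_zero, Matrix.cons_val_one, Matrix.cons_val, hw0, hw1, hw2]
    linear_combination (-2 * y 1 * y 2 +
      y 3 ^ 2 * (-(a * (x 0 * r 0) + b * (x 1 * r 1) - a * b * (x 2 * r 2)))) * horth
  have hinj : ∀ y, g y = 0 → y = 0 := by
    intro y hy
    rw [hg] at hy
    have e0 := congrFun hy 0
    have e1 := congrFun hy 1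
    have e2 := congrFun hy 2
    have e3 := congrFun hy 3
    simp only [Matrix.cons_val_zero, Matrix.cons_val_one, Matrix.cons_val, Pi.zero_apply]
      at e0 e1 e2 e3
    have f1 : y 1 * pq a b x = 0 := by
      simp only [pq]
      rw [hw0] at e1
      rw [hw1] at e2
      rw [hw2] at e3
      linear_combination a * x 0 * e1 + b * x 1 * e2 - a * b * x 2 * e3 - y 2 * horth
    have f2 : y 2 * pq a b r = 0 := by
      simp only [pq]
      rw [hw0] at e1
      rw [hw1] at e2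
      rw [hw2] at e3
      linear_combination a * r 0 * e1 + b * r 1 * e2 - a * b * r 2 * e3 - y 1 * horth
    have f3 : y 3 * (pq a b x * pq a b r) = 0 := by
      simp only [pq]
      have g1 := e1
      have g2 := e2
      have g3 := e3
      rw [hw0] at e1
      rw [hw1] at e2
      rw [hw2] at e3
      linear_combination -(a * (-b * (x 1 * r 2 - x 2 * r 1))) * e1 -
        b * (a * (x 0 * r 2 - x 2 * r 0)) * e2 + a * b * (x 0 * r 1 - x 1 * r 0) * e3 +
        y 3 * (a * (x 0 * r 0) + b * (x 1 * r 1) - a * b * (x 2 * r 2)) * horth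
    have y1 : y 1 = 0 := (mul_eq_zero.mp f1).resolve_right hx
    have y2 : y 2 = 0 := (mul_eq_zero.mp f2).resolve_right hr
    have y3 : y 3 = 0 := (mul_eq_zero.mp f3).resolve_right (mul_ne_zero hx hr)
    funext i
    fin_cases i
    · exact e0
    · exact y1
    · exact y2
    · exact y3
  refine ⟨fun s => g (y s), ?_, ?_⟩
  · intro hcon
    apply hy
    funext s
    exact hinj _ (congrFun hcon s)
  · rw [← h0]
    simp only [qf]
    exact Finset.sum_congr rfl fun s _ => by rw [hnf]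

end Pool.Agent.Lib.MeadF
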