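import Mathlib

/-!
# MeadF.Springer (size 200): Springer's theorem for diagonal forms

Polynomial version (private, strong induction on the odd degree `n` of `f`): `f : E[X]` irreducible, `f.natDegree` odd, `X i : E[X]` with `f ∣ ∑ i, C (c i) * X i ^ 2` and not all `X i` divisible by `f`; then the form has a
nontrivial zero in `E`. Proof: replace `X i` by `X i % f`; divide by the gcd of the `X i` (a polynomial of degree `< n`, so prime to `f`): degrees `≤ n - 1`, `gcd = 1`. Let `m` be the maximal degree of the `X i`.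
If the form is anisotropic over `E`, then `∑ C (c i) X i²` has degree exactly `2 m` (the coefficient of `X^(2m)` is the value of the form at the vector of coefficients of `X^m`, which is not zero). So it is `f * g`,
`g ≠ 0`, `natDegree g = 2 m - n` odd and `≤ n - 2`. `g` has an irreducible factor `g₁` of odd degree `< n` (degrees add up). `g₁` divides the sum and does not divide all `X i` (`gcd = 1`): induction.
(If `m = 0` then all `X i` are constants and `n ≤ 2 m = 0`, impossible.) Finally `E' = E(θ)` (primitive element, `Field.exists_primitive_element`, characteristic zero), `f = minpoly E θ`, `x i = aeval θ (X i)`.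
-/

set_option autoImplicit false

open Polynomial

namespace Pool.Agent.Lib.MeadF

private lemma spr_odd_factor {E : Type*} [Field E] (g : E[X]) (hg : g ≠ 0)
    (ho : Odd g.natDegree) : ∃ p : E[X], Irreducible p ∧ p ∣ g ∧ Odd p.natDegree := by
  induction g using WfDvdMonoid.induction_on_irreducible with
  | zero => exact absurd rfl hg
  | unit u hu =>
    rw [natDegree_eq_zero_of_isUnit hu] at ho
    exact absurd ho (by decide)
  | mul a p ha hp ih =>
    rw [natDegree_mul hp.ne_zero ha] at ho
    by_cases h1 : Odd p.natDegree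
    · exact ⟨p, hp, dvd_mul_right _ _, h1⟩
    · have h2 : Odd a.natDegree := by
        rw [Nat.odd_add] at ho
        by_contra h3
        exact h1 (ho.2 (Nat.not_odd_iff_even.1 h3))
      obtain ⟨q, h3, h4, h5⟩ := ih ha h2
      exact ⟨q, h3, h4.mul_left _, h5⟩

private lemma spr_poly {E : Type*} [Field E] {ι : Type*} [Fintype ι] (c : ι → E)
    (hA : ∀ y : ι → E, ∑ i, c i * y i ^ 2 = 0 → y = 0) :
    ∀ (n : ℕ) (f : E[X]), Irreducible f → f.natDegree = n → Odd n → ∀ Z : ι → E[X],
      f ∣ ∑ i, C (c i) * Z i ^ 2 → ∀ i, f ∣ Z i := by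
  intro n
  induction n using Nat.strong_induction_on with
  | _ n ih =>
  intro f hf hn hodd Z hZ
  by_contra hne
  have hf0 : f ≠ 0 := hf.ne_zero
  have hprime : Prime f := hf.prime
  have hex : ∃ m : ℕ, ∃ Y : ι → E[X], (∀ i, (Y i).natDegree ≤ m) ∧
      (f ∣ ∑ i, C (c i) * Y i ^ 2) ∧ ¬ ∀ i, f ∣ Y i :=
    ⟨Finset.univ.sup fun i => (Z i).natDegree, Z,
      fun i => Finset.le_sup (f := fun i => (Z i).natDegree) (Finset.mem_univ i), hZ, hne⟩
  classical
  obtain ⟨Y, hYd, hYf, hYn⟩ := Nat.find_spec hex
  have hmin : ∀ k, k < Nat.find hex → ¬ ∃ Y : ι → E[X], (∀ i, (Y i).natDegree ≤ k) ∧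
      (f ∣ ∑ i, C (c i) * Y i ^ 2) ∧ ¬ ∀ i, f ∣ Y i := fun k hk => Nat.find_min hex hk
  set m := Nat.find hex with hm
  -- the minimal degree is less than `n`
  have hn0 : 0 < n := hodd.pos
  have hmn : m < n := by
    by_contra h1
    apply hmin (n - 1) (by omega)
    refine ⟨fun i => Y i % f, fun i => ?_, ?_, ?_⟩
    · change (Y i % f).natDegree ≤ n - 1
      have h2 : (Y i % f).degree < f.degree := EuclideanDomain.mod_lt _ hf0
      by_cases h3 : Y i % f = 0
      · rw [h3, natDegree_zero]
        exact Nat.zero_le _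
      · have h4 : (Y i % f).natDegree < f.natDegree := natDegree_lt_natDegree h3 h2
        omega
    · have h2 : f ∣ ∑ i, C (c i) * Y i ^ 2 - ∑ i, C (c i) * (Y i % f) ^ 2 := by
        rw [← Finset.sum_sub_distrib]
        refine Finset.dvd_sum fun i _ => ?_
        have h3 : C (c i) * Y i ^ 2 - C (c i) * (Y i % f) ^ 2 =
            C (c i) * (Y i + Y i % f) * (Y i - Y i % f) := by ring
        rw [h3]
        refine Dvd.dvd.mul_left ?_ _
        exact ⟨Y i / f, by rw [EuclideanDomain.mod_eq_sub_mul_div]; ring⟩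
      exact (dvd_sub_right hYf).1 h2
    · intro h2
      apply hYn
      intro i
      have h3 : Y i = f * (Y i / f) + Y i % f := (EuclideanDomain.div_add_mod _ _).symm
      rw [h3]
      exact dvd_add (dvd_mul_right _ _) (h2 i)
  -- the leading coefficients
  have hlead : (fun i => (Y i).coeff m) ≠ 0 := by
    intro h1
    have h1' : ∀ i, (Y i).coeff m = 0 := fun i => congrFun h1 i
    rcases Nat.eq_zero_or_pos m with h2 | h2
    · apply hYn
      intro i
      have h3 : (Y i).natDegree ≤ 0 := by
        have := hYd i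
        omega
      have h4 : Y i = 0 := by
        rw [eq_C_of_natDegree_le_zero h3, ← h2, h1' i, C_0]
      rw [h4]
      exact dvd_zero f
    · apply hmin (m - 1) (by omega)
      refine ⟨Y, fun i => ?_, hYf, hYn⟩
      have h3 := hYd i
      by_contra h4
      have h5 : (Y i).natDegree = m := by omega
      have h6 := h1' i
      rw [← h5] at h6
      have h7 : Y i = 0 := leadingCoeff_eq_zero.1 h6
      rw [h7, natDegree_zero] at h4
      omega
  have hval : ∑ i, c i * (Y i).coeff m ^ 2 ≠ 0 := fun h1 => hlead (hA _ h1)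
  have hcoeff : (∑ i, C (c i) * Y i ^ 2).coeff (2 * m) = ∑ i, c i * (Y i).coeff m ^ 2 := by
    rw [finsetSum_coeff]
    refine Finset.sum_congr rfl fun i _ => ?_
    rw [coeff_C_mul, two_mul, pow_two, pow_two]
    rw [coeff_mul_add_eq_of_natDegree_le (hYd i) (hYd i)]
  have hSn : (∑ i, C (c i) * Y i ^ 2).natDegree = 2 * m := by
    refine le_antisymm ?_ (le_natDegree_of_ne_zero (by rw [hcoeff]; exact hval))
    refine natDegree_sum_le_of_forall_le _ _ fun i _ => ?_
    refine (natDegree_C_mul_le _ _).trans ?_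
    refine natDegree_pow_le.trans ?_
    have := hYd i
    omega
  have hS0 : (∑ i, C (c i) * Y i ^ 2) ≠ 0 := by
    intro h1
    rw [h1, coeff_zero] at hcoeff
    exact hval hcoeff.symm
  obtain ⟨g, hg⟩ := hYf
  have hg0 : g ≠ 0 := by
    rintro rfl
    rw [mul_zero] at hg
    exact hS0 hg
  have hdeg : 2 * m = n + g.natDegree := by
    rw [← hSn, hg, natDegree_mul hf0 hg0, hn]
  have hgodd : Odd g.natDegree := by
    obtain ⟨k, hk⟩ := hodd
    refine ⟨m - k - 1, ?_⟩
    have : g.natDegree = 2 * m - n := by omega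
    omega
  obtain ⟨g₁, h1, h2, h3⟩ := spr_odd_factor g hg0 hgodd
  have h4 : g₁.natDegree ≤ g.natDegree := natDegree_le_of_dvd h2 hg0
  have h5 := ih g₁.natDegree (by omega) g₁ h1 rfl h3 Y (by rw [hg]; exact h2.mul_left _)
  -- divide by `g₁`
  have h6 : 0 < g₁.natDegree := h3.pos
  have hfg : ¬ f ∣ g₁ := by
    intro h7
    have := natDegree_le_of_dvd h7 h1.ne_zero
    omega
  choose W hW using h5
  have hm1 : 0 < m := by omega
  apply hmin (m - 1) (by omega)
  refine ⟨W, fun i => ?_, ?_, ?_⟩
  · by_cases h7 : W i = 0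
    · rw [h7, natDegree_zero]
      exact Nat.zero_le _
    · have h8 := hYd i
      rw [hW i, natDegree_mul h1.ne_zero h7] at h8
      omega
  · have h7 : f ∣ g₁ ^ 2 * ∑ i, C (c i) * W i ^ 2 := by
      have h8 : g₁ ^ 2 * ∑ i, C (c i) * W i ^ 2 = ∑ i, C (c i) * Y i ^ 2 := by
        rw [Finset.mul_sum]
        refine Finset.sum_congr rfl fun i _ => ?_
        rw [hW i]
        ring
      rw [h8, hg]
      exact dvd_mul_right _ _
    rcases hprime.dvd_or_dvd h7 with h8 | h8
    · exact absurd (hprime.dvd_of_dvd_pow h8) hfg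
    · exact h8
  · intro h7
    apply hYn
    intro i
    rw [hW i]
    exact (h7 i).mul_left _

theorem springer {E E' : Type*} [Field E] [CharZero E] [Field E'] [Algebra E E']
    [FiniteDimensional E E'] (hodd : Odd (Module.finrank E E')) {ι : Type*} [Fintype ι]
    (c : ι → E) (x : ι → E') (hx : x ≠ 0) (h : ∑ i, algebraMap E E' (c i) * x i ^ 2 = 0) :
    ∃ y : ι → E, y ≠ 0 ∧ ∑ i, c i * y i ^ 2 = 0 := by
  by_contra hcon
  have hA : ∀ y : ι → E, ∑ i, c i * y i ^ 2 = 0 → y = 0 := by
    intro y hy
    by_contra hy0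
    exact hcon ⟨y, hy0, hy⟩
  let pb : PowerBasis E E' := Field.powerBasisOfFiniteOfSeparable E E'
  have hint : IsIntegral E pb.gen := pb.isIntegral_gen
  have hdeg : (minpoly E pb.gen).natDegree = Module.finrank E E' := by
    rw [pb.natDegree_minpoly, pb.finrank]
  have hex : ∀ i, ∃ Z : E[X], x i = aeval pb.gen Z := fun i => pb.exists_eq_aeval' (x i)
  choose Z hZ using hex
  have hdvd : minpoly E pb.gen ∣ ∑ i, C (c i) * Z i ^ 2 := by
    refine minpoly.dvd _ _ ?_
    rw [map_sum, ← h]
    refine Finset.sum_congr rfl fun i _ => ?_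
    rw [map_mul, map_pow, aeval_C, ← hZ i]
  have hall := spr_poly c hA _ (minpoly E pb.gen) (minpoly.irreducible hint) hdeg hodd Z hdvd
  apply hx
  funext i
  obtain ⟨W, hW⟩ := hall i
  rw [hZ i, hW, map_mul, minpoly.aeval, zero_mul]
  rfl

end Pool.Agent.Lib.MeadF
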