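import Mathlib
import Pool.Agent.Lib.MeadF.Springer
import Pool.Agent.Lib.MeadF.Basic

/-!
# MeadF.OddStep (size 130): descent along an odd extension of constants

`θ'` is given by `l`: the minimal polynomial `f` of `θ` over `l` (odd degree) has, over `S`, an irreducible factor of odd degree; `θ'` a root of it in `Ω` (algebraically closed); it is a root of `f`. `S ⊔ adjoin ℚ {θ'} = (adjoin S {θ'}).restrictScalars ℚ`,
`finrank S (adjoin S {θ'}) = natDegree (minpoly S θ')` odd: `springer` for the diagonal form `qf a b t` in `(Fin n → Bool) × Fin 4` variables (coefficients `pc t s * ![1, -a, -b, a b] i`) and `isoIn_iff`.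
First theorem: `IsoIn (S ⊔ adjoin ℚ {θ}) a b t → IsoIn S a b t` if `(minpoly S θ).natDegree` is odd (`θ` algebraic over `S`). Second theorem: the choice of `θ'`.
-/

set_option autoImplicit false

namespace Pool.Agent.Lib.MeadF

private theorem qf_eq_sum {F : Type*} [CommRing F] {n : ℕ} (a b : F) (t : Fin n → F)
    (x : (Fin n → Bool) → Fin 4 → F) :
    qf a b t x = ∑ p : (Fin n → Bool) × Fin 4,
      (pc t p.1 * (![1, -a, -b, a * b] : Fin 4 → F) p.2) * x p.1 p.2 ^ 2 := by
  rw [Fintype.sum_prod_type, qf]
  refine Finset.sum_congr rfl fun s _ => ?_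
  rw [Fin.sum_univ_four, nf]
  simp only [Matrix.cons_val_zero, Matrix.cons_val_one, Matrix.cons_val]
  ring

theorem odd_step {Ω : Type*} [Field Ω] [CharZero Ω] {n : ℕ} (S : IntermediateField ℚ Ω)
    {a b : Ω} (ha : a ∈ S) (hb : b ∈ S) {t : Fin n → Ω} (ht : ∀ j, t j ∈ S) (θ : Ω)
    (hθ : Odd (minpoly S θ).natDegree)
    (h : IsoIn (S ⊔ IntermediateField.adjoin ℚ {θ}) a b t) : IsoIn S a b t := by
  have hint : IsIntegral S θ := by
    by_contra hn
    rw [minpoly.eq_zero hn] at hθ
    simp at hθ
  have : FiniteDimensional S (IntermediateField.adjoin S {θ}) :=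
    IntermediateField.adjoin.finiteDimensional hint
  have hodd : Odd (Module.finrank S (IntermediateField.adjoin S {θ})) := by
    rw [IntermediateField.adjoin.finrank hint]
    exact hθ
  have hle : S ⊔ IntermediateField.adjoin ℚ {θ} ≤
      (IntermediateField.adjoin S {θ}).restrictScalars ℚ := by
    refine sup_le ?_ ?_
    · intro z hz
      exact (IntermediateField.adjoin S {θ}).algebraMap_mem ⟨z, hz⟩
    · rw [IntermediateField.adjoin_le_iff, Set.singleton_subset_iff]
      exact IntermediateField.mem_adjoin_simple_self S θ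
  obtain ⟨x, hx, hxm, h0⟩ := h
  rw [isoIn_iff ha hb ht]
  set c : (Fin n → Bool) × Fin 4 → S := fun p =>
    pc (fun j => (⟨t j, ht j⟩ : S)) p.1 *
      (![1, -(⟨a, ha⟩ : S), -(⟨b, hb⟩ : S), ⟨a, ha⟩ * ⟨b, hb⟩] : Fin 4 → S) p.2 with hc
  obtain ⟨y, hy, hy0⟩ := springer hodd c
    (fun p => (⟨x p.1 p.2, hle (hxm p.1 p.2)⟩ : IntermediateField.adjoin S {θ})) (by
      intro hcon
      apply hx
      funext s i
      exact congrArg Subtype.val (congrFun hcon (s, i))) (by
      apply Subtype.ext
      rw [qf_eq_sum] at h0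
      rw [AddSubmonoidClass.coe_finsetSum]
      refine Eq.trans ?_ h0
      refine Finset.sum_congr rfl fun p _ => ?_
      have e1 : ((algebraMap S (IntermediateField.adjoin S {θ}) (c p) :
          IntermediateField.adjoin S {θ}) : Ω) = pc t p.1 *
            (![1, -a, -b, a * b] : Fin 4 → Ω) p.2 := by
        change algebraMap S Ω (c p) = _
        rw [hc]
        simp only [map_mul, map_pc]
        congr 1
        obtain ⟨s, i⟩ := p
        fin_cases i <;> simp
      rw [← e1]
      rfl)
  refine ⟨fun s i => y (s, i), ?_, ?_⟩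
  · intro hcon
    apply hy
    funext p
    exact congrFun (congrFun hcon p.1) p.2
  · rw [qf_eq_sum]
    exact hy0

private theorem exists_odd_factor {K : Type*} [Field K] (f : Polynomial K) :
    Odd f.natDegree → ∃ g : Polynomial K, Irreducible g ∧ g ∣ f ∧ Odd g.natDegree := by
  induction f using WfDvdMonoid.induction_on_irreducible with
  | zero =>
    intro h
    simp at h
  | unit u hu =>
    intro h
    rw [Polynomial.natDegree_eq_zero_of_isUnit hu] at h
    simp at h
  | mul a i ha hi ih =>
    intro h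
    rw [Polynomial.natDegree_mul hi.ne_zero ha] at h
    by_cases hi' : Odd i.natDegree
    · exact ⟨i, hi, dvd_mul_right _ _, hi'⟩
    · obtain ⟨g, hg, hga, hgo⟩ := ih (by
        rw [Nat.not_odd_iff_even] at hi'
        exact (Nat.odd_add'.mp h).mpr hi')
      exact ⟨g, hg, hga.mul_left _, hgo⟩

theorem exists_odd_root {Ω : Type*} [Field Ω] [CharZero Ω] [IsAlgClosed Ω]
    (l S : IntermediateField ℚ Ω) (hlS : l ≤ S) (θ : Ω) (hθ : Odd (minpoly l θ).natDegree) :
    ∃ θ' : Ω, minpoly l θ' = minpoly l θ ∧ Odd (minpoly S θ').natDegree := by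
  have hint : IsIntegral l θ := by
    by_contra hn
    rw [minpoly.eq_zero hn] at hθ
    simp at hθ
  let φ : l →+* S := (IntermediateField.inclusion hlS).toRingHom
  have hφ : (algebraMap S Ω).comp φ = algebraMap l Ω := rfl
  obtain ⟨g, hg, hgd, hgo⟩ := exists_odd_factor ((minpoly l θ).map φ) (by
    rw [Polynomial.natDegree_map]
    exact hθ)
  obtain ⟨θ', hθ'⟩ := IsAlgClosed.exists_aeval_eq_zero Ω g (by
    intro h
    rw [Polynomial.natDegree_eq_of_degree_eq_some (n := 0) (by simpa using h)] at hgo
    simp at hgo)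
  refine ⟨θ', ?_, ?_⟩
  · have h1 : Polynomial.aeval θ' (minpoly l θ) = 0 := by
      obtain ⟨q, hq⟩ := hgd
      have h2 : Polynomial.aeval θ' ((minpoly l θ).map φ) = 0 := by
        rw [hq, map_mul, hθ', zero_mul]
      rw [Polynomial.aeval_def, Polynomial.eval₂_map, hφ] at h2
      exact h2
    exact (minpoly.eq_of_irreducible_of_monic (minpoly.irreducible hint) h1
      (minpoly.monic hint)).symm
  · have h1 : minpoly S θ' ∣ g := minpoly.dvd S θ' hθ'
    have hint' : IsIntegral S θ' := by
      rw [← isAlgebraic_iff_isIntegral]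
      exact ⟨g, hg.ne_zero, hθ'⟩
    have h2 : Associated (minpoly S θ') g := (minpoly.irreducible hint').associated_of_dvd hg h1
    rw [Polynomial.natDegree_eq_of_degree_eq (Polynomial.degree_eq_degree_of_associated h2)]
    exact hgo

end Pool.Agent.Lib.MeadF
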