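import Mathlib
import Pool.Agent.Lib.QCFT.Ext
import Pool.Agent.Lib.MeadF.Defs
import Pool.Agent.Lib.Mead.T3

/-!
# MeadF.NiceA: elementary facts about `Nice`

Translated from `Pool.Agent.Lib.Mead.T3` (helper21), where the dyadic primes are those with
`w.valuation k 2 < 1`.
-/

set_option autoImplicit false

namespace Pool.Agent.Lib.MeadF

open IsDedekindDomain NumberField

private theorem NiceA_lt_of_ne {k : Type*} [Field k] [NumberField k]
    (v : HeightOneSpectrum (𝓞 k)) (h : v.valuation k (2 : k) ≠ 1) : v.valuation k (2 : k) < 1 :=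
  lt_of_le_of_ne (QCFT.val_two_le v) h

private theorem NiceA_iff {k : Type*} [Field k] [NumberField k] {a : k} :
    Nice a ↔ Mead.Gen.Nice a := by
  constructor
  · rintro ⟨α, hα, h⟩
    exact ⟨α, hα, fun w hw => h w hw.ne⟩
  · rintro ⟨α, hα, h⟩
    exact ⟨α, hα, fun w hw => h w (NiceA_lt_of_ne w hw)⟩

theorem exists_dyadic (k : Type*) [Field k] [NumberField k] :
    ∃ v : HeightOneSpectrum (𝓞 k), v.valuation k (2 : k) ≠ 1 := by
  obtain ⟨w, hw⟩ := Mead.Gen.exists_dyadic (k := k)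
  exact ⟨w, hw.ne⟩

theorem nice_map {k F : Type*} [Field k] [NumberField k] [Field F] [NumberField F] [Algebra k F]
    {a : k} (h : Nice a) : Nice (algebraMap k F a) :=
  NiceA_iff.mpr (NiceA_iff.mp h).map

theorem nice_natCast {k : Type*} [Field k] [NumberField k] {p : ℕ} (hp8 : p % 8 = 1) :
    Nice (p : k) :=
  NiceA_iff.mpr (Mead.Gen.nice_natCast hp8)

theorem nice_newton {k : Type*} [Field k] [NumberField k] {a : k} (ha : a ≠ 0) (h : Nice a)
    (m : ℕ) : ∃ α : k, α ≠ 0 ∧ ∀ v : HeightOneSpectrum (𝓞 k), v.valuation k (2 : k) ≠ 1 →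
      v.valuation k (a / α ^ 2 - 1) ≤ v.valuation k (2 : k) ^ m := by
  obtain ⟨α, hα, h1⟩ := (NiceA_iff.mp h).newton m
  refine ⟨α, hα, fun v hv => (h1 v (NiceA_lt_of_ne v hv)).trans ?_⟩
  exact pow_le_pow_right_of_le_one' (NiceA_lt_of_ne v hv).le (by omega)

end Pool.Agent.Lib.MeadF
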