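import Mathlib
import Pool.Agent.Lib.QCFT.Hasse
import Pool.Agent.Lib.MeadF.NiceA

/-!
# MeadF.Orth (size 220): a nice orthogonal vector

There are finitely many dyadic primes (`v.valuation 2 ≠ 1`, `HeightOneSpectrum.Support.finite` or the library `QCFT.finite_o_ne`), so for finitely many nonzero elements `z` of `k` there is `m₀` with `v z ≤ v (2) ^ (- m₀)` (as an
inequality `v (z) * v (2) ^ m₀ ≤ 1`) for all dyadic `v`. Take `α` from `nice_newton` with `m` large, `ε = a / α² - 1`, `v ε ≤ v (2) ^ m`.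
* Case `x 1 = 0` and `x 2 = 0`: `r = ![0, (b + 1) / (2 b), (b - 1) / (2 b α)]`; orthogonality is trivial; `pq a b r = b (r 1)² - a b (r 2)² = 1 - ε (b - 1)² / (4 b)`; nice with `α = 1` as soon as `v (ε (b-1)² / (4 b)) ≤ v 8`.
* Case `(x 1, x 2) ≠ (0, 0)`: `D = x 1 ^ 2 - a x 2 ^ 2 ≠ 0` (`a` is not a square). `ρ = - a x 0 / (b (α x 1 - a x 2))`, `r = ![1, α ρ, ρ]`. Here `(α x 1 - a x 2)(α x 1 + a x 2) = α² x 1² - a² x 2² = a (D - a x 2 ² ε)/(1 + ε)`
  (use `α² = a / (1 + ε)`), which is nonzero with `v (D - a x 2² ε) = v D` for `m` large. Orthogonality: `a x 0 + b x 1 α ρ - a b x 2 ρ = a x 0 + b ρ (α x 1 - a x 2) = 0`. `pq a b r = a + b ρ² (α² - a) = α² (1 + ε - b ρ² ε)`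
  (`a - α² = α² ε`), so `pq a b r / α² - 1 = ε (1 - b ρ²)`, and `b ρ² = x 0² (α x 1 + a x 2)² (1 + ε)² / (b (D - a x 2² ε)²)`: `v (b ρ²)` is bounded by a constant independent of `m`
  (`v (α)² = v (a)`, so `v (α x 1 + a x 2)² ≤ max (v a v (x 1)², v (a)² v (x 2)²)`). For `m` large: `≤ v 8`.
* nonzero: `pq a b r / β² ≡ 1` at a dyadic prime (`exists_dyadic`) excludes `0`.
-/

set_option autoImplicit false

namespace Pool.Agent.Lib.MeadF

open IsDedekindDomain NumberField WithZero Pool.Agent.Lib.QCFT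

section

variable {k : Type*} [Field k] [NumberField k]

private lemma val_eight_lt (v : HeightOneSpectrum (𝓞 k)) (hv : v.valuation k (2 : k) ≠ 1) :
    v.valuation k (8 : k) < 1 := by
  have h2 : v.valuation k (2 : k) < 1 := lt_of_le_of_ne (val_two_le v) hv
  have e : (8 : k) = 2 ^ 3 := by norm_num
  rw [e, map_pow]
  exact pow_lt_one₀ zero_le h2 (by norm_num)

private lemma bound (z : k) : ∃ m₀ : ℕ, ∀ m, m₀ ≤ m → ∀ v : HeightOneSpectrum (𝓞 k),
    v.valuation k (2 : k) ≠ 1 → ∀ ε : k, v.valuation k ε ≤ v.valuation k (2 : k) ^ m →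
      v.valuation k (ε * z) ≤ v.valuation k (8 : k) := by
  classical
  by_cases hz : z = 0
  · refine ⟨0, fun m _ v _ ε _ => ?_⟩
    rw [hz, mul_zero, map_zero]
    exact zero_le
  obtain ⟨two, h2⟩ : ∃ two : kˣ, (two : k) = 2 := ⟨Units.mk0 2 two_ne_zero, rfl⟩
  obtain ⟨zk, hzk⟩ : ∃ zk : kˣ, (zk : k) = z := ⟨Units.mk0 z hz, rfl⟩
  have hfin := finite_o_ne (R := 𝓞 k) two
  refine ⟨3 + hfin.toFinset.sup (fun v => (-(o v zk)).toNat), fun m hm v hv ε hε => ?_⟩
  have h0 : o v two ≠ 0 := by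
    intro h
    apply hv
    rw [← h2]
    exact (o_eq_zero_iff v).mp h
  have h1 : 0 ≤ o v two := by
    rw [o_nonneg_iff, h2]
    exact val_two_le v
  have h3 : (-(o v zk)).toNat ≤ hfin.toFinset.sup (fun v => (-(o v zk)).toNat) :=
    Finset.le_sup (f := fun v => (-(o v zk)).toNat) (by
      rw [Set.Finite.mem_toFinset]
      exact h0)
  have h4 : -(o v zk) ≤ ((-(o v zk)).toNat : ℤ) := Int.self_le_toNat _
  have e8 : (8 : k) = 2 ^ 3 := by norm_num
  rw [map_mul, e8, map_pow]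
  refine le_trans (mul_le_mul_left hε _) ?_
  rw [← hzk, ← h2, val_eq, val_eq, ← exp_nsmul, ← exp_nsmul, ← exp_add, exp_le_exp]
  simp only [nsmul_eq_mul]
  have h5 : 1 ≤ o v two := by omega
  have h6 : (3 : ℤ) + ((-(o v zk)).toNat : ℤ) ≤ (m : ℤ) := by
    have : 3 + (-(o v zk)).toNat ≤ m := by omega
    exact_mod_cast this
  have h7 : -(o v zk) ≤ (m : ℤ) - 3 := by linarith
  have h8 : (0 : ℤ) ≤ (m : ℤ) - 3 := by
    have : (0 : ℤ) ≤ ((-(o v zk)).toNat : ℤ) := Int.natCast_nonneg _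
    linarith
  push_cast
  nlinarith [mul_nonneg h8 (by linarith : (0 : ℤ) ≤ o v two - 1)]

private lemma nice_ne_zero {c : k} (h : Nice c) : c ≠ 0 := by
  rintro rfl
  obtain ⟨α, _, h⟩ := h
  obtain ⟨v, hv⟩ := exists_dyadic k
  have h1 := h v hv
  rw [zero_div, zero_sub, Valuation.map_neg, map_one] at h1
  exact absurd (lt_of_le_of_lt h1 (val_eight_lt v hv)) (lt_irrefl _)

end

theorem exists_orth {k : Type*} [Field k] [NumberField k] {a b : k} (ha0 : a ≠ 0) (ha : Nice a)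
    (hsq : ¬ IsSquare a) (hb : b ≠ 0) (x : Fin 3 → k) (hx : pq a b x ≠ 0) :
    ∃ r : Fin 3 → k, a * (x 0 * r 0) + b * (x 1 * r 1) - a * b * (x 2 * r 2) = 0 ∧
      pq a b r ≠ 0 ∧ Nice (pq a b r) := by
  suffices h : ∃ r : Fin 3 → k, a * (x 0 * r 0) + b * (x 1 * r 1) - a * b * (x 2 * r 2) = 0 ∧
      Nice (pq a b r) by
    obtain ⟨r, h1, h2⟩ := h
    exact ⟨r, h1, nice_ne_zero h2, h2⟩
  by_cases hc : x 1 = 0 ∧ x 2 = 0
  · obtain ⟨hc1, hc2⟩ := hc
    obtain ⟨m, hm⟩ := bound ((b - 1) ^ 2 / (4 * b))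
    obtain ⟨α, hα, h⟩ := nice_newton ha0 ha m
    refine ⟨![0, (b + 1) / (2 * b), (b - 1) / (2 * b * α)], ?_, 1, one_ne_zero, fun v hv => ?_⟩
    · rw [hc1, hc2]
      simp
    · have h1 := hm m le_rfl v hv _ (h v hv)
      have e : pq a b ![0, (b + 1) / (2 * b), (b - 1) / (2 * b * α)] / 1 ^ 2 - 1 =
          - ((a / α ^ 2 - 1) * ((b - 1) ^ 2 / (4 * b))) := by
        simp only [pq, Matrix.cons_val_zero, Matrix.cons_val_one, Matrix.cons_val]
        field_simp
        ring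
      rw [e, Valuation.map_neg]
      exact h1
  · have hD : x 1 ^ 2 - a * x 2 ^ 2 ≠ 0 := by
      intro h0
      by_cases h2 : x 2 = 0
      · apply hc
        rw [h2] at h0
        refine ⟨?_, h2⟩
        have h3 : x 1 ^ 2 = 0 := by linear_combination h0
        exact pow_eq_zero_iff (two_ne_zero) |>.mp h3
      · apply hsq
        refine ⟨x 1 / x 2, ?_⟩
        field_simp
        linear_combination - h0
    obtain ⟨D, hDd⟩ : ∃ D, D = x 1 ^ 2 - a * x 2 ^ 2 := ⟨_, rfl⟩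
    rw [← hDd] at hD
    obtain ⟨c0, hc0⟩ : ∃ c0, c0 = x 0 ^ 2 / (b * D ^ 2) := ⟨_, rfl⟩
    obtain ⟨m1, hm1⟩ := bound (c0 * (a * x 1 ^ 2))
    obtain ⟨m2, hm2⟩ := bound (c0 * (a ^ 2 * x 2 ^ 2))
    obtain ⟨m3, hm3⟩ := bound (a * x 2 ^ 2 / D)
    obtain ⟨m4, hm4⟩ := bound (1 : k)
    obtain ⟨α, hα, h⟩ := nice_newton ha0 ha (m1 + m2 + m3 + m4)
    obtain ⟨ε, hε⟩ : ∃ ε, ε = a / α ^ 2 - 1 := ⟨_, rfl⟩
    rw [← hε] at h
    have hεa : α ^ 2 * (1 + ε) = a := by
      rw [hε]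
      field_simp
      ring
    have hu0 : 1 + ε ≠ 0 := by
      intro h0
      rw [h0, mul_zero] at hεa
      exact ha0 hεa.symm
    obtain ⟨t, ht⟩ : ∃ t, t = 1 - ε * (a * x 2 ^ 2 / D) := ⟨_, rfl⟩
    have hvt : ∀ v : HeightOneSpectrum (𝓞 k), v.valuation k (2 : k) ≠ 1 →
        v.valuation k t = 1 := by
      intro v hv
      have h1 := hm3 _ (by omega) v hv ε (h v hv)
      apply val_eq_one_of_sub
      rw [ht]
      have e : 1 - ε * (a * x 2 ^ 2 / D) - 1 = - (ε * (a * x 2 ^ 2 / D)) := by ring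
      rw [e, Valuation.map_neg]
      exact lt_of_le_of_lt h1 (val_eight_lt v hv)
    have hvu : ∀ v : HeightOneSpectrum (𝓞 k), v.valuation k (2 : k) ≠ 1 →
        v.valuation k ε ≤ v.valuation k (8 : k) := by
      intro v hv
      have h1 := hm4 _ (by omega) v hv ε (h v hv)
      rwa [mul_one] at h1
    have hvu1 : ∀ v : HeightOneSpectrum (𝓞 k), v.valuation k (2 : k) ≠ 1 →
        v.valuation k (1 + ε) = 1 := by
      intro v hv
      apply val_eq_one_of_sub
      rw [add_sub_cancel_left]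
      exact lt_of_le_of_lt (hvu v hv) (val_eight_lt v hv)
    have ht0 : t ≠ 0 := by
      obtain ⟨v, hv⟩ := exists_dyadic k
      intro h0
      have h1 := hvt v hv
      rw [h0, map_zero] at h1
      exact zero_ne_one h1
    obtain ⟨β, hβ⟩ : ∃ β, β = α * x 1 - a * x 2 := ⟨_, rfl⟩
    obtain ⟨γ, hγ⟩ : ∃ γ, γ = α * x 1 + a * x 2 := ⟨_, rfl⟩
    have hR : (1 + ε) * (β * γ) = a * (D * t) := by
      have h1 : D * t = D - ε * (a * x 2 ^ 2) := by
        rw [ht]
        field_simp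
      rw [h1, hβ, hγ, hDd]
      linear_combination (x 1 ^ 2) * hεa
    have hβ0 : β ≠ 0 := by
      intro h0
      rw [h0, zero_mul, mul_zero] at hR
      exact mul_ne_zero ha0 (mul_ne_zero hD ht0) hR.symm
    obtain ⟨ρ, hρ⟩ : ∃ ρ, ρ = -(a * x 0) / (b * β) := ⟨_, rfl⟩
    have hρβ : b * ρ * β = -(a * x 0) := by
      rw [hρ]
      field_simp
    have hρ' : ρ = -(x 0 * ((1 + ε) * γ)) / (b * (D * t)) := by
      rw [hρ, div_eq_div_iff (mul_ne_zero hb hβ0) (mul_ne_zero hb (mul_ne_zero hD ht0))]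
      linear_combination (x 0 * b) * hR
    have hbρ : b * ρ ^ 2 = c0 * γ ^ 2 * ((1 + ε) / t) ^ 2 := by
      rw [hρ', hc0]
      field_simp
    refine ⟨![1, α * ρ, ρ], ?_, α, hα, fun v hv => ?_⟩
    · simp only [Matrix.cons_val_zero, Matrix.cons_val_one, Matrix.cons_val]
      rw [hβ] at hρβ
      linear_combination hρβ
    · have e : pq a b ![1, α * ρ, ρ] / α ^ 2 - 1 = ε - ε * (b * ρ ^ 2) := by
        rw [hε]
        simp only [pq, Matrix.cons_val_zero, Matrix.cons_val_one, Matrix.cons_val]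
        field_simp
        ring
      rw [e]
      refine Valuation.map_sub_le _ (hvu v hv) ?_
      have hva : v.valuation k (α ^ 2) = v.valuation k a := by
        conv_rhs => rw [← hεa, map_mul, hvu1 v hv, mul_one]
      have hvb : v.valuation k (b * ρ ^ 2) = v.valuation k c0 * v.valuation k γ ^ 2 := by
        rw [hbρ, map_mul, map_mul, map_pow, map_pow, map_div₀, hvu1 v hv, hvt v hv, div_one,
          one_pow, mul_one]
      have hγm := (v.valuation k).map_add (α * x 1) (a * x 2)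
      rw [← hγ] at hγm
      rcases le_max_iff.mp hγm with h1 | h1
      · have h2 : v.valuation k (b * ρ ^ 2) ≤ v.valuation k (c0 * (a * x 1 ^ 2)) := by
          rw [hvb, map_mul, map_mul, ← hva, ← map_mul, ← mul_pow, map_pow]
          exact mul_le_mul_right (pow_le_pow_left₀ zero_le h1 2) _
        have h3 := hm1 _ (by omega) v hv ε (h v hv)
        rw [map_mul] at h3 ⊢
        exact le_trans (mul_le_mul_right h2 _) h3
      · have h2 : v.valuation k (b * ρ ^ 2) ≤ v.valuation k (c0 * (a ^ 2 * x 2 ^ 2)) := by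
          rw [hvb, map_mul, ← mul_pow, map_pow]
          exact mul_le_mul_right (pow_le_pow_left₀ zero_le h1 2) _
        have h3 := hm2 _ (by omega) v hv ε (h v hv)
        rw [map_mul] at h3 ⊢
        exact le_trans (mul_le_mul_right h2 _) h3

end Pool.Agent.Lib.MeadF
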