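import Mathlib
import Pool.Agent.Lib.MeadF.Basic

/-!
# MeadF.Mul (size 180): Pfister forms are multiplicative

Abstract lemma (private): `V` an `F`-module, `B : V →ₗ[F] V →ₗ[F] F` symmetric, and for every `x` there are linear `M, M' : V →ₗ[F] V` with
`B (M y) z = B y (M' z)`, `M (M' y) = B x x • y`, `M' (M y) = B x x • y` (call this `Sim B`). Then `V × V` with `B2 ((x, y), (z, w)) = B x z - a * B y w` has the same property.
Proof for `(x, y)`, `A = B x x`, `b = B y y`, `M, M'` for `x`, `N, N'` for `y`. If `b = 0`: `T = (M, M)`, `T' = (M', M')` (value `A - a b = A`). If `b ≠ 0`: `P = b⁻¹ N M' N`, `P' = b⁻¹ N' M N'`,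
`T (z, w) = (M z + a N w, N z + P w)`, `T' (z, w) = (M' z - a N' w, P' w - N' z)`. Check: `B2 (T (z,w)) (z',w') = B (M z + a N w) z' - a B (N z + P w) w' = B z (M' z' - a N' w') - a B w (P' w' - N' z')`;
`T' T = A - a b`: first entry `M' M z + a M' N w - a N' N z - a N' P w` and `N' P = b⁻¹ N' N M' N = M' N`; second `P' N z + P' P w - N' M z - a N' N w`, `P' N = N' M`, `P' P = b⁻² N' M N' N M' N = b⁻¹ N' M M' N = A`.
`T T' = A - a b` in the same way (`N P' = M N'`, `P N' = N M'`, `P P' = A`).
Base: `V = F`, `B x y = x * y`, `M = M' =` multiplication by `x`.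
Induction on `n` for the bilinear form `B x y = ∑ s, pc t s * (x s * y s)` on `(Fin n → Bool) → F`: `n = 0` is the base (`Fin 0 → Bool` is a unique type); `n + 1`: `t = Fin.cons (t 0) (Fin.tail t)` and
`x ↦ (fun s => x (Fin.cons false s), fun s => x (Fin.cons true s))` is a linear equivalence onto the product (`pf_cons`, `sum_cons`, `pc_cons_false`, `pc_cons_true`); `Sim` is transported along a linear equivalence which respects `B`.
Conclusion: `z = M y`: `B (M y) (M y) = B y (M' (M y)) = B x x * B y y`.
-/

set_option autoImplicit false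

namespace Pool.Agent.Lib.MeadF

/-- similitude property of a bilinear form given by a function -/
private def Sim {F V : Type*} [Field F] [AddCommGroup V] [Module F V]
    (B : V →ₗ[F] V →ₗ[F] F) : Prop :=
  ∀ x, ∃ M M' : V →ₗ[F] V, (∀ y z, B (M y) z = B y (M' z)) ∧ (∀ y z, B (M' y) z = B y (M z)) ∧
    (∀ y, M (M' y) = B x x • y) ∧ (∀ y, M' (M y) = B x x • y)

/-- the form on the product -/
private def B2 {F V : Type*} [Field F] [AddCommGroup V] [Module F V]
    (B : V →ₗ[F] V →ₗ[F] F) (a : F) : (V × V) →ₗ[F] (V × V) →ₗ[F] F :=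
  LinearMap.mk₂ F (fun u v => B u.1 v.1 - a * B u.2 v.2)
    (by intro u u' v; simp only [Prod.fst_add, Prod.snd_add, map_add, LinearMap.add_apply]; ring)
    (by intro c u v; simp only [Prod.smul_fst, Prod.smul_snd, map_smul, LinearMap.smul_apply,
          smul_eq_mul]; ring)
    (by intro u v v'; simp only [Prod.fst_add, Prod.snd_add, map_add]; ring)
    (by intro c u v; simp only [Prod.smul_fst, Prod.smul_snd, map_smul, smul_eq_mul]; ring)

private theorem B2_apply {F V : Type*} [Field F] [AddCommGroup V] [Module F V]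
    (B : V →ₗ[F] V →ₗ[F] F) (a : F) (u v : V × V) :
    B2 B a u v = B u.1 v.1 - a * B u.2 v.2 := rfl

/-- two by two block maps -/
private def blk {F V : Type*} [Field F] [AddCommGroup V] [Module F V]
    (A B C D : V →ₗ[F] V) : (V × V) →ₗ[F] (V × V) :=
  (A.comp (LinearMap.fst F V V) + B.comp (LinearMap.snd F V V)).prod
    (C.comp (LinearMap.fst F V V) + D.comp (LinearMap.snd F V V))

private theorem blk_apply {F V : Type*} [Field F] [AddCommGroup V] [Module F V]
    (A B C D : V →ₗ[F] V) (u : V × V) :
    blk A B C D u = (A u.1 + B u.2, C u.1 + D u.2) := rfl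

private theorem sim_prod {F V : Type*} [Field F] [AddCommGroup V] [Module F V]
    (B : V →ₗ[F] V →ₗ[F] F) (a : F) (h : Sim B) : Sim (B2 B a) := by
  intro x
  obtain ⟨M, M', hM, hM', h1, h2⟩ := h x.1
  obtain ⟨N, N', hN, hN', g1, g2⟩ := h x.2
  rw [B2_apply]
  by_cases hb : B x.2 x.2 = 0
  · refine ⟨blk M 0 0 M, blk M' 0 0 M', ?_, ?_, ?_, ?_⟩
    · intro y z
      simp only [B2_apply, blk_apply, LinearMap.zero_apply, add_zero, zero_add, hM]
    · intro y z
      simp only [B2_apply, blk_apply, LinearMap.zero_apply, add_zero, zero_add, hM']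
    · intro y
      simp only [blk_apply, LinearMap.zero_apply, add_zero, zero_add, h1, hb, mul_zero, sub_zero]
      rfl
    · intro y
      simp only [blk_apply, LinearMap.zero_apply, add_zero, zero_add, h2, hb, mul_zero, sub_zero]
      rfl
  · set b := B x.2 x.2 with hbdef
    set A := B x.1 x.1 with hA
    refine ⟨blk M (a • N) N (b⁻¹ • (N.comp (M'.comp N))),
      blk M' (-(a • N')) (-N') (b⁻¹ • (N'.comp (M.comp N'))), ?_, ?_, ?_, ?_⟩
    · intro y z
      simp only [B2_apply, blk_apply, LinearMap.smul_apply, LinearMap.neg_apply,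
        LinearMap.comp_apply, map_add, map_smul, map_neg, LinearMap.add_apply, hM, hN, hM',
        smul_eq_mul]
      ring
    · intro y z
      simp only [B2_apply, blk_apply, LinearMap.smul_apply, LinearMap.neg_apply,
        LinearMap.comp_apply, map_add, map_smul, map_neg, LinearMap.add_apply, hM, hN', hM',
        smul_eq_mul]
      ring
    · intro y
      refine Prod.ext ?_ ?_
      · simp only [blk_apply, LinearMap.smul_apply, LinearMap.neg_apply,
          LinearMap.comp_apply, map_add, map_smul, map_neg, h1, g1, Prod.smul_fst, Prod.smul_snd]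
        match_scalars <;> field_simp <;> ring
      · simp only [blk_apply, LinearMap.smul_apply, LinearMap.neg_apply,
          LinearMap.comp_apply, map_add, map_smul, map_neg, h2, g1, Prod.smul_fst, Prod.smul_snd]
        match_scalars <;> field_simp <;> ring
    · intro y
      refine Prod.ext ?_ ?_
      · simp only [blk_apply, LinearMap.smul_apply, LinearMap.neg_apply,
          LinearMap.comp_apply, map_add, map_smul, map_neg, h2, g2, Prod.smul_fst, Prod.smul_snd]
        match_scalars <;> field_simp <;> ring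
      · simp only [blk_apply, LinearMap.smul_apply, LinearMap.neg_apply,
          LinearMap.comp_apply, map_add, map_smul, map_neg, h1, g2, Prod.smul_fst, Prod.smul_snd]
        match_scalars <;> field_simp <;> ring

/-- transport along a linear equivalence -/
private theorem sim_equiv {F V W : Type*} [Field F] [AddCommGroup V] [Module F V]
    [AddCommGroup W] [Module F W] (B : V →ₗ[F] V →ₗ[F] F) (C : W →ₗ[F] W →ₗ[F] F) (e : W ≃ₗ[F] V)
    (he : ∀ x y, C x y = B (e x) (e y)) (h : Sim B) : Sim C := by
  intro x
  obtain ⟨M, M', hM, hM', h1, h2⟩ := h (e x)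
  refine ⟨(e.symm : V →ₗ[F] W).comp (M.comp (e : W →ₗ[F] V)),
    (e.symm : V →ₗ[F] W).comp (M'.comp (e : W →ₗ[F] V)), ?_, ?_, ?_, ?_⟩
  · intro y z
    simp [he, hM]
  · intro y z
    simp [he, hM']
  · intro y
    simp [he, h1]
  · intro y
    simp [he, h2]

/-- the bilinear form of `pf` -/
private def bf {F : Type*} [Field F] {n : ℕ} (t : Fin n → F) :
    ((Fin n → Bool) → F) →ₗ[F] ((Fin n → Bool) → F) →ₗ[F] F :=
  LinearMap.mk₂ F (fun u v => ∑ s, pc t s * (u s * v s))
    (by
      intro u u' v
      rw [← Finset.sum_add_distrib]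
      exact Finset.sum_congr rfl fun s _ => by rw [Pi.add_apply]; ring)
    (by
      intro c u v
      rw [Finset.smul_sum]
      exact Finset.sum_congr rfl fun s _ => by rw [Pi.smul_apply, smul_eq_mul, smul_eq_mul]; ring)
    (by
      intro u u' v
      rw [← Finset.sum_add_distrib]
      exact Finset.sum_congr rfl fun s _ => by rw [Pi.add_apply]; ring)
    (by
      intro c u v
      rw [Finset.smul_sum]
      exact Finset.sum_congr rfl fun s _ => by rw [Pi.smul_apply, smul_eq_mul, smul_eq_mul]; ring)

private theorem bf_apply {F : Type*} [Field F] {n : ℕ} (t : Fin n → F) (u v : (Fin n → Bool) → F) :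
    bf t u v = ∑ s, pc t s * (u s * v s) := rfl

private theorem bf_self {F : Type*} [Field F] {n : ℕ} (t : Fin n → F) (u : (Fin n → Bool) → F) :
    bf t u u = pf t u := by
  rw [bf_apply, pf]
  exact Finset.sum_congr rfl fun s _ => by ring

/-- splitting off the first index -/
private def spl (F : Type*) [Field F] (n : ℕ) :
    ((Fin (n + 1) → Bool) → F) ≃ₗ[F] ((Fin n → Bool) → F) × ((Fin n → Bool) → F) where
  toFun x := (fun s => x (Fin.cons false s), fun s => x (Fin.cons true s))
  invFun p := fun s => if s 0 = true then p.2 (Fin.tail s) else p.1 (Fin.tail s)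
  map_add' x y := rfl
  map_smul' c x := rfl
  left_inv x := by
    funext s
    obtain ⟨b, r, rfl⟩ : ∃ b r, s = Fin.cons b r := ⟨s 0, Fin.tail s, (Fin.cons_self_tail s).symm⟩
    cases b <;> simp
  right_inv p := by
    refine Prod.ext ?_ ?_
    · funext s
      simp
    · funext s
      simp

private theorem sim_bf {F : Type*} [Field F] : ∀ (n : ℕ) (t : Fin n → F), Sim (bf t)
  | 0, t => by
    intro x
    refine ⟨LinearMap.lsmul F _ (x fun _ => false), LinearMap.lsmul F _ (x fun _ => false), ?_, ?_, ?_, ?_⟩
    · intro y z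
      simp only [bf_apply, LinearMap.lsmul_apply, Pi.smul_apply, smul_eq_mul]
      exact Finset.sum_congr rfl fun s _ => by ring
    · intro y z
      simp only [bf_apply, LinearMap.lsmul_apply, Pi.smul_apply, smul_eq_mul]
      exact Finset.sum_congr rfl fun s _ => by ring
    · intro y
      rw [LinearMap.lsmul_apply, LinearMap.lsmul_apply, smul_smul, bf_apply, Fintype.sum_subsingleton _ (fun _ : Fin 0 => false)]
      rw [pc, Finset.univ_eq_empty, Finset.prod_empty, one_mul]
    · intro y
      rw [LinearMap.lsmul_apply, LinearMap.lsmul_apply, smul_smul, bf_apply, Fintype.sum_subsingleton _ (fun _ : Fin 0 => false)]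
      rw [pc, Finset.univ_eq_empty, Finset.prod_empty, one_mul]
  | n + 1, t => by
    obtain ⟨c, r, rfl⟩ : ∃ (c : F) (r : Fin n → F), t = (Fin.cons c r : Fin (n + 1) → F) :=
      ⟨t 0, Fin.tail t, (Fin.cons_self_tail t).symm⟩
    refine sim_equiv (B2 (bf r) c) _ (spl F n) ?_ (sim_prod _ _ (sim_bf n r))
    intro x y
    rw [bf_apply, B2_apply, sum_cons, bf_apply, bf_apply, Finset.mul_sum, sub_eq_add_neg,
      ← Finset.sum_neg_distrib]
    congr 1
    · exact Finset.sum_congr rfl fun s _ => by rw [pc_cons_false]; rfl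
    · refine Finset.sum_congr rfl fun s _ => ?_
      rw [pc_cons_true]
      change _ = -(c * (pc r s * (x (Fin.cons true s) * y (Fin.cons true s))))
      ring

theorem pf_mul {F : Type*} [Field F] {n : ℕ} (t : Fin n → F) (x y : (Fin n → Bool) → F) :
    ∃ z : (Fin n → Bool) → F, pf t z = pf t x * pf t y := by
  obtain ⟨M, M', hM, _, _, h2⟩ := sim_bf n t x
  refine ⟨M y, ?_⟩
  rw [← bf_self, hM, h2, map_smul, smul_eq_mul, bf_self, bf_self]

end Pool.Agent.Lib.MeadF
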