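import Mathlib
import Pool.Agent.Lib.MeadF.Mul

/-!
# MeadF.Step (size 130): the norm trick (descent along a quadratic extension)

`x` the given zero of `qf β c t` over `E'`. `χ = pf (Fin.cons c t)` (coefficients in `E`). Since `nf β c y = (y 0 ^ 2 - c y 2 ^ 2) - β (y 1 ^ 2 - c y 3 ^ 2)`, with `z₁ (cons false s) = x s 0`, `z₁ (cons true s) = x s 2`,
`z₂ (cons false s) = x s 1`, `z₂ (cons true s) = x s 3` (functions on `Fin (n+1) → Bool`): `χ z₁ = β χ z₂`, `(z₁, z₂) ≠ 0`.
There is `z₀` over `E'` with `χ z₀ = β`: if `χ z₂ ≠ 0`, then `β = (χ z₁ * χ z₂) / (χ z₂)²` and `pf_mul`; if `χ z₂ = 0` then `χ z₁ = 0` and one of `z₁, z₂` is a nontrivial zero of `χ`: with `χ z = 0`, `z s₀ ≠ 0`,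
`z₀ = α z + e_{s₀}`, `χ z₀ = 2 α c_{s₀} z s₀ + c_{s₀}`, choose `α` (`pc_ne_zero`, `2 ≠ 0`).
Write `z₀ s = u s + v s β` (`hspan`): `β = χ z₀ = [χ u - N χ v] + β [2 B(u, v) + T χ v]` (`β² = T β - N`), so by `hind` `χ u = N χ v` over `E`; `(u, v) ≠ 0` because `χ z₀ = β ≠ 0` (`β = 0` contradicts `hind`, `0 + 1 • β = 0`).
Back: the vector `x' s = ![u (cons false s), v (cons false s), u (cons true s), v (cons true s)]` is a nontrivial zero of `qf N c t`.
-/

set_option autoImplicit false

namespace Pool.Agent.Lib.MeadF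

private theorem st_qf {F : Type*} [CommRing F] {n : ℕ} (b c : F) (t : Fin n → F)
    (f g : (Fin (n + 1) → Bool) → F) :
    qf b c t (fun s => ![f (Fin.cons false s), g (Fin.cons false s), f (Fin.cons true s),
      g (Fin.cons true s)]) =
      pf (Fin.cons c t : Fin (n + 1) → F) f - b * pf (Fin.cons c t : Fin (n + 1) → F) g := by
  rw [pf_cons, pf_cons]
  simp only [qf, pf, nf, Finset.mul_sum, ← Finset.sum_sub_distrib]
  refine Finset.sum_congr rfl fun s _ => ?_
  simp only [Matrix.cons_val_zero, Matrix.cons_val_one, Matrix.cons_val]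
  ring

private theorem st_join {F : Type*} {n : ℕ} (x : (Fin n → Bool) → Fin 4 → F) :
    ∃ f g : (Fin (n + 1) → Bool) → F, x = fun s => ![f (Fin.cons false s), g (Fin.cons false s),
      f (Fin.cons true s), g (Fin.cons true s)] := by
  refine ⟨fun s => if s 0 = true then x (Fin.tail s) 2 else x (Fin.tail s) 0,
    fun s => if s 0 = true then x (Fin.tail s) 3 else x (Fin.tail s) 1, ?_⟩
  funext s i
  fin_cases i <;> simp

private theorem st_ne {F : Type*} [Zero F] {n : ℕ} (f g : (Fin (n + 1) → Bool) → F)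
    (h : f ≠ 0 ∨ g ≠ 0) : (fun s => ![f (Fin.cons false s), g (Fin.cons false s),
      f (Fin.cons true s), g (Fin.cons true s)] : (Fin n → Bool) → Fin 4 → F) ≠ 0 := by
  intro h0
  have hb : ∀ s : Fin (n + 1) → Bool, s = Fin.cons (s 0) (Fin.tail s) := fun s =>
    (Fin.cons_self_tail s).symm
  have h1 : ∀ s, f s = 0 ∧ g s = 0 := by
    intro s
    have h2 := congrFun h0 (Fin.tail s)
    rw [hb s]
    cases s 0
    · exact ⟨congrFun h2 0, congrFun h2 1⟩
    · exact ⟨congrFun h2 2, congrFun h2 3⟩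
  rcases h with h | h
  · exact h (funext fun s => (h1 s).1)
  · exact h (funext fun s => (h1 s).2)

private theorem st_add {F : Type*} [CommRing F] {n : ℕ} (t : Fin n → F) (a : F)
    (z w : (Fin n → Bool) → F) :
    pf t (fun s => w s + z s * a) = pf t w + 2 * a * (∑ s, pc t s * (w s * z s)) +
      a ^ 2 * pf t z := by
  simp only [pf, Finset.mul_sum, ← Finset.sum_add_distrib]
  refine Finset.sum_congr rfl fun s _ => ?_
  ring

private theorem st_smul {F : Type*} [CommRing F] {n : ℕ} (t : Fin n → F) (a : F)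
    (z : (Fin n → Bool) → F) : pf t (fun s => z s * a) = a ^ 2 * pf t z := by
  simp only [pf, Finset.mul_sum]
  refine Finset.sum_congr rfl fun s _ => ?_
  ring

private theorem st_univ {F : Type*} [Field F] (h2 : (2 : F) ≠ 0) {n : ℕ} (t : Fin n → F)
    (ht : ∀ j, t j ≠ 0) {z : (Fin n → Bool) → F} (hz : z ≠ 0) (h0 : pf t z = 0) (b : F) :
    ∃ y, pf t y = b := by
  classical
  obtain ⟨s₀, hs⟩ : ∃ s₀, z s₀ ≠ 0 := by
    by_contra hcon
    exact hz (funext fun s => by
      by_contra h
      exact hcon ⟨s, h⟩)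
  have hp := pc_ne_zero ht s₀
  refine ⟨fun s => (Pi.single s₀ 1 : (Fin n → Bool) → F) s +
    z s * ((b - pc t s₀) / (2 * (pc t s₀ * z s₀))), ?_⟩
  rw [st_add, h0, mul_zero, add_zero]
  have h3 : pf t (Pi.single s₀ 1 : (Fin n → Bool) → F) = pc t s₀ := by
    rw [pf, Finset.sum_eq_single s₀]
    · rw [Pi.single_eq_same]
      ring
    · intro s _ hs'
      rw [Pi.single_eq_of_ne hs']
      ring
    · intro h
      exact absurd (Finset.mem_univ _) h
  have h4 : ∑ s, pc t s * ((Pi.single s₀ 1 : (Fin n → Bool) → F) s * z s) = pc t s₀ * z s₀ := by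
    rw [Finset.sum_eq_single s₀]
    · rw [Pi.single_eq_same]
      ring
    · intro s _ hs'
      rw [Pi.single_eq_of_ne hs']
      ring
    · intro h
      exact absurd (Finset.mem_univ _) h
  rw [h3, h4]
  field_simp
  ring

theorem quad_step {E E' : Type*} [Field E] [Field E'] [Algebra E E'] (h2 : (2 : E) ≠ 0) {n : ℕ}
    (t : Fin n → E) (ht : ∀ j, t j ≠ 0) (c : E) (hc : c ≠ 0) (β : E') (T N : E)
    (hβ : β ^ 2 = algebraMap E E' T * β - algebraMap E E' N)
    (hspan : ∀ y : E', ∃ u v : E, y = algebraMap E E' u + algebraMap E E' v * β)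
    (hind : ∀ u v : E, algebraMap E E' u + algebraMap E E' v * β = 0 → u = 0 ∧ v = 0)
    (h : Iso β (algebraMap E E' c) (fun j => algebraMap E E' (t j))) : Iso N c t := by
  classical
  obtain ⟨x, hx, h0⟩ := h
  obtain ⟨f, g, rfl⟩ := st_join x
  rw [st_qf] at h0
  obtain ⟨τ, hτ⟩ : ∃ τ : Fin (n + 1) → E, τ = Fin.cons c t := ⟨_, rfl⟩
  have hτ0 : ∀ j, τ j ≠ 0 := by
    intro j
    rw [hτ]
    refine Fin.cases ?_ (fun i => ?_) j
    · exact hc
    · exact ht i
  have hmap : (Fin.cons (algebraMap E E' c) (fun j => algebraMap E E' (t j)) : Fin (n + 1) → E') =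
      fun j => algebraMap E E' (τ j) := by
    funext j
    rw [hτ]
    refine Fin.cases rfl (fun i => rfl) j
  rw [hmap] at h0
  have hinj := (algebraMap E E').injective
  have h2' : (2 : E') ≠ 0 := by
    intro h
    apply h2
    apply hinj
    rw [map_ofNat, map_zero]
    exact h
  have hτ' : ∀ j, algebraMap E E' (τ j) ≠ 0 := fun j h =>
    hτ0 j (hinj (by rw [h, map_zero]))
  have hfg : f ≠ 0 ∨ g ≠ 0 := by
    by_contra hcon
    push Not at hcon
    apply hx
    rw [hcon.1, hcon.2]
    funext s i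
    fin_cases i <;> rfl
  obtain ⟨z₀, hz₀⟩ : ∃ z₀, pf (fun j => algebraMap E E' (τ j)) z₀ = β := by
    by_cases hg : pf (fun j => algebraMap E E' (τ j)) g = 0
    · rw [hg, mul_zero, sub_zero] at h0
      rcases hfg with h | h
      · exact st_univ h2' _ hτ' h h0 β
      · exact st_univ h2' _ hτ' h hg β
    · obtain ⟨z, hz⟩ := pf_mul (fun j => algebraMap E E' (τ j)) f g
      refine ⟨fun s => z s * (pf (fun j => algebraMap E E' (τ j)) g)⁻¹, ?_⟩
      have h3 : pf (fun j => algebraMap E E' (τ j))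
          (fun s => z s * (pf (fun j => algebraMap E E' (τ j)) g)⁻¹) =
          (pf (fun j => algebraMap E E' (τ j)) g)⁻¹ ^ 2 *
            pf (fun j => algebraMap E E' (τ j)) z := st_smul _ _ _
      rw [h3, hz, sub_eq_zero.1 h0]
      field_simp
  choose U V hUV using fun s => hspan (z₀ s)
  have hz1 : z₀ = fun s => algebraMap E E' (U s) + algebraMap E E' (V s) * β := funext hUV
  have h5 : algebraMap E E' (pf τ U - N * pf τ V) +
      algebraMap E E' (2 * (∑ s, pc τ s * (U s * V s)) + T * pf τ V - 1) * β = 0 := by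
    have h6 := hz₀
    rw [hz1, st_add, hβ, ← map_pf, ← map_pf] at h6
    have h7 : ∑ s, pc (fun j => algebraMap E E' (τ j)) s *
        (algebraMap E E' (U s) * algebraMap E E' (V s)) =
        algebraMap E E' (∑ s, pc τ s * (U s * V s)) := by
      rw [map_sum]
      refine Finset.sum_congr rfl fun s _ => ?_
      rw [map_mul, map_mul, map_pc]
    rw [h7] at h6
    simp only [map_sub, map_add, map_mul, map_one, map_ofNat]
    linear_combination h6
  have h8 := (hind _ _ h5).1
  have hUV0 : U ≠ 0 ∨ V ≠ 0 := by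
    by_contra hcon
    push Not at hcon
    have h9 : z₀ = 0 := by
      rw [hz1, hcon.1, hcon.2]
      funext s
      simp
    have h10 : β = 0 := by
      rw [← hz₀, h9, pf]
      simp
    have h11 := (hind 0 1 (by rw [h10, map_zero, mul_zero, add_zero])).2
    exact one_ne_zero h11
  refine ⟨_, st_ne U V hUV0, ?_⟩
  rw [st_qf, ← hτ]
  exact h8

end Pool.Agent.Lib.MeadF
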