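import Mathlib
import Pool.Agent.Lib.MeadF.Step

/-!
# MeadF.QuadStep (size 110): descent along a quadratic extension of constants, inside `Ω`

`E = S`, `E' = S ⊔ adjoin ℚ {θ}` (as a field extension of `S`: `S ≤ S ⊔ ..`, `IntermediateField.inclusion`; or `IntermediateField.adjoin S {θ}` and its `restrictScalars ℚ`), `β = x₀ + θ`, `T = 2 x₀`, `N = x₀² - θ²`: `β² = T β - N`.
`hspan`: every element of `S ⊔ adjoin ℚ {θ}` is `u + v θ` with `u, v ∈ S` (`θ² ∈ S`; the set of these elements is a subfield: inverse `(u - v θ) / (u² - v² θ²)`, the denominator is nonzero since `θ ∉ S`), hence `u' + v β`.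
`hind`: `u + v β = 0` gives `v = 0` (otherwise `θ ∈ S`). `quad_step` and `isoIn_iff` (both directions).
-/

set_option autoImplicit false

namespace Pool.Agent.Lib.MeadF

/-- the subfield of the elements `u + v θ` -/
private def quadField {Ω : Type*} [Field Ω] [CharZero Ω] (S : IntermediateField ℚ Ω)
    (θ : Ω) (hθ2 : θ ^ 2 ∈ S) : IntermediateField ℚ Ω :=
  Subalgebra.toIntermediateField
    { carrier := {y | ∃ u ∈ S, ∃ v ∈ S, y = u + v * θ}
      mul_mem' := by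
        rintro a b ⟨u, hu, v, hv, rfl⟩ ⟨u', hu', v', hv', rfl⟩
        refine ⟨u * u' + v * v' * θ ^ 2, ?_, u * v' + v * u', ?_, by ring⟩
        · exact add_mem (mul_mem hu hu') (mul_mem (mul_mem hv hv') hθ2)
        · exact add_mem (mul_mem hu hv') (mul_mem hv hu')
      add_mem' := by
        rintro a b ⟨u, hu, v, hv, rfl⟩ ⟨u', hu', v', hv', rfl⟩
        exact ⟨u + u', add_mem hu hu', v + v', add_mem hv hv', by ring⟩
      algebraMap_mem' := by
        intro r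
        exact ⟨algebraMap ℚ Ω r, S.algebraMap_mem r, 0, zero_mem S, by ring⟩ }
    (by
      rintro y ⟨u, hu, v, hv, rfl⟩
      by_cases hd : u ^ 2 - v ^ 2 * θ ^ 2 = 0
      · have hf : (u - v * θ) * (u + v * θ) = 0 := by rw [← hd]; ring
        rcases mul_eq_zero.mp hf with h | h
        · by_cases hv0 : v = 0
          · subst hv0
            refine ⟨u⁻¹, inv_mem hu, 0, zero_mem S, by simp⟩
          · have h1 : θ = u / v := by
              field_simp
              linear_combination -h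
            have h2 : θ ∈ S := by rw [h1]; exact div_mem hu hv
            exact ⟨(u + v * θ)⁻¹, inv_mem (add_mem hu (mul_mem hv h2)), 0, zero_mem S, by ring⟩
        · rw [h]
          exact ⟨0, zero_mem S, 0, zero_mem S, by simp⟩
      · have hne : u + v * θ ≠ 0 := by
          intro h
          apply hd
          linear_combination (u - v * θ) * h
        have hdm : u ^ 2 - v ^ 2 * θ ^ 2 ∈ S :=
          sub_mem (pow_mem hu 2) (mul_mem (pow_mem hv 2) hθ2)
        refine ⟨u / (u ^ 2 - v ^ 2 * θ ^ 2), div_mem hu hdm, -v / (u ^ 2 - v ^ 2 * θ ^ 2),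
          div_mem (neg_mem hv) hdm, ?_⟩
        rw [inv_eq_iff_eq_inv, ← mul_right_inj' hd]
        have e : u / (u ^ 2 - v ^ 2 * θ ^ 2) + -v / (u ^ 2 - v ^ 2 * θ ^ 2) * θ =
            (u - v * θ) / (u ^ 2 - v ^ 2 * θ ^ 2) := by ring
        have hne' : u - v * θ ≠ 0 := by
          intro h
          apply hd
          linear_combination (u + v * θ) * h
        rw [e]
        field_simp
        ring)

private theorem mem_quadField {Ω : Type*} [Field Ω] [CharZero Ω] (S : IntermediateField ℚ Ω)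
    (θ : Ω) (hθ2 : θ ^ 2 ∈ S) {y : Ω} (hy : y ∈ S ⊔ IntermediateField.adjoin ℚ {θ}) :
    ∃ u ∈ S, ∃ v ∈ S, y = u + v * θ := by
  have hle : S ⊔ IntermediateField.adjoin ℚ {θ} ≤ quadField S θ hθ2 := by
    refine sup_le ?_ ?_
    · intro z hz
      exact ⟨z, hz, 0, zero_mem S, by ring⟩
    · rw [IntermediateField.adjoin_le_iff, Set.singleton_subset_iff]
      exact ⟨0, zero_mem S, 1, one_mem S, by ring⟩
  exact hle hy

private theorem quad_aux {Ω : Type*} [Field Ω] [CharZero Ω] {n : ℕ} (S E : IntermediateField ℚ Ω)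
    {t : Fin n → Ω} (ht : ∀ j, t j ∈ S) (ht0 : ∀ j, t j ≠ 0) {c : Ω} (hc : c ∈ S) (hc0 : c ≠ 0)
    {θ x₀ : Ω} (hx₀ : x₀ ∈ S) (hθ : θ ∉ S) (hθ2 : θ ^ 2 ∈ S) (hSE : S ≤ E) (hθE : θ ∈ E)
    (hspan : ∀ y ∈ E, ∃ u ∈ S, ∃ v ∈ S, y = u + v * θ)
    (h : IsoIn E (x₀ + θ) c t) :
    IsoIn S (x₀ ^ 2 - θ ^ 2) c t := by
  let I : Algebra S E := (IntermediateField.inclusion hSE).toAlgebra
  have hmap : ∀ u : S, ((@algebraMap S E _ _ I u : E) : Ω) = u := fun u => rfl
  have hNS : x₀ ^ 2 - θ ^ 2 ∈ S := sub_mem (pow_mem hx₀ 2) hθ2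
  have h2S : 2 * x₀ ∈ S := by
    rw [two_mul]
    exact add_mem hx₀ hx₀
  have hβE : x₀ + θ ∈ E := add_mem (hSE hx₀) hθE
  rw [isoIn_iff hNS hc ht]
  rw [isoIn_iff hβE (hSE hc) (fun j => hSE (ht j))] at h
  refine @quad_step S E _ _ I two_ne_zero n (fun j => (⟨t j, ht j⟩ : S))
    (fun j h0 => ht0 j (congrArg Subtype.val h0))
    (⟨c, hc⟩ : S) (fun h0 => hc0 (congrArg Subtype.val h0)) ⟨x₀ + θ, hβE⟩ (⟨2 * x₀, h2S⟩ : S)
    (⟨x₀ ^ 2 - θ ^ 2, hNS⟩ : S) ?_ ?_ ?_ h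
  · apply Subtype.ext
    change (x₀ + θ) ^ 2 = (2 * x₀) * (x₀ + θ) - (x₀ ^ 2 - θ ^ 2)
    ring
  · intro y
    obtain ⟨u, hu, v, hv, huv⟩ := hspan y.1 y.2
    refine ⟨⟨u - v * x₀, sub_mem hu (mul_mem hv hx₀)⟩, ⟨v, hv⟩, ?_⟩
    apply Subtype.ext
    change (y : Ω) = (u - v * x₀) + v * (x₀ + θ)
    rw [huv]
    ring
  · intro u v huv
    have h1 : (u : Ω) + v * (x₀ + θ) = 0 := congrArg Subtype.val huv
    have hv : v = 0 := by
      by_contra hv
      apply hθ
      have hv' : (v : Ω) ≠ 0 := fun h0 => hv (Subtype.ext h0)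
      have h2 : θ = (-(u : Ω) - v * x₀) / v := by
        field_simp
        linear_combination h1
      rw [h2]
      exact div_mem (sub_mem (neg_mem u.2) (mul_mem v.2 hx₀)) v.2
    refine ⟨?_, hv⟩
    rw [hv] at h1
    apply Subtype.ext
    have h3 : (u : Ω) + 0 * (x₀ + θ) = 0 := h1
    change (u : Ω) = 0
    linear_combination h3

theorem quad_step_in {Ω : Type*} [Field Ω] [CharZero Ω] {n : ℕ} (S : IntermediateField ℚ Ω)
    {t : Fin n → Ω} (ht : ∀ j, t j ∈ S) (ht0 : ∀ j, t j ≠ 0) {c : Ω} (hc : c ∈ S) (hc0 : c ≠ 0)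
    {θ x₀ : Ω} (hx₀ : x₀ ∈ S) (hθ : θ ∉ S) (hθ2 : θ ^ 2 ∈ S)
    (h : IsoIn (S ⊔ IntermediateField.adjoin ℚ {θ}) (x₀ + θ) c t) :
    IsoIn S (x₀ ^ 2 - θ ^ 2) c t :=
  quad_aux S (S ⊔ IntermediateField.adjoin ℚ {θ}) ht ht0 hc hc0 hx₀ hθ hθ2 le_sup_left
    ((le_sup_right : IntermediateField.adjoin ℚ {θ} ≤ _)
      (IntermediateField.mem_adjoin_simple_self ℚ θ))
    (fun _ hy => mem_quadField S θ hθ2 hy) h

end Pool.Agent.Lib.MeadF
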