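import Mathlib
import Pool.Agent.Lib.QCFT.Hasse
import Pool.Agent.Lib.QCFT.Sep
import Pool.Agent.Lib.MeadF.NiceA

/-!
# MeadF.Hs (size 400, mostly a copy of Lib/Mead/T1.lean): norms from quaternion algebras over totally complex number fields

This is `Pool.Agent.Lib.Mead.t1` with general `a, b` instead of the integers `p, u`. Differences: (1) `dyadic_mem`: `Nice a` gives `a ∈ LSq w` at every dyadic `w` (`mem_LSq`: some `y` with `a / y² - 1` of valuation `< v 4`).
(2) `isotropic_of_even`: `a` nice over `k` (not only a natural number), `M` instead of `k`: `nice_map`. (3) `exists_W`: `0 ≤ o w pk` was automatic for integers; here first replace `a, b` by `m² a`, `m'² b` with integers `m, m'`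
such that they are algebraic integers (the statement is invariant: `pq (m² a) (m'² b) x = pq a b ![m x 0, m' x 1, m m' x 2]`, and `Nice (m² a)`).
The form: `hf p u z = z 0² - p z 1² - u z 2²` is a multiple of `pq`: `- p u hf p u z = pq p u ![...]`: `pq a b ![z 2 .. ]`: precisely `-(a b) * hf a b z = a (b z 1)² ... `: `-a b (z 0² - a z 1² - b z 2²) = b (a z 1)² + a (b z 2)² - a b z 0²
= pq a b ![b * z 2, a * z 1, z 0]`. So `hf z = s hf w` is the same as `pq z' = s pq w'` with `z' = ![b * z 2, a * z 1, z 0]`.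
-/

set_option autoImplicit false
set_option linter.unusedSectionVars false

universe v

namespace Pool.Agent.Lib.MeadF

open IsDedekindDomain NumberField WithZero Pool.Agent.Lib.QCFT

/-- the form `h = <1,-p,-u>` -/
private def hf {F : Type*} [Field F] (p u : F) (z : Fin 3 → F) : F := z 0 ^ 2 - p * z 1 ^ 2 - u * z 2 ^ 2

section formal

variable {F : Type*} [Field F]

/-- descent along a quadratic extension: the formal part -/
private lemma descend {p u s c δ : F} (hp : p ≠ 0) (hu : u ≠ 0)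
    (W : Fin 3 → F) (hW : W ≠ 0) (hc : c = -s * hf p u W) (hδ : δ = u * p * c)
    (x y : Fin 3 → F) (hxy : x ≠ 0 ∨ y ≠ 0)
    (h1 : hf p u x + δ * hf p u y = 0)
    (h2 : x 0 * y 0 - p * (x 1 * y 1) - u * (x 2 * y 2) = 0) :
    ∃ z w : Fin 3 → F, (z ≠ 0 ∨ w ≠ 0) ∧ hf p u z = s * hf p u w := by
  by_cases hy : y = 0
  · subst hy
    have hx : x ≠ 0 := by
      rcases hxy with h | h
      · exact h
      · exact absurd rfl h
    refine ⟨x, 0, Or.inl hx, ?_⟩
    simp only [hf, Pi.zero_apply] at h1 ⊢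
    linear_combination h1
  by_cases hhy : hf p u y = 0
  · refine ⟨y, 0, Or.inl hy, ?_⟩
    rw [hhy]
    simp [hf]
  refine ⟨![x 1 * y 2 - x 2 * y 1, (x 2 * y 0 - x 0 * y 2) / p, (x 0 * y 1 - x 1 * y 0) / u],
    fun i => hf p u y * W i, Or.inr ?_, ?_⟩
  · obtain ⟨i, hi⟩ := Function.ne_iff.mp hW
    exact Function.ne_iff.mpr ⟨i, mul_ne_zero hhy hi⟩
  · have key : p * u * hf p u ![x 1 * y 2 - x 2 * y 1, (x 2 * y 0 - x 0 * y 2) / p,
        (x 0 * y 1 - x 1 * y 0) / u] = p * u * (s * hf p u (fun i => hf p u y * W i)) := by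
      have e1 : p * u * hf p u ![x 1 * y 2 - x 2 * y 1, (x 2 * y 0 - x 0 * y 2) / p,
          (x 0 * y 1 - x 1 * y 0) / u] =
          hf p u x * hf p u y - (x 0 * y 0 - p * (x 1 * y 1) - u * (x 2 * y 2)) ^ 2 := by
        simp only [hf, Matrix.cons_val_zero, Matrix.cons_val_one, Matrix.cons_val]
        field_simp
        ring
      have e2 : hf p u (fun i => hf p u y * W i) = hf p u y ^ 2 * hf p u W := by
        simp only [hf]
        ring
      rw [e1, h2, e2]
      have e3 : hf p u x = - (δ * hf p u y) := by linear_combination h1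
      rw [e3, hδ, hc]
      ring
    exact mul_left_cancel₀ (mul_ne_zero hp hu) key

end formal

section arith

variable {k : Type v} [Field k] [NumberField k]

/-- a nice element is a local square at the dyadic primes -/
private lemma dyadic_mem (pk : kˣ) (hn : Nice (pk : k))
    (w : HeightOneSpectrum (𝓞 k)) (h2 : w.valuation k (2 : k) ≠ 1) : pk ∈ LSq w := by
  have h2' : w.valuation k (2 : k) < 1 := lt_of_le_of_ne (val_two_le w) h2
  obtain ⟨α, hα, h⟩ := hn
  rw [mem_LSq]
  refine ⟨Units.mk0 α hα, ?_⟩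
  rw [mem_OU, Units.val_div_eq_div_val, Units.val_pow_eq_pow_val, Units.val_mk0]
  refine lt_of_le_of_lt (h w h2) ?_
  have e : (8 : k) = 4 * 2 := by norm_num
  rw [e, map_mul]
  have h4 : 0 < w.valuation k (4 : k) := zero_lt_iff.mpr (val_four_ne w)
  calc w.valuation k 4 * w.valuation k 2 < w.valuation k 4 * 1 := by gcongr
    _ = _ := mul_one _

/-- If all valuations of `p` and `u` are even then `h` is isotropic. -/
private lemma isotropic_of_even [IsTotallyComplex k] (pk uk : kˣ) (hn : Nice (pk : k))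
    (hev : ∀ w : HeightOneSpectrum (𝓞 k), Even (o w pk) ∧ Even (o w uk)) :
    ∃ x : Fin 3 → k, x ≠ 0 ∧ hf (pk : k) (uk : k) x = 0 := by
  by_cases hsq : IsSquare (pk : k)
  · obtain ⟨r, hr⟩ := hsq
    refine ⟨![r, 1, 0], ?_, ?_⟩
    · intro h
      have := congrFun h 1
      simp at this
    · simp only [hf, Matrix.cons_val_zero, Matrix.cons_val_one, Matrix.cons_val]
      rw [hr]; ring
  · obtain ⟨M, _, _, _, _, θ, hθ⟩ := exists_quad pk hsq
    obtain ⟨σ, hσ⟩ := exists_aut k M
    have hσθ := sigma_theta hσ hsq hθ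
    obtain ⟨z, hz⟩ := hasse_norm (k := k) (M := M) hsq hθ (by
      intro w hw
      apply ee_eq_one_of_not_NSp
      exact split_of_mem_LSq σ hσ hθ hσθ (dyadic_mem pk hn _ hw)) uk (by
      intro w _
      rw [mem_NK_of_even (hev w).1]
      exact (hev w).2)
    -- coordinates of `z`
    have hzz : ((uk : k)) = Algebra.norm k (z : M) := by rw [← hz]; rfl
    have hN := norm_eq σ hσ (z : M)
    obtain ⟨a, ha⟩ := sigma_fixed σ hσ ((z : M) + σ (z : M)) (by
      rw [map_add, sigma_sigma σ hσ, add_comm])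
    obtain ⟨b, hb⟩ := sigma_fixed σ hσ (((z : M) - σ (z : M)) / (θ : M)) (by
      rw [map_div₀, map_sub, sigma_sigma σ hσ, hσθ]
      rw [div_neg, ← neg_div]
      congr 1
      ring)
    have hθ0 : (θ : M) ≠ 0 := θ.ne_zero
    have hθ2 : (θ : M) ^ 2 = algebraMap k M (pk : k) := congrArg Units.val hθ
    refine ⟨![a / 2, b / 2, 1], ?_, ?_⟩
    · intro h
      have := congrFun h 2
      simp at this
    · simp only [hf, Matrix.cons_val_zero, Matrix.cons_val_one, Matrix.cons_val]
      apply (algebraMap k M).injective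
      have h4 : (uk : k) = Algebra.norm k (z : M) := hzz
      have hb' : algebraMap k M b * θ = (z : M) - σ (z : M) := by
        rw [hb, div_mul_cancel₀ _ hθ0]
      rw [map_zero, map_sub, map_sub, map_mul, map_mul, map_pow, map_pow, map_div₀, map_div₀, ha,
        ← hθ2, h4, hN, map_ofNat, one_pow, map_one]
      have e : (θ : M) ^ 2 * (algebraMap k M b / 2) ^ 2 = ((algebraMap k M b * θ) / 2) ^ 2 := by
        ring
      rw [e, hb']
      ring

/-- the three local values -/
private lemma local_choice (w : HeightOneSpectrum (𝓞 k)) (pk uk s : kˣ)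
    (hodd : ¬ Even (o w pk) ∨ ¬ Even (o w uk)) (hp : 0 ≤ o w pk) (hu : 0 ≤ o w uk) :
    ∃ (g : Fin 3 → 𝓞 k) (H : kˣ), (H : k) = hf (pk : k) (uk : k) (fun i => algebraMap (𝓞 k) k (g i)) ∧
      0 ≤ o w H ∧ ¬ Even (o w (uk * pk * s * H)) := by
  by_cases h0 : Even (o w (uk * pk * s))
  · by_cases h1 : Even (o w pk)
    · have h2 : ¬ Even (o w uk) := by
        rcases hodd with h | h
        · exact absurd h1 h
        · exact h
      refine ⟨![0, 0, 1], -uk, ?_, ?_, ?_⟩
      · simp [hf]
      · rw [o_neg]; exact hu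
      · rw [o_mul, o_neg, Int.even_add]
        tauto
    · refine ⟨![0, 1, 0], -pk, ?_, ?_, ?_⟩
      · simp [hf]
      · rw [o_neg]; exact hp
      · rw [o_mul, o_neg, Int.even_add]
        tauto
  · refine ⟨![1, 0, 0], 1, ?_, ?_, ?_⟩
    · simp [hf]
    · rw [o_one]
    · rw [mul_one]; exact h0

/-- Weak approximation. -/
private lemma exists_W (s pk uk : kˣ)
    (hpi : ∀ w : HeightOneSpectrum (𝓞 k), 0 ≤ o w pk)
    (hui : ∀ w : HeightOneSpectrum (𝓞 k), 0 ≤ o w uk) :
    ∃ (W : Fin 3 → k) (hW : hf (pk : k) (uk : k) W ≠ 0), ∀ w : HeightOneSpectrum (𝓞 k),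
      (¬ Even (o w pk) ∨ ¬ Even (o w uk)) →
      ¬ Even (o w (uk * pk * s * Units.mk0 _ hW)) := by
  classical
  set Q : HeightOneSpectrum (𝓞 k) → Prop := fun w => ¬ Even (o w pk) ∨ ¬ Even (o w uk) with hQ
  have hfin : {w : HeightOneSpectrum (𝓞 k) | Q w}.Finite := by
    refine ((finite_o_ne (R := 𝓞 k) pk).union (finite_o_ne (R := 𝓞 k) uk)).subset ?_
    intro w hw
    rcases hw with h | h
    · left
      intro h0
      apply h
      rw [h0]
      exact ⟨0, rfl⟩
    · right
      intro h0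
      apply h
      rw [h0]
      exact ⟨0, rfl⟩
  by_cases hne : ∃ w, Q w
  swap
  · push Not at hne
    refine ⟨![1, 0, 0], ?_, fun w hw => absurd hw (hne w)⟩
    simp [hf]
  obtain ⟨w0, hw0⟩ := hne
  have hex : ∀ w : HeightOneSpectrum (𝓞 k), ∃ (g : Fin 3 → 𝓞 k) (H : kˣ), Q w →
      (H : k) = hf (pk : k) (uk : k) (fun i => algebraMap (𝓞 k) k (g i)) ∧
      0 ≤ o w H ∧ ¬ Even (o w (uk * pk * s * H)) := by
    intro w
    by_cases hw : Q w
    · obtain ⟨g, H, h⟩ := local_choice w pk uk s hw (hpi w) (hui w)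
      exact ⟨g, H, fun _ => h⟩
    · exact ⟨0, 1, fun h => absurd h hw⟩
  choose g H hgH using hex
  set S := hfin.toFinset with hS
  have hmem : ∀ w, w ∈ S ↔ Q w := by
    intro w
    rw [hS, Set.Finite.mem_toFinset]
    rfl
  have hcrt : ∀ i : Fin 3, ∃ y : 𝓞 k, ∀ w ∈ S, y - g w i ∈ w.asIdeal ^ ((o w (H w)).toNat + 1) := by
    intro i
    obtain ⟨y, hy⟩ := IsDedekindDomain.exists_forall_sub_mem_ideal (s := S)
      (fun w : HeightOneSpectrum (𝓞 k) => w.asIdeal) (fun w => (o w (H w)).toNat + 1)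
      (fun w _ => w.prime)
      (fun w _ w' _ hne h => hne (HeightOneSpectrum.ext h))
      (fun w => g w.1 i)
    exact ⟨y, fun w hw => hy w hw⟩
  choose y hy using hcrt
  set W : Fin 3 → k := fun i => algebraMap (𝓞 k) k (y i) with hWdef
  have hval : ∀ w, Q w → w.valuation k (hf (pk : k) (uk : k) W) = w.valuation k (H w : k) := by
    intro w hw
    obtain ⟨h1, h2, _⟩ := hgH w hw
    have hN : ∀ i, w.valuation k (W i - algebraMap (𝓞 k) k (g w i)) < w.valuation k (H w : k) := by
      intro i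
      have h3 := hy i w ((hmem w).mpr hw)
      have h4 : w.intValuation (y i - g w i) ≤ exp (-(((o w (H w)).toNat + 1 : ℕ) : ℤ)) :=
        (w.intValuation_le_pow_iff_mem _ _).mpr h3
      rw [hWdef]
      simp only []
      rw [← map_sub, HeightOneSpectrum.valuation_of_algebraMap, val_eq]
      refine lt_of_le_of_lt h4 ?_
      rw [exp_lt_exp]
      push_cast
      rw [Int.toNat_of_nonneg h2]
      omega
    have hint : ∀ r : 𝓞 k, w.valuation k (algebraMap (𝓞 k) k r) ≤ 1 := fun r =>
      w.valuation_le_one (K := k) r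
    have hsq : ∀ i, w.valuation k (W i ^ 2 - algebraMap (𝓞 k) k (g w i) ^ 2) <
        w.valuation k (H w : k) := by
      intro i
      have e : W i ^ 2 - algebraMap (𝓞 k) k (g w i) ^ 2 =
          (W i + algebraMap (𝓞 k) k (g w i)) * (W i - algebraMap (𝓞 k) k (g w i)) := by ring
      have h5 : w.valuation k (W i + algebraMap (𝓞 k) k (g w i)) ≤ 1 := by
        rw [hWdef]
        simp only []
        rw [← map_add]
        exact hint _
      rw [e, map_mul]
      calc _ ≤ 1 * w.valuation k (W i - algebraMap (𝓞 k) k (g w i)) := by gcongr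
        _ < _ := by rw [one_mul]; exact hN i
    have hpv : w.valuation k (pk : k) ≤ 1 := (o_nonneg_iff w).mp (hpi w)
    have huv : w.valuation k (uk : k) ≤ 1 := (o_nonneg_iff w).mp (hui w)
    have hmul : ∀ (c : k) (i : Fin 3), w.valuation k c ≤ 1 →
        w.valuation k (c * (W i ^ 2 - algebraMap (𝓞 k) k (g w i) ^ 2)) < w.valuation k (H w : k) := by
      intro c i hc
      rw [map_mul]
      calc _ ≤ 1 * w.valuation k (W i ^ 2 - algebraMap (𝓞 k) k (g w i) ^ 2) := by gcongr
        _ < _ := by rw [one_mul]; exact hsq i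
    have e : hf (pk : k) (uk : k) W = (H w : k) +
        ((W 0 ^ 2 - algebraMap (𝓞 k) k (g w 0) ^ 2) -
        (pk : k) * (W 1 ^ 2 - algebraMap (𝓞 k) k (g w 1) ^ 2) -
        (uk : k) * (W 2 ^ 2 - algebraMap (𝓞 k) k (g w 2) ^ 2)) := by
      rw [h1]
      simp only [hf]
      ring
    rw [e]
    apply Valuation.map_add_eq_of_lt_left
    exact Valuation.map_sub_lt _ (Valuation.map_sub_lt _ (hsq 0) (hmul _ 1 hpv)) (hmul _ 2 huv)
  have hW0 : hf (pk : k) (uk : k) W ≠ 0 := by
    intro h0
    have := hval w0 hw0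
    rw [h0, map_zero, val_eq] at this
    exact exp_ne_zero this.symm
  refine ⟨W, hW0, fun w hw => ?_⟩
  have h1 : o w (Units.mk0 _ hW0) = o w (H w) := by
    rw [o_eq_iff, Units.val_mk0, hval w hw, val_eq]
  have h2 := (hgH w hw).2.2
  rw [o_mul] at h2 ⊢
  rwa [h1]

/-- `h ⊥ -s h` is isotropic over a totally complex number field. -/
private theorem t1 [IsTotallyComplex k] {p u : k} (hpk0 : p ≠ 0) (huk0 : u ≠ 0) (hn : Nice p)
    (hp1 : ∀ w : HeightOneSpectrum (𝓞 k), w.valuation k p ≤ 1)
    (hu1 : ∀ w : HeightOneSpectrum (𝓞 k), w.valuation k u ≤ 1) (s : k) :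
    ∃ z w : Fin 3 → k, (z ≠ 0 ∨ w ≠ 0) ∧ hf p u z = s * hf p u w := by
  classical
  by_cases hs : s = 0
  · refine ⟨0, fun _ => 1, Or.inr ?_, ?_⟩
    · intro h
      exact one_ne_zero (congrFun h 0)
    · rw [hs]; simp [hf]
  obtain ⟨W, hW, hodd⟩ := exists_W (k := k) (Units.mk0 s hs) (Units.mk0 _ hpk0)
    (Units.mk0 _ huk0) (fun w => (o_nonneg_iff w).mpr (hp1 w)) (fun w => (o_nonneg_iff w).mpr (hu1 w))
  simp only [Units.val_mk0] at hW hodd
  set pk : kˣ := Units.mk0 p hpk0 with hpk
  set uk : kˣ := Units.mk0 u huk0 with huk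
  set sk : kˣ := Units.mk0 s hs with hsk
  set hk : kˣ := Units.mk0 _ hW with hhk
  set d : kˣ := - (uk * pk * sk * hk) with hd
  have hW0 : W ≠ 0 := by
    rintro rfl
    apply hW
    simp [hf]
  have hdv : (d : k) = u * p * (-s * hf p u W) := by
    rw [hd]
    simp only [Units.val_neg, Units.val_mul, hpk, huk, hsk, hhk, Units.val_mk0]
    ring
  have hdodd : ∀ w : HeightOneSpectrum (𝓞 k), (¬ Even (o w pk) ∨ ¬ Even (o w uk)) →
      ¬ Even (o w d) := by
    intro w hw
    rw [hd, o_neg]
    exact hodd w hw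
  by_cases hsq : IsSquare (d : k)
  · obtain ⟨r, hr⟩ := hsq
    have hr0 : r ≠ 0 := by
      rintro rfl
      exact d.ne_zero (by rw [hr]; ring)
    have hdr : d = Units.mk0 r hr0 ^ 2 := Units.ext (by
      rw [hr, Units.val_pow_eq_pow_val, Units.val_mk0, sq])
    have hev : ∀ w : HeightOneSpectrum (𝓞 k), Even (o w pk) ∧ Even (o w uk) := by
      intro w
      have h1 : Even (o w d) := by
        rw [hdr, o_pow]
        exact ⟨o w (Units.mk0 r hr0), by push_cast; ring⟩
      by_contra hcon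
      rw [not_and_or] at hcon
      exact hdodd w hcon h1
    obtain ⟨x, hx0, hx⟩ := isotropic_of_even pk uk hn hev
    refine ⟨x, 0, Or.inl hx0, ?_⟩
    have hx' : hf p u x = 0 := hx
    rw [hx']
    simp [hf]
  · obtain ⟨M, _, _, _, _, θ, hθ⟩ := exists_quad d hsq
    have htc : IsTotallyComplex M := isTotallyComplex_of_algebra k M
    obtain ⟨σ, hσ⟩ := exists_aut k M
    have hσθ := sigma_theta hσ hsq hθ
    have hθ2 : (θ : M) ^ 2 = algebraMap k M (d : k) := congrArg Units.val hθ
    have hθ0 : (θ : M) ≠ 0 := θ.ne_zero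
    obtain ⟨x, hx0, hx⟩ := isotropic_of_even (k := M) (bc k M pk) (bc k M uk)
      (by rw [coe_bc, hpk, Units.val_mk0]; exact nice_map hn) (by
      intro w
      rw [o_bc, o_bc]
      by_cases hcon : Even (o (und k w) pk) ∧ Even (o (und k w) uk)
      · exact ⟨Even.mul_left hcon.1 _, Even.mul_left hcon.2 _⟩
      · rw [not_and_or] at hcon
        have h1 := hdodd _ hcon
        have h2 := two_mul_o_theta hθ w
        have h3 : Even ((ee k w : ℤ) * o (und k w) d) := by
          rw [← h2]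
          exact ⟨o w θ, by ring⟩
        have h4 : Even ((ee k w : ℕ) : ℤ) := by
          rcases Int.even_mul.mp h3 with h | h
          · exact h
          · exact absurd h h1
        exact ⟨Even.mul_right h4 _, Even.mul_right h4 _⟩)
    -- coordinates
    have hco : ∀ t : M, ∃ a b : k, t = algebraMap k M a + algebraMap k M b * θ := by
      intro t
      obtain ⟨a, ha⟩ := sigma_fixed σ hσ ((t + σ t) / 2) (by
        rw [map_div₀, map_add, sigma_sigma σ hσ, add_comm, map_ofNat])
      obtain ⟨b, hb⟩ := sigma_fixed σ hσ ((t - σ t) / (2 * (θ : M))) (by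
        rw [map_div₀, map_sub, sigma_sigma σ hσ, map_mul, hσθ, map_ofNat]
        rw [mul_neg, div_neg, ← neg_div]
        congr 1
        ring)
      refine ⟨a, b, ?_⟩
      rw [ha, hb]
      field_simp
      ring
    choose fa fb hfab using fun i => hco (x i)
    have huniq : ∀ a b : k, algebraMap k M a + algebraMap k M b * (θ : M) = 0 → a = 0 ∧ b = 0 := by
      intro a b hab
      have h1 : algebraMap k M a - algebraMap k M b * (θ : M) = 0 := by
        have := congrArg σ hab
        rw [map_add, map_mul, σ.commutes, σ.commutes, hσθ, map_zero] at this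
        linear_combination this
      have h2 : algebraMap k M a = 0 := by
        have h3 : (2 : M) * algebraMap k M a = 0 := by linear_combination hab + h1
        rcases mul_eq_zero.mp h3 with h | h
        · exact absurd h two_ne_zero
        · exact h
      have h3 : algebraMap k M b = 0 := by
        rw [h2, zero_add] at hab
        rcases mul_eq_zero.mp hab with h | h
        · exact h
        · exact absurd h hθ0
      exact ⟨(map_eq_zero _).mp h2, (map_eq_zero _).mp h3⟩
    have hexp : algebraMap k M (hf p u fa + d * hf p u fb) +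
        algebraMap k M (2 * (fa 0 * fb 0 - p * (fa 1 * fb 1) - u * (fa 2 * fb 2))) *
          (θ : M) = 0 := by
      rw [← hx]
      simp only [hf, hfab]
      rw [coe_bc, coe_bc, hpk, huk]
      simp only [Units.val_mk0, map_add, map_sub, map_mul, map_pow, ← hθ2, map_ofNat]
      ring
    obtain ⟨h1, h2⟩ := huniq _ _ hexp
    refine descend hpk0 huk0 W hW0 (c := -s * hf p u W) rfl (δ := (d : k)) hdv fa fb
      ?_ h1 ?_
    · by_contra hcon
      push Not at hcon
      apply hx0
      funext i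
      rw [hfab i, hcon.1, hcon.2]
      simp
    · rcases mul_eq_zero.mp h2 with h | h
      · exact absurd h two_ne_zero
      · exact h

/-- an integral multiple by a square -/
private lemma exists_int (a : k) : ∃ m : k, m ≠ 0 ∧
    ∀ w : HeightOneSpectrum (𝓞 k), w.valuation k (m ^ 2 * a) ≤ 1 := by
  obtain ⟨c, d, hd, h⟩ := IsFractionRing.div_surjective (A := 𝓞 k) a
  have hd0 : algebraMap (𝓞 k) k d ≠ 0 := by
    intro h0
    exact nonZeroDivisors.ne_zero hd ((IsFractionRing.injective (𝓞 k) k) (by rw [h0, map_zero]))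
  refine ⟨algebraMap (𝓞 k) k d, hd0, fun w => ?_⟩
  have e : algebraMap (𝓞 k) k d ^ 2 * a = algebraMap (𝓞 k) k (d * c) := by
    rw [← h, map_mul]
    field_simp
  rw [e]
  exact w.valuation_le_one _

private lemma nice_sq {a m : k} (hm : m ≠ 0) (h : Nice a) : Nice (m ^ 2 * a) := by
  obtain ⟨α, hα, h⟩ := h
  refine ⟨m * α, mul_ne_zero hm hα, fun v hv => ?_⟩
  have e : m ^ 2 * a / (m * α) ^ 2 = a / α ^ 2 := by
    field_simp
  rw [e]
  exact h v hv

end arith

theorem hs {k : Type*} [Field k] [NumberField k] [IsTotallyComplex k] {a b : k} (ha0 : a ≠ 0)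
    (hb0 : b ≠ 0) (ha : Nice a) (δ : k) :
    ∃ y z : Fin 3 → k, (y ≠ 0 ∨ z ≠ 0) ∧ pq a b z = δ * pq a b y := by
  obtain ⟨m, hm, hm1⟩ := exists_int a
  obtain ⟨m', hm', hm1'⟩ := exists_int b
  have hA : m ^ 2 * a ≠ 0 := mul_ne_zero (pow_ne_zero 2 hm) ha0
  have hB : m' ^ 2 * b ≠ 0 := mul_ne_zero (pow_ne_zero 2 hm') hb0
  obtain ⟨z, w, hzw, h⟩ := t1 hA hB (nice_sq hm ha) hm1 hm1' δ
  obtain ⟨T, hT⟩ : ∃ T : (Fin 3 → k) → Fin 3 → k, T = fun z =>
      ![m * (m' ^ 2 * b * z 2), m' * (m ^ 2 * a * z 1), m * m' * z 0] := ⟨_, rfl⟩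
  have hT0 : ∀ z, z ≠ 0 → T z ≠ 0 := by
    intro z hz h0
    apply hz
    rw [hT] at h0
    have e0 := congrFun h0 0
    have e1 := congrFun h0 1
    have e2 := congrFun h0 2
    simp only [Matrix.cons_val_zero, Matrix.cons_val_one, Matrix.cons_val, Pi.zero_apply] at e0 e1 e2
    funext i
    fin_cases i
    · exact (mul_eq_zero.mp e2).resolve_left (mul_ne_zero hm hm')
    · exact (mul_eq_zero.mp ((mul_eq_zero.mp e1).resolve_left hm')).resolve_left hA
    · exact (mul_eq_zero.mp ((mul_eq_zero.mp e0).resolve_left hm)).resolve_left hB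
  have hpq : ∀ z, pq a b (T z) = - (m ^ 2 * a * (m' ^ 2 * b)) * hf (m ^ 2 * a) (m' ^ 2 * b) z := by
    intro z
    rw [hT]
    simp only [pq, hf, Matrix.cons_val_zero, Matrix.cons_val_one, Matrix.cons_val]
    ring
  refine ⟨T w, T z, ?_, ?_⟩
  · rcases hzw with h1 | h1
    · exact Or.inr (hT0 z h1)
    · exact Or.inl (hT0 w h1)
  · rw [hpq, hpq, h]
    ring

end Pool.Agent.Lib.MeadF
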