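import Mathlib
import Pool.Agent.Lib.MeadF.Hs

/-!
# MeadF.Rep (size 60): every element is a reduced norm

From `hs`. If `pq a b y = 0` then `pq a b z = 0` and one of `y, z` is nonzero: `nf a b ![0, y 0, y 1, y 2] = - pq a b y = 0` gives the first alternative. Otherwise, with `B = a * (y 0 * z 0) + b * (y 1 * z 1) - a * b * (y 2 * z 2)` and
`w` the pure part of the quaternion product (`w 0 = -b (y 1 z 2 - y 2 z 1)`, `w 1 = a (y 0 z 2 - y 2 z 0)`, `w 2 = y 0 z 1 - y 1 z 0`; check the signs with `ring`): `pq y * pq z = B² - pq w`, so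
`δ = pq z / pq y = (B / pq y)² - pq (w / pq y)`.
-/

set_option autoImplicit false

namespace Pool.Agent.Lib.MeadF

open NumberField

private theorem rep_first {k : Type*} [Field k] {a b : k} {y : Fin 3 → k} (hy : y ≠ 0)
    (h : pq a b y = 0) : ∃ x : Fin 4 → k, x ≠ 0 ∧ nf a b x = 0 := by
  refine ⟨![0, y 0, y 1, y 2], ?_, ?_⟩
  · intro hcon
    apply hy
    have e1 := congrFun hcon 1
    have e2 := congrFun hcon 2
    have e3 := congrFun hcon 3
    simp at e1 e2 e3
    funext i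
    fin_cases i
    · exact e1
    · exact e2
    · exact e3
  · have h1 : nf a b ![0, y 0, y 1, y 2] = -pq a b y := by
      simp only [nf, pq, Matrix.cons_val_zero, Matrix.cons_val_one, Matrix.cons_val]
      ring
    rw [h1, h, neg_zero]

theorem rep {k : Type*} [Field k] [NumberField k] [IsTotallyComplex k] {a b : k} (ha0 : a ≠ 0)
    (hb0 : b ≠ 0) (ha : Nice a) (δ : k) :
    (∃ x : Fin 4 → k, x ≠ 0 ∧ nf a b x = 0) ∨
      ∃ (x0 : k) (x : Fin 3 → k), δ = x0 ^ 2 - pq a b x := by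
  obtain ⟨y, z, hyz, h⟩ := hs ha0 hb0 ha δ
  by_cases hy0 : pq a b y = 0
  · left
    rcases hyz with hy | hz
    · exact rep_first hy hy0
    · exact rep_first hz (by rw [h, hy0, mul_zero])
  · right
    refine ⟨(a * (y 0 * z 0) + b * (y 1 * z 1) - a * b * (y 2 * z 2)) / pq a b y,
      ![-b * (y 1 * z 2 - y 2 * z 1) / pq a b y, a * (y 0 * z 2 - y 2 * z 0) / pq a b y,
        (y 0 * z 1 - y 1 * z 0) / pq a b y], ?_⟩
    have h1 : δ = pq a b z / pq a b y := by rw [h, mul_div_cancel_right₀ _ hy0]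
    have h2 : pq a b y * pq a b z =
        (a * (y 0 * z 0) + b * (y 1 * z 1) - a * b * (y 2 * z 2)) ^ 2 -
          (a * (-b * (y 1 * z 2 - y 2 * z 1)) ^ 2 + b * (a * (y 0 * z 2 - y 2 * z 0)) ^ 2 -
            a * b * (y 0 * z 1 - y 1 * z 0) ^ 2) := by
      simp only [pq]
      ring
    have h3 : ∀ P : k, P ≠ 0 → ∀ q A B C D : k, P * q = A ^ 2 - (a * B ^ 2 + b * C ^ 2 - a * b * D ^ 2) →
        q / P = (A / P) ^ 2 - (a * (B / P) ^ 2 + b * (C / P) ^ 2 - a * b * (D / P) ^ 2) := by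
      intro P hP q A B C D hq
      field_simp
      linear_combination hq
    rw [h1]
    have h4 := h3 _ hy0 _ _ _ _ _ h2
    rw [h4]
    simp only [pq, Matrix.cons_val_zero, Matrix.cons_val_one, Matrix.cons_val]

end Pool.Agent.Lib.MeadF
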