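import Mathlib
import Pool.Agent.Lib.MeadF.Orth
import Pool.Agent.Lib.MeadF.Rep
import Pool.Agent.Lib.MeadF.Isom
import Pool.Agent.Lib.MeadF.Grp
import Pool.Agent.Lib.MeadF.OddStep
import Pool.Agent.Lib.MeadF.QuadStep

/-!
# MeadF.Claim (size 250): claim (B) of the paper

Strong induction on `finrank ℚ lt - finrank ℚ l` (for all `a, b`). `F0 = adjoin ℚ (range t)`, `E = F0 ⊔ l`.
* `l = lt`: `hiso` and `iso_of_pf` (a version for `IsoIn`: `x s ↦ ![x s, 0, 0, 0]`).
* `l < lt`: `lt / l` is Galois (`IsGalois.tower_top_of_isScalarTower`, or `IntermediateField.extendScalars`), of degree `> 1`: `exists_theta` gives `θ ∈ lt`. Note `l ⊔ adjoin ℚ {θ} ≤ lt` has larger degree than `l` if `θ ∉ l`.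
  ODD case: `exists_odd_root l E` gives `θ'` with the same minimal polynomial over `l` (so `θ' ∉ l`, and `θ' ∈ lt` by normality: the minimal polynomial splits in `lt`, or `minpoly ℚ`), `(minpoly E θ').natDegree` odd; induction for
  `l' = l ⊔ adjoin ℚ {θ'}` (`Nice` is kept: `nice_map` for `l ≤ l'`), `F0 ⊔ l' = E ⊔ adjoin ℚ {θ'}`, `odd_step`.
  QUADRATIC case (`θ ∉ l`, `θ² ∈ l`): `l' = l ⊔ adjoin ℚ {θ}`. If `θ ∈ E`: `F0 ⊔ l' = E`, induction for `l'` and the same `a, b`. Otherwise: if `a` is a square in `l`, `a = r²`, then `nf a b ![r, 1, 0, 0] = 0`: `iso_of_nf`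
  (transported from `l` to `E`). Otherwise `rep` (over `l`; totally complex because `i ∈ l`: lemma `totallyComplex` in `Pool.Agent.Lib.MP_fa3e6c_al.PairL` or directly) with `δ = θ²`: first alternative: `iso_of_nf`; second:
  `θ² = x₀² - pq a b x`, so `e = pq a b x = x₀² - θ² ≠ 0` (`θ ∉ l`). `exists_orth` gives `r`, `c = pq a b r` nice. Induction for `l'` and the pair `(c, x₀ + θ)` (both nonzero, `c` nice in `l'`): `IsoIn (F0 ⊔ l') c (x₀ + θ) t`; swap
  (`Iso.swap`), `quad_step_in` with `S = E`: `IsoIn E e c t`; `iso_change` over `E`: `IsoIn E a b t`.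
-/

set_option autoImplicit false

namespace Pool.Agent.Lib.MeadF

private theorem totallyComplex' {F : Type*} [Field F] [NumberField F] (j : F) (hj : j ^ 2 = -1) :
    NumberField.IsTotallyComplex F := by
  refine ⟨fun v => ?_⟩
  rw [← NumberField.InfinitePlace.not_isReal_iff_isComplex]
  intro hv
  have h := congrArg (NumberField.InfinitePlace.embedding_of_isReal hv) hj
  rw [map_pow, map_neg, map_one] at h
  nlinarith [sq_nonneg (NumberField.InfinitePlace.embedding_of_isReal hv j)]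

private theorem nf_of_le {Ω : Type*} [Field Ω] [CharZero Ω] {l lt : IntermediateField ℚ Ω}
    [FiniteDimensional ℚ lt] (h : l ≤ lt) : NumberField l := by
  have h1 : FiniteDimensional ℚ l := by
    exact FiniteDimensional.of_injective (IntermediateField.inclusion h).toLinearMap
      (IntermediateField.inclusion_injective h)
  exact ⟨⟩

private theorem niceIn_mono {Ω : Type*} [Field Ω] [CharZero Ω] {l l' : IntermediateField ℚ Ω}
    (h : l ≤ l') (hl' : NumberField l') {a : Ω} (ha : NiceIn l a) : NiceIn l' a := by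
  obtain ⟨hN, hal, hn⟩ := ha
  let : Algebra l l' := (IntermediateField.inclusion h).toRingHom.toAlgebra
  have h1 : Nice (algebraMap l l' ⟨a, hal⟩) := nice_map hn
  have h2 : algebraMap l l' ⟨a, hal⟩ = ⟨a, h hal⟩ := rfl
  rw [h2] at h1
  exact ⟨hl', h hal, h1⟩

private theorem finrank_lt' {Ω : Type*} [Field Ω] [CharZero Ω] {l l' lt : IntermediateField ℚ Ω}
    [FiniteDimensional ℚ lt] (hl' : l' ≤ lt) (h : l ≤ l') (hne : l ≠ l') :
    Module.finrank ℚ l < Module.finrank ℚ l' := by
  have h1 : FiniteDimensional ℚ l' := by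
    exact FiniteDimensional.of_injective (IntermediateField.inclusion hl').toLinearMap
      (IntermediateField.inclusion_injective hl')
  by_contra hcon
  exact hne (IntermediateField.eq_of_le_of_finrank_le h (not_lt.mp hcon))

/-- the choice of `θ` inside `Ω` -/
private theorem theta_in {Ω : Type*} [Field Ω] [CharZero Ω] {l lt : IntermediateField ℚ Ω}
    [FiniteDimensional ℚ lt] [IsGalois ℚ lt] (hl : l ≤ lt) (hne : l ≠ lt) :
    (∃ θ : Ω, Odd (minpoly l θ).natDegree ∧ 1 < (minpoly l θ).natDegree ∧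
      ∀ θ' : Ω, minpoly l θ' = minpoly l θ → θ' ∈ lt) ∨
      ∃ θ : Ω, θ ∈ lt ∧ θ ∉ l ∧ θ ^ 2 ∈ l := by
  let : Algebra l lt := (IntermediateField.inclusion hl).toAlgebra
  have : IsScalarTower ℚ l lt := IsScalarTower.of_algebraMap_eq fun x => rfl
  have : IsScalarTower l lt Ω := IsScalarTower.of_algebraMap_eq fun x => rfl
  have : FiniteDimensional l lt := FiniteDimensional.right ℚ l lt
  have : IsGalois l lt := IsGalois.tower_top_of_isGalois ℚ l lt
  have hfr : 1 < Module.finrank l lt := by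
    have h1 : Module.finrank ℚ l * Module.finrank l lt = Module.finrank ℚ lt :=
      Module.finrank_mul_finrank ℚ l lt
    have h2 : Module.finrank ℚ l < Module.finrank ℚ lt := finrank_lt' le_rfl hl hne
    by_contra hcon
    have h3 : Module.finrank l lt ≤ 1 := not_lt.mp hcon
    have h4 : Module.finrank ℚ l * Module.finrank l lt ≤ Module.finrank ℚ l * 1 :=
      Nat.mul_le_mul_left _ h3
    omega
  rcases exists_theta hfr with ⟨θ, hodd, h1⟩ | ⟨θ, hθ, hθ2⟩
  · left
    have hmin : minpoly l (θ : Ω) = minpoly l θ :=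
      minpoly.algebraMap_eq (algebraMap lt Ω).injective θ
    refine ⟨(θ : Ω), by rw [hmin]; exact hodd, by rw [hmin]; exact h1, ?_⟩
    intro θ' hθ'
    have hint : IsIntegral l θ := IsIntegral.of_finite l θ
    have hsplit : ((minpoly l θ).map (algebraMap l lt)).Splits :=
      Normal.splits inferInstance θ
    have hne0 : (minpoly l θ).map (algebraMap l lt) ≠ 0 :=
      Polynomial.map_ne_zero (minpoly.ne_zero hint)
    have hroot : (((minpoly l θ).map (algebraMap l lt)).map (algebraMap lt Ω)).IsRoot θ' := by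
      rw [Polynomial.map_map, ← IsScalarTower.algebraMap_eq l lt Ω, ← hmin, ← hθ',
        Polynomial.IsRoot.def, Polynomial.eval_map_algebraMap]
      exact minpoly.aeval l θ'
    obtain ⟨y, hy⟩ := hsplit.mem_range_of_isRoot hne0 hroot
    rw [← hy]
    exact y.2
  · right
    refine ⟨(θ : Ω), θ.2, ?_, ?_⟩
    · intro hcon
      exact hθ ⟨⟨(θ : Ω), hcon⟩, Subtype.ext rfl⟩
    · obtain ⟨y, hy⟩ := hθ2
      have h1 : ((y : l) : Ω) = (θ : Ω) ^ 2 := by
        have h2 := congrArg (fun z : lt => (z : Ω)) hy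
        exact h2
      rw [← h1]
      exact y.2

private theorem claim_aux {Ω : Type*} [Field Ω] [CharZero Ω] [IsAlgClosed Ω] {n : ℕ}
    (t : Fin n → Ω) (ht0 : ∀ j, t j ≠ 0) (i : Ω) (hi : i ^ 2 = -1) (lt : IntermediateField ℚ Ω)
    [FiniteDimensional ℚ lt] [IsGalois ℚ lt]
    (hiso : ∃ x : (Fin n → Bool) → Ω, x ≠ 0 ∧
      (∀ s, x s ∈ IntermediateField.adjoin ℚ (Set.range t) ⊔ lt) ∧ pf t x = 0) (m : ℕ) :
    ∀ (l : IntermediateField ℚ Ω), l ≤ lt → i ∈ l →
      Module.finrank ℚ lt ≤ Module.finrank ℚ l + m → ∀ (a b : Ω), NiceIn l a → a ≠ 0 →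
      b ∈ l → b ≠ 0 → IsoIn (IntermediateField.adjoin ℚ (Set.range t) ⊔ l) a b t := by
  induction m with
  | zero =>
    intro l hl _ hm a b _ _ _ _
    have hlt : l = lt := by
      by_contra hne
      have := finrank_lt' le_rfl hl hne
      omega
    subst hlt
    obtain ⟨x, hx, hS, h0⟩ := hiso
    refine ⟨fun s => ![x s, 0, 0, 0], ?_, ?_, ?_⟩
    · intro hcon
      apply hx
      funext s
      have := congrFun (congrFun hcon s) 0
      simpa using this
    · intro s j
      fin_cases j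
      · exact hS s
      · exact zero_mem _
      · exact zero_mem _
      · exact zero_mem _
    · refine Eq.trans ?_ h0
      simp only [qf, pf]
      refine Finset.sum_congr rfl fun s _ => ?_
      simp [nf]
  | succ m ih =>
    intro l hl hil hm a b ha ha0 hb hb0
    by_cases hne : l = lt
    · refine ih l hl hil ?_ a b ha ha0 hb hb0
      rw [hne]
      omega
    set F0 := IntermediateField.adjoin ℚ (Set.range t) with hF0
    have htF : ∀ j, t j ∈ F0 := fun j => IntermediateField.subset_adjoin ℚ _ ⟨j, rfl⟩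
    have htE : ∀ j, t j ∈ F0 ⊔ l := fun j => (le_sup_left : F0 ≤ F0 ⊔ l) (htF j)
    have hlE : l ≤ F0 ⊔ l := le_sup_right
    have haN := ha
    obtain ⟨hN, hal, hn⟩ := ha
    rcases theta_in hl hne with ⟨θ, hodd, h1, hconj⟩ | ⟨θ, hθlt, hθl, hθ2⟩
    · obtain ⟨θ', hθ', hodd'⟩ := exists_odd_root l (F0 ⊔ l) hlE θ hodd
      have hθlt : θ' ∈ lt := hconj θ' hθ'
      have hθl : θ' ∉ l := by
        intro hcon
        have h2 : minpoly l θ' = Polynomial.X - Polynomial.C (⟨θ', hcon⟩ : l) :=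
          minpoly.eq_X_sub_C Ω (⟨θ', hcon⟩ : l)
        rw [← hθ', h2, Polynomial.natDegree_X_sub_C] at h1
        omega
      have hl'lt : l ⊔ IntermediateField.adjoin ℚ {θ'} ≤ lt :=
        sup_le hl (by rw [IntermediateField.adjoin_simple_le_iff]; exact hθlt)
      have hθl' : θ' ∈ l ⊔ IntermediateField.adjoin ℚ {θ'} :=
        (le_sup_right : _ ≤ l ⊔ IntermediateField.adjoin ℚ {θ'})
          (IntermediateField.mem_adjoin_simple_self ℚ θ')
      have hne' : l ≠ l ⊔ IntermediateField.adjoin ℚ {θ'} := by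
        intro hcon
        rw [← hcon] at hθl'
        exact hθl hθl'
      have hfr := finrank_lt' hl'lt le_sup_left hne'
      have hN' : NumberField (l ⊔ IntermediateField.adjoin ℚ {θ'} : IntermediateField ℚ Ω) :=
        nf_of_le hl'lt
      have h3 := ih (l ⊔ IntermediateField.adjoin ℚ {θ'}) hl'lt
        ((le_sup_left : l ≤ l ⊔ IntermediateField.adjoin ℚ {θ'}) hil) (by omega) a b
        (niceIn_mono le_sup_left hN' haN) ha0
        ((le_sup_left : l ≤ l ⊔ IntermediateField.adjoin ℚ {θ'}) hb) hb0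
      rw [← sup_assoc] at h3
      exact odd_step (F0 ⊔ l) (hlE hal) (hlE hb) htE θ' hodd' h3
    · have hl'lt : l ⊔ IntermediateField.adjoin ℚ {θ} ≤ lt :=
        sup_le hl (by rw [IntermediateField.adjoin_simple_le_iff]; exact hθlt)
      have hll' : l ≤ l ⊔ IntermediateField.adjoin ℚ {θ} := le_sup_left
      have hθl' : θ ∈ l ⊔ IntermediateField.adjoin ℚ {θ} :=
        (le_sup_right : _ ≤ l ⊔ IntermediateField.adjoin ℚ {θ})
          (IntermediateField.mem_adjoin_simple_self ℚ θ)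
      have hne' : l ≠ l ⊔ IntermediateField.adjoin ℚ {θ} := by
        intro hcon
        rw [← hcon] at hθl'
        exact hθl hθl'
      have hfr := finrank_lt' hl'lt le_sup_left hne'
      have hN' : NumberField (l ⊔ IntermediateField.adjoin ℚ {θ} : IntermediateField ℚ Ω) :=
        nf_of_le hl'lt
      by_cases hθE : θ ∈ F0 ⊔ l
      · have h3 := ih (l ⊔ IntermediateField.adjoin ℚ {θ}) hl'lt (hll' hil) (by omega) a b
          (niceIn_mono le_sup_left hN' haN) ha0 (hll' hb) hb0
        rw [← sup_assoc] at h3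
        have h4 : (F0 ⊔ l) ⊔ IntermediateField.adjoin ℚ {θ} = F0 ⊔ l := by
          rw [sup_eq_left, IntermediateField.adjoin_simple_le_iff]
          exact hθE
        rw [h4] at h3
        exact h3
      -- the field `l` as a number field
      have hzero : ∀ y : Fin 4 → l, y ≠ 0 → nf (⟨a, hal⟩ : l) (⟨b, hb⟩ : l) y = 0 →
          IsoIn (F0 ⊔ l) a b t := by
        intro y hy hy0
        rw [isoIn_iff (hlE hal) (hlE hb) htE]
        refine iso_of_nf _ (y := fun j => ⟨(y j : Ω), hlE (y j).2⟩) ?_ ?_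
        · intro hcon
          apply hy
          funext j
          have h5 := congrArg Subtype.val (congrFun hcon j)
          exact Subtype.ext h5
        · apply Subtype.ext
          have h5 := congrArg (fun z : l => (z : Ω)) hy0
          simpa [nf] using h5
      by_cases hsq : IsSquare (⟨a, hal⟩ : l)
      · obtain ⟨r, hr⟩ := hsq
        refine hzero ![r, 1, 0, 0] ?_ ?_
        · intro hcon
          have := congrFun hcon 1
          simp at this
        · rw [hr]
          simp only [nf, Matrix.cons_val_zero, Matrix.cons_val_one, Matrix.cons_val]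
          ring
      have hTC : NumberField.IsTotallyComplex l :=
        totallyComplex' (⟨i, hil⟩ : l) (Subtype.ext (by simpa using hi))
      have hal0 : (⟨a, hal⟩ : l) ≠ 0 := fun h => ha0 (congrArg Subtype.val h)
      have hbl0 : (⟨b, hb⟩ : l) ≠ 0 := fun h => hb0 (congrArg Subtype.val h)
      rcases rep hal0 hbl0 hn (⟨θ ^ 2, hθ2⟩ : l) with ⟨y, hy, hy0⟩ | ⟨x0, x, hx⟩
      · exact hzero y hy hy0
      have hpq : pq (⟨a, hal⟩ : l) (⟨b, hb⟩ : l) x ≠ 0 := by
        intro hcon
        rw [hcon, sub_zero] at hx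
        have h5 : θ ^ 2 = (x0 : Ω) ^ 2 := by
          have h6 := congrArg (fun z : l => (z : Ω)) hx
          simpa using h6
        rcases sq_eq_sq_iff_eq_or_eq_neg.mp h5 with h6 | h6
        · exact hθl (h6 ▸ x0.2)
        · exact hθl (h6 ▸ neg_mem x0.2)
      obtain ⟨r, horth, hr0, hrn⟩ := exists_orth hal0 hn hsq hbl0 x hpq
      set c : l := pq (⟨a, hal⟩ : l) (⟨b, hb⟩ : l) r with hc
      set e : l := pq (⟨a, hal⟩ : l) (⟨b, hb⟩ : l) x with he
      have hcN : NiceIn l (c : Ω) := ⟨hN, c.2, hrn⟩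
      have hc0 : (c : Ω) ≠ 0 := fun h => hr0 (Subtype.ext h)
      have heΩ : (e : Ω) = (x0 : Ω) ^ 2 - θ ^ 2 := by
        have h6 := congrArg (fun z : l => (z : Ω)) hx
        have h7 : θ ^ 2 = (x0 : Ω) ^ 2 - (e : Ω) := by simpa using h6
        rw [h7]
        ring
      have hβ0 : (x0 : Ω) + θ ≠ 0 := by
        intro hcon
        have h6 : θ = -(x0 : Ω) := by linear_combination hcon
        exact hθl (h6 ▸ neg_mem x0.2)
      have h3 := ih (l ⊔ IntermediateField.adjoin ℚ {θ}) hl'lt (hll' hil) (by omega)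
        (c : Ω) ((x0 : Ω) + θ) (niceIn_mono le_sup_left hN' hcN) hc0
        (add_mem (hll' x0.2) hθl') hβ0
      rw [← sup_assoc] at h3
      -- swap
      have hlE' : F0 ⊔ l ≤ (F0 ⊔ l) ⊔ IntermediateField.adjoin ℚ {θ} := le_sup_left
      have hcE' : (c : Ω) ∈ (F0 ⊔ l) ⊔ IntermediateField.adjoin ℚ {θ} := hlE' (hlE c.2)
      have hθE' : θ ∈ (F0 ⊔ l) ⊔ IntermediateField.adjoin ℚ {θ} :=
        (le_sup_right : _ ≤ (F0 ⊔ l) ⊔ IntermediateField.adjoin ℚ {θ})
          (IntermediateField.mem_adjoin_simple_self ℚ θ)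
      have hβE' : (x0 : Ω) + θ ∈ (F0 ⊔ l) ⊔ IntermediateField.adjoin ℚ {θ} :=
        add_mem (hlE' (hlE x0.2)) hθE'
      have htE' : ∀ j, t j ∈ (F0 ⊔ l) ⊔ IntermediateField.adjoin ℚ {θ} :=
        fun j => hlE' (htE j)
      rw [isoIn_iff hcE' hβE' htE'] at h3
      have h4 := (isoIn_iff hβE' hcE' htE').mpr h3.swap
      have hθ2E : θ ^ 2 ∈ F0 ⊔ l := hlE hθ2
      have h5 := quad_step_in (F0 ⊔ l) htE ht0 (hlE c.2) hc0 (hlE x0.2) hθE hθ2E h4
      rw [← heΩ, isoIn_iff (hlE e.2) (hlE c.2) htE] at h5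
      rw [isoIn_iff (hlE hal) (hlE hb) htE]
      -- the inclusion of `l` in `F0 ⊔ l`
      let f : l →+* (F0 ⊔ l : IntermediateField ℚ Ω) := (IntermediateField.inclusion hlE).toRingHom
      have hfe : f e = ⟨(e : Ω), hlE e.2⟩ := rfl
      have hfc : f c = ⟨(c : Ω), hlE c.2⟩ := rfl
      have hfa : f ⟨a, hal⟩ = ⟨a, hlE hal⟩ := rfl
      have hfb : f ⟨b, hb⟩ = ⟨b, hlE hb⟩ := rfl
      have he' : pq (⟨a, hlE hal⟩ : (F0 ⊔ l : IntermediateField ℚ Ω)) ⟨b, hlE hb⟩
          (fun j => f (x j)) = ⟨(e : Ω), hlE e.2⟩ := by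
        rw [← hfe, ← hfa, ← hfb, he, map_pq]
      have hc' : pq (⟨a, hlE hal⟩ : (F0 ⊔ l : IntermediateField ℚ Ω)) ⟨b, hlE hb⟩
          (fun j => f (r j)) = ⟨(c : Ω), hlE c.2⟩ := by
        rw [← hfc, ← hfa, ← hfb, hc, map_pq]
      refine iso_change _ _ _ (fun j => f (x j)) (fun j => f (r j)) ?_ ?_ ?_ ?_
      · have h6 := congrArg f horth
        rw [map_zero] at h6
        rw [← hfa, ← hfb, ← h6]
        simp only [map_add, map_sub, map_mul]
      · rw [he']
        intro hcon
        have h6 : (e : Ω) = 0 := congrArg Subtype.val hcon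
        exact hpq (Subtype.ext h6)
      · rw [hc']
        intro hcon
        have h6 : (c : Ω) = 0 := congrArg Subtype.val hcon
        exact hc0 h6
      · rw [he', hc']
        exact h5

theorem claim {Ω : Type*} [Field Ω] [CharZero Ω] [IsAlgClosed Ω] {n : ℕ} (t : Fin n → Ω)
    (ht0 : ∀ j, t j ≠ 0) (i : Ω) (hi : i ^ 2 = -1) (lt : IntermediateField ℚ Ω)
    [FiniteDimensional ℚ lt] [IsGalois ℚ lt]
    (hiso : ∃ x : (Fin n → Bool) → Ω, x ≠ 0 ∧
      (∀ s, x s ∈ IntermediateField.adjoin ℚ (Set.range t) ⊔ lt) ∧ pf t x = 0)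
    (l : IntermediateField ℚ Ω) (hl : l ≤ lt) (hil : i ∈ l) (a b : Ω) (ha : NiceIn l a)
    (ha0 : a ≠ 0) (hb : b ∈ l) (hb0 : b ≠ 0) :
    IsoIn (IntermediateField.adjoin ℚ (Set.range t) ⊔ l) a b t := by
  exact claim_aux t ht0 i hi lt hiso (Module.finrank ℚ lt) l hl hil (by omega) a b ha ha0 hb hb0

end Pool.Agent.Lib.MeadF
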