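import Mathlib
import Pool.Agent.Lib.MP_fa3e6c_al.Defs
import Pool.Agent.Lib.MeadF.Basic

/-!
# MeadF.EncN: the finite set of identities
-/

set_option autoImplicit false

universe u w

namespace Pool.Agent.Lib.MeadF

open Pool.Agent.Lib.MP_fa3e6c_al

/-- the conditions imposed by the finite presentation, in an arbitrary field `A` with constants `c` -/
structure GoodN {n m : ℕ} (G : Finset (MvPolynomial (Fin (n + m)) ℤ)) (p u : ℕ) (A : Type u)
    [Field A] (c : Fin (n + m) → A) : Prop where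
  sq : ∀ x : A, (x ^ 2 - (p : A)) * (x ^ 2 - (u : A)) * (x ^ 2 - (p : A) * (u : A)) ≠ 0
  rel : ∀ g ∈ G, MvPolynomial.aeval c g = 0
  form : ∀ x y : (Fin n → Bool) → Fin 4 → A,
    qf (p : A) (u : A) (fun j => c (Fin.castAdd m j)) x =
      qf (p : A) (u : A) (fun j => c (Fin.castAdd m j)) y →
    qb (p : A) (u : A) (fun j => c (Fin.castAdd m j)) x y = 0 → x = 0 ∧ y = 0

/-- numerals -/
private def numT {C V : Type} : ℕ → Tm C V
  | 0 => Tm.zero
  | n + 1 => Tm.add (numT n) Tm.one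

private lemma eval_numT {C V : Type} {A : Type w} [Field A] (c : C → A) (v : V → A) (n : ℕ) :
    (numT n : Tm C V).eval c v = (n : A) := by
  induction n with
  | zero => simp [numT, Tm.eval]
  | succ n ih => simp only [numT, Tm.eval, ih]; push_cast; ring

private def intT {C V : Type} : ℤ → Tm C V
  | Int.ofNat n => numT n
  | Int.negSucc n => Tm.neg (numT (n + 1))

private lemma eval_intT {C V : Type} {A : Type w} [Field A] (c : C → A) (v : V → A) (n : ℤ) :
    (intT n : Tm C V).eval c v = (n : A) := by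
  cases n with
  | ofNat n => simp [intT, eval_numT]
  | negSucc n => simp only [intT, Tm.eval, eval_numT]; push_cast; ring

private lemma exists_tm {N : ℕ} (P : MvPolynomial (Fin N ⊕ ℕ) ℤ) :
    ∃ τ : Tm (Fin N) ℕ,
      (∀ (A : Type u) [Field A] (c : Fin N → A) (v : ℕ → A),
        τ.eval c v = MvPolynomial.aeval (Sum.elim c v) P) ∧
      (∀ (A : Type) [Field A] (c : Fin N → A) (v : ℕ → A),
        τ.eval c v = MvPolynomial.aeval (Sum.elim c v) P) := by
  induction P using MvPolynomial.induction_on with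
  | C a => exact ⟨intT a, fun A _ c v => by rw [eval_intT]; simp,
      fun A _ c v => by rw [eval_intT]; simp⟩
  | add P Q hP hQ =>
    obtain ⟨s, hs, hs'⟩ := hP
    obtain ⟨t, ht, ht'⟩ := hQ
    exact ⟨Tm.add s t, fun A _ c v => by rw [Tm.eval, hs, ht, map_add],
      fun A _ c v => by rw [Tm.eval, hs', ht', map_add]⟩
  | mul_X P i hP =>
    obtain ⟨s, hs, hs'⟩ := hP
    cases i with
    | inl i => exact ⟨Tm.mul s (Tm.cst i),
        fun A _ c v => by rw [Tm.eval, Tm.eval, hs, map_mul, MvPolynomial.aeval_X, Sum.elim_inl],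
        fun A _ c v => by rw [Tm.eval, Tm.eval, hs', map_mul, MvPolynomial.aeval_X, Sum.elim_inl]⟩
    | inr i => exact ⟨Tm.mul s (Tm.var i),
        fun A _ c v => by rw [Tm.eval, Tm.eval, hs, map_mul, MvPolynomial.aeval_X, Sum.elim_inr],
        fun A _ c v => by rw [Tm.eval, Tm.eval, hs', map_mul, MvPolynomial.aeval_X, Sum.elim_inr]⟩

private noncomputable def PF {N : ℕ} (p u : ℕ) : MvPolynomial (Fin N ⊕ ℕ) ℤ :=
  (MvPolynomial.X (Sum.inr 0) ^ 2 - (p : MvPolynomial (Fin N ⊕ ℕ) ℤ)) *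
    (MvPolynomial.X (Sum.inr 0) ^ 2 - (u : MvPolynomial (Fin N ⊕ ℕ) ℤ)) *
    (MvPolynomial.X (Sum.inr 0) ^ 2 -
      (p : MvPolynomial (Fin N ⊕ ℕ) ℤ) * (u : MvPolynomial (Fin N ⊕ ℕ) ℤ))

private lemma aeval_PF {N : ℕ} (p u : ℕ) {A : Type w} [Field A] (c : Fin N → A)
    (v : ℕ → A) : MvPolynomial.aeval (Sum.elim c v) (PF (N := N) p u) =
      (v 0 ^ 2 - (p : A)) * (v 0 ^ 2 - (u : A)) * (v 0 ^ 2 - (p : A) * (u : A)) := by
  simp only [PF, map_mul, map_sub, map_pow, MvPolynomial.aeval_X, Sum.elim_inr, map_natCast]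

/-- indices of the variables -/
private abbrev Ix (n : ℕ) : Type := ((Fin n → Bool) × Fin 4) ⊕ ((Fin n → Bool) × Fin 4)

private noncomputable def ix (n : ℕ) (a : Ix n) : ℕ := (Fintype.equivFin (Ix n) a : ℕ)

private lemma ix_inj (n : ℕ) : Function.Injective (ix n) := by
  intro a b h
  exact (Fintype.equivFin (Ix n)).injective (Fin.ext h)

private noncomputable def PA (n m : ℕ) (p u : ℕ) : MvPolynomial (Fin (n + m) ⊕ ℕ) ℤ :=
  qf (p : MvPolynomial (Fin (n + m) ⊕ ℕ) ℤ) (u : MvPolynomial (Fin (n + m) ⊕ ℕ) ℤ)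
      (fun j => MvPolynomial.X (Sum.inl (Fin.castAdd m j)))
      (fun s i => MvPolynomial.X (Sum.inr (ix n (Sum.inl (s, i))))) -
    qf (p : MvPolynomial (Fin (n + m) ⊕ ℕ) ℤ) (u : MvPolynomial (Fin (n + m) ⊕ ℕ) ℤ)
      (fun j => MvPolynomial.X (Sum.inl (Fin.castAdd m j)))
      (fun s i => MvPolynomial.X (Sum.inr (ix n (Sum.inr (s, i)))))

private noncomputable def PB (n m : ℕ) (p u : ℕ) : MvPolynomial (Fin (n + m) ⊕ ℕ) ℤ :=
  qb (p : MvPolynomial (Fin (n + m) ⊕ ℕ) ℤ) (u : MvPolynomial (Fin (n + m) ⊕ ℕ) ℤ)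
      (fun j => MvPolynomial.X (Sum.inl (Fin.castAdd m j)))
      (fun s i => MvPolynomial.X (Sum.inr (ix n (Sum.inl (s, i)))))
      (fun s i => MvPolynomial.X (Sum.inr (ix n (Sum.inr (s, i)))))

private lemma aeval_PA {n m : ℕ} (p u : ℕ) {A : Type w} [Field A] (c : Fin (n + m) → A)
    (v : ℕ → A) : MvPolynomial.aeval (Sum.elim c v) (PA n m p u) =
      qf (p : A) (u : A) (fun j => c (Fin.castAdd m j)) (fun s i => v (ix n (Sum.inl (s, i)))) -
        qf (p : A) (u : A) (fun j => c (Fin.castAdd m j))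
          (fun s i => v (ix n (Sum.inr (s, i)))) := by
  have h := map_qf (MvPolynomial.aeval (Sum.elim c v) :
    MvPolynomial (Fin (n + m) ⊕ ℕ) ℤ →ₐ[ℤ] A).toRingHom
    (p : MvPolynomial (Fin (n + m) ⊕ ℕ) ℤ) (u : MvPolynomial (Fin (n + m) ⊕ ℕ) ℤ)
    (fun j => MvPolynomial.X (Sum.inl (Fin.castAdd m j)))
  simp only [AlgHom.toRingHom_eq_coe, RingHom.coe_coe, map_natCast, MvPolynomial.aeval_X,
    Sum.elim_inl] at h
  rw [PA, map_sub, h, h]
  simp only [MvPolynomial.aeval_X, Sum.elim_inr]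

private lemma aeval_PB {n m : ℕ} (p u : ℕ) {A : Type w} [Field A] (c : Fin (n + m) → A)
    (v : ℕ → A) : MvPolynomial.aeval (Sum.elim c v) (PB n m p u) =
      qb (p : A) (u : A) (fun j => c (Fin.castAdd m j)) (fun s i => v (ix n (Sum.inl (s, i))))
          (fun s i => v (ix n (Sum.inr (s, i)))) := by
  have h := map_qb (MvPolynomial.aeval (Sum.elim c v) :
    MvPolynomial (Fin (n + m) ⊕ ℕ) ℤ →ₐ[ℤ] A).toRingHom
    (p : MvPolynomial (Fin (n + m) ⊕ ℕ) ℤ) (u : MvPolynomial (Fin (n + m) ⊕ ℕ) ℤ)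
    (fun j => MvPolynomial.X (Sum.inl (Fin.castAdd m j)))
  simp only [AlgHom.toRingHom_eq_coe, RingHom.coe_coe, map_natCast, MvPolynomial.aeval_X,
    Sum.elim_inl] at h
  rw [PB, h]
  simp only [MvPolynomial.aeval_X, Sum.elim_inr]

open Tm in
/-- the set of identities -/
private def EE {n N : ℕ} (G : Finset (MvPolynomial (Fin N) ℤ)) (tf tA tB : Tm (Fin N) ℕ)
    (tg : MvPolynomial (Fin N) ℤ → Tm (Fin N) ℕ) : Set (Idt (Fin N)) :=
  {(mul tf (inv tf), one)} ∪ (fun g => (tg g, zero)) '' (G : Set (MvPolynomial (Fin N) ℤ)) ∪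
    (fun i : ℕ => (mul (var i) (mul (add one (neg (mul tA (inv tA))))
      (add one (neg (mul tB (inv tB))))), zero)) '' Set.range (ix n)

private lemma EE_finite {n N : ℕ} (G : Finset (MvPolynomial (Fin N) ℤ))
    (tf tA tB : Tm (Fin N) ℕ) (tg : MvPolynomial (Fin N) ℤ → Tm (Fin N) ℕ) :
    (EE (n := n) G tf tA tB tg).Finite :=
  ((Set.finite_singleton _).union ((Finset.finite_toSet G).image _)).union
    ((Set.finite_range _).image _)

private lemma sat_EE {n m : ℕ} (G : Finset (MvPolynomial (Fin (n + m)) ℤ)) (p u : ℕ)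
    (tf tA tB : Tm (Fin (n + m)) ℕ) (tg : MvPolynomial (Fin (n + m)) ℤ → Tm (Fin (n + m)) ℕ)
    {A : Type w} [Field A] (c : Fin (n + m) → A)
    (hf : ∀ v, tf.eval c v =
      (v 0 ^ 2 - (p : A)) * (v 0 ^ 2 - (u : A)) * (v 0 ^ 2 - (p : A) * (u : A)))
    (hA : ∀ v : ℕ → A, tA.eval c v =
      qf (p : A) (u : A) (fun j => c (Fin.castAdd m j)) (fun s i => v (ix n (Sum.inl (s, i)))) -
        qf (p : A) (u : A) (fun j => c (Fin.castAdd m j)) (fun s i => v (ix n (Sum.inr (s, i)))))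
    (hB : ∀ v : ℕ → A, tB.eval c v =
      qb (p : A) (u : A) (fun j => c (Fin.castAdd m j)) (fun s i => v (ix n (Sum.inl (s, i))))
        (fun s i => v (ix n (Sum.inr (s, i)))))
    (hg : ∀ g, ∀ v, (tg g).eval c v = MvPolynomial.aeval c g) :
    Sat (EE (n := n) G tf tA tB tg) A c ↔ GoodN G p u A c := by
  constructor
  · intro h
    refine ⟨?_, ?_, ?_⟩
    · intro x
      have h1 := h _ (Or.inl (Or.inl rfl)) (fun _ => x)
      simp only [Tm.eval, hf] at h1
      intro h2
      rw [h2, zero_mul] at h1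
      exact zero_ne_one h1
    · intro g hgG
      have h1 := h _ (Or.inl (Or.inr ⟨g, hgG, rfl⟩)) (fun _ => 0)
      simpa only [Tm.eval, hg] using h1
    · intro x y hxA hxB
      obtain ⟨v, hv⟩ : ∃ v : ℕ → A, ∀ a : Ix n,
          v (ix n a) = Sum.elim (fun q => x q.1 q.2) (fun q => y q.1 q.2) a :=
        ⟨Function.extend (ix n) (Sum.elim (fun q => x q.1 q.2) (fun q => y q.1 q.2)) 0,
          fun a => (ix_inj n).extend_apply _ _ a⟩
      have hvx : (fun s i => v (ix n (Sum.inl (s, i)))) = x := by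
        funext s i; rw [hv]; rfl
      have hvy : (fun s i => v (ix n (Sum.inr (s, i)))) = y := by
        funext s i; rw [hv]; rfl
      have key : ∀ a : Ix n, v (ix n a) = 0 := by
        intro a
        have h1 := h _ (Or.inr ⟨ix n a, ⟨a, rfl⟩, rfl⟩) v
        simp only [Tm.eval, hA, hB, hvx, hvy, hxA, hxB, sub_self] at h1
        simpa using h1
      refine ⟨?_, ?_⟩
      · rw [← hvx]; funext s i; exact key _
      · rw [← hvy]; funext s i; exact key _
  · intro h e he v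
    rcases he with (he | he) | he
    · rw [Set.mem_singleton_iff] at he
      subst he
      simp only [Tm.eval, hf]
      exact mul_inv_cancel₀ (h.sq (v 0))
    · obtain ⟨g, hgG, rfl⟩ := he
      simp only [Tm.eval, hg]
      exact h.rel g hgG
    · obtain ⟨_, ⟨a, rfl⟩, rfl⟩ := he
      simp only [Tm.eval, hA, hB]
      by_cases h1 : qf (p : A) (u : A) (fun j => c (Fin.castAdd m j))
            (fun s i => v (ix n (Sum.inl (s, i)))) -
          qf (p : A) (u : A) (fun j => c (Fin.castAdd m j))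
            (fun s i => v (ix n (Sum.inr (s, i)))) = 0
      · by_cases h2 : qb (p : A) (u : A) (fun j => c (Fin.castAdd m j))
            (fun s i => v (ix n (Sum.inl (s, i)))) (fun s i => v (ix n (Sum.inr (s, i)))) = 0
        · obtain ⟨h3, h4⟩ := h.form _ _ (sub_eq_zero.mp h1) h2
          have h5 : v (ix n a) = 0 := by
            rcases a with ⟨s, i⟩ | ⟨s, i⟩
            · exact congrFun (congrFun h3 s) i
            · exact congrFun (congrFun h4 s) i
          rw [h5, zero_mul]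
        · rw [mul_inv_cancel₀ h2]; ring
      · rw [mul_inv_cancel₀ h1]; ring

theorem exists_EN {n m : ℕ} (G : Finset (MvPolynomial (Fin (n + m)) ℤ)) (p u : ℕ) :
    ∃ E : Set (Idt (Fin (n + m))), E.Finite ∧
      (∀ (A : Type u) [Field A] (c : Fin (n + m) → A), Sat E A c ↔ GoodN G p u A c) ∧
      (∀ (A : Type) [Field A] (c : Fin (n + m) → A), Sat E A c ↔ GoodN G p u A c) := by
  choose T hT hT' using fun P => exists_tm.{u} (N := n + m) P
  refine ⟨EE (n := n) G (T (PF p u)) (T (PA n m p u)) (T (PB n m p u))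
    (fun g => T (MvPolynomial.rename Sum.inl g)), EE_finite _ _ _ _ _, ?_, ?_⟩
  · intro A _ c
    apply sat_EE
    · intro v; rw [hT, aeval_PF]
    · intro v; rw [hT, aeval_PA]
    · intro v; rw [hT, aeval_PB]
    · intro g v; rw [hT, MvPolynomial.aeval_rename, Sum.elim_comp_inl]
  · intro A _ c
    apply sat_EE
    · intro v; rw [hT', aeval_PF]
    · intro v; rw [hT', aeval_PA]
    · intro v; rw [hT', aeval_PB]
    · intro g v; rw [hT', MvPolynomial.aeval_rename, Sum.elim_comp_inl]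

end Pool.Agent.Lib.MeadF
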