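import Mathlib
import Pool.Agent.Lib.MeadF.Defs

/-!
# MeadF.TAlg (size 200): systems of quadratic forms over an algebraically closed field

Let `f j = ∑ a, ∑ b, C (M j a b) * X a * X b : MvPolynomial ι C`, `j : κ`, `card κ < card ι`, and suppose that `0` is the only common zero. By the Nullstellensatz (`MvPolynomial.vanishingIdeal_zeroLocus_eq_radical`), every `X a` is in
the radical of `J = span (f j)`: `X a ^ N ∈ J` for one `N` for all `a`. Claim: every polynomial is integral over `A = Algebra.adjoin C (range f)`; equivalently `MvPolynomial ι C` is spanned as an `A`-module by the finitely many monomials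
of degree `< D`, `D = N * card ι + 1` (strong induction on the degree of a homogeneous polynomial `h` of degree `≥ D`: `h` is a combination of monomials each divisible by some `X a ^ N`, so `h ∈ J`, `h = ∑ g j * f j`, and taking
homogeneous components one can choose `g j` homogeneous of degree `deg h - 2`; induction for the `g j`). Hence `MvPolynomial ι C` is integral (module-finite) over `A` and so the transcendence degree of `FractionRing (MvPolynomial ι C)`
(which is `card ι`) is at most `card κ` (`A` is generated by `card κ` elements; e.g. `Algebra.trdeg` of `MvPolynomial` / `algebraicIndependent_X` and `IsTranscendenceBasis` cardinalities; or: the `X a` are algebraic over the algebra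
generated by the `f j`, `AlgebraicIndependent` exchange lemma `AlgebraicIndependent.lift_cardinalMk_le_trdeg`, `Algebra.trdeg_le_cardinalMk`...). Contradiction. Any other proof is welcome (Krull's height theorem
`Ideal.height_le_spanRank_toENat` with `height (X a : a) = card ι`).
-/

set_option autoImplicit false

namespace Pool.Agent.Lib.MeadF

open MvPolynomial in
/-- translation automorphism of the polynomial ring -/
private noncomputable def trans {ι C : Type*} [Field C] (p : ι → C) :
    MvPolynomial ι C ≃ₐ[C] MvPolynomial ι C :=
  AlgEquiv.ofAlgHom (aeval fun i => (X i + MvPolynomial.C (p i) : MvPolynomial ι C))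
    (aeval fun i => (X i - MvPolynomial.C (p i) : MvPolynomial ι C))
    (by
      apply MvPolynomial.algHom_ext
      intro i
      simp only [AlgHom.comp_apply, aeval_X, map_sub, AlgHom.id_apply, algHom_C]
      simp)
    (by
      apply MvPolynomial.algHom_ext
      intro i
      simp only [AlgHom.comp_apply, aeval_X, map_add, AlgHom.id_apply, algHom_C]
      simp)

open MvPolynomial in
private theorem height_point {ι C : Type*} [Field C] (p : ι → C) :
    (vanishingIdeal C {p} : Ideal (MvPolynomial ι C)).height =
      (vanishingIdeal C {(0 : ι → C)} : Ideal (MvPolynomial ι C)).height := by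
  rw [← RingEquiv.height_comap (trans p).toRingEquiv (vanishingIdeal C {(0 : ι → C)})]
  congr 1
  ext f
  rw [Ideal.mem_comap, mem_vanishingIdeal_singleton_iff, mem_vanishingIdeal_singleton_iff]
  have h : aeval (0 : ι → C) ((trans p).toRingEquiv f) = aeval p f := by
    change ((aeval (0 : ι → C) : MvPolynomial ι C →ₐ[C] C).comp
      (aeval fun i => (X i + MvPolynomial.C (p i) : MvPolynomial ι C))) f = aeval p f
    congr 1
    apply MvPolynomial.algHom_ext
    intro i
    simp
  rw [h]

theorem qs_algClosed (C : Type*) [Field C] [IsAlgClosed C] : QS C 1 := by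
  classical
  intro ι κ _ _ hcard M
  by_contra hcon
  push Not at hcon
  let f : κ → MvPolynomial ι C := fun j =>
    ∑ a, ∑ b, MvPolynomial.C (M j a b) * (MvPolynomial.X a * MvPolynomial.X b)
  have hf : ∀ j (x : ι → C), MvPolynomial.aeval x (f j) = ∑ a, ∑ b, M j a b * (x a * x b) := by
    intro j x
    simp [f]
  let J : Ideal (MvPolynomial ι C) := Ideal.span (Set.range f)
  let m : Ideal (MvPolynomial ι C) := MvPolynomial.vanishingIdeal C {(0 : ι → C)}
  have hm : m ∈ J.minimalPrimes := by
    refine ⟨⟨inferInstance, ?_⟩, ?_⟩
    · rw [Ideal.span_le]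
      rintro _ ⟨j, rfl⟩
      rw [SetLike.mem_coe, MvPolynomial.mem_vanishingIdeal_singleton_iff, hf]
      simp
    · rintro P ⟨hP, hJP⟩ hPm
      rw [← MvPolynomial.IsPrime.vanishingIdeal_zeroLocus (K := C) P]
      apply MvPolynomial.vanishingIdeal_anti_mono
      intro x hx
      by_contra hx0
      obtain ⟨j, hj⟩ := hcon x (by simpa using hx0)
      apply hj
      rw [← hf]
      exact hx _ (hJP (Ideal.subset_span ⟨j, rfl⟩))
  have h1 : m.height ≤ (Fintype.card κ : ℕ∞) := by
    refine (Ideal.height_le_card_of_mem_minimalPrimes_span (Set.finite_range f) hm).trans ?_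
    have : (Set.range f).ncard ≤ Fintype.card κ := by
      rw [← Set.image_univ, ← Nat.card_eq_fintype_card, ← Set.ncard_univ]
      exact Set.ncard_image_le (Set.finite_univ)
    exact_mod_cast this
  have h2 : ringKrullDim (MvPolynomial ι C) ≤ (Fintype.card κ : ℕ∞) := by
    rw [ringKrullDim_le_iff_isMaximal_height_le]
    intro I hI
    obtain ⟨x, rfl⟩ := MvPolynomial.isMaximal_iff_eq_vanishingIdeal_singleton.mp hI
    rw [height_point x]
    exact_mod_cast h1
  rw [MvPolynomial.ringKrullDim_of_isNoetherianRing, ringKrullDim_eq_zero_of_field, zero_add,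
    Nat.card_eq_fintype_card] at h2
  have h3 : Fintype.card ι ≤ Fintype.card κ := by exact_mod_cast h2
  omega

end Pool.Agent.Lib.MeadF
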