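import Mathlib
import Pool.Agent.Lib.MeadF.Defs
import Pool.Agent.Lib.Mead.QS

/-!
# MeadF.TFin: systems of quadratic forms over algebraic extensions (from Mead/QS)
-/

set_option autoImplicit false

namespace Pool.Agent.Lib.MeadF

private theorem toGen {F : Type*} [Field F] {lam : ℕ} (h : QS F lam) :
    Pool.Agent.Lib.Mead.Gen.QS F lam :=
  fun r n hc c => h (Fin n) (Fin r) (by simpa using hc) c

private theorem ofGen {F : Type*} [Field F] {lam : ℕ} (h : Pool.Agent.Lib.Mead.Gen.QS F lam) :
    QS F lam :=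
  fun _ _ _ _ hc M => h.fintype hc M

theorem QS.mono {F : Type*} [Field F] {lam lam' : ℕ} (h : QS F lam) (hl : lam ≤ lam') :
    QS F lam' :=
  fun ι κ _ _ hc M => h ι κ (lt_of_le_of_lt (Nat.mul_le_mul_right _ hl) hc) M

theorem qs_algebraic {F F' : Type*} [Field F] [Field F'] [Algebra F F']
    [Algebra.IsAlgebraic F F'] {lam : ℕ} (h : QS F lam) : QS F' lam :=
  ofGen (toGen h).algebraic

theorem qs_finite {F F' : Type*} [Field F] [Field F'] [Algebra F F'] [FiniteDimensional F F']
    {lam : ℕ} (h : QS F lam) : QS F' lam :=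
  qs_algebraic h

end Pool.Agent.Lib.MeadF
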