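import Mathlib
import Pool.Agent.Lib.MeadF.Defs

/-!
# MeadF.TRat (size 200): systems of quadratic forms over a rational function field

`hgen` gives for every `y : F'` polynomials `p, q` with `aeval x q ≠ 0`, `y = aeval x p / aeval x q` (`IntermediateField.mem_adjoin_simple_iff`). Clear denominators: one `q` with `aeval x q ≠ 0` and `M j a b * aeval x q = aeval x (P j a b)`,
`P j a b : F[X]`; let `D` bound the degrees of the `P j a b`. Unknowns: `y : ι × Fin (e + 1) → F`, `X a = ∑ i, C (y (a, i)) * X ^ i`. The polynomial `∑ a, ∑ b, P j a b * (X a * X b)` has degree `≤ 2 e + D`; its coefficient of `X ^ m`,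
`m : Fin (2 e + D + 1)`, is a quadratic form in `y` with coefficients `M' (j, m) (a, i) (b, i') = (P j a b).coeff (m - i - i')` (zero if `m < i + i'`). Number of equations `card κ * (2 e + D + 1)`, unknowns `card ι * (e + 1)`; since
`2 * lam * card κ < card ι`, i.e. `2 lam card κ + 1 ≤ card ι`: `lam * card κ * (2 e + D + 1) < card ι * (e + 1)` for `e = lam * card κ * (D + 1)`. A nontrivial zero gives polynomials `X a`, not all zero, hence `aeval x (X a)` not all zero
(transcendence), and `∑ a, ∑ b, M j a b * ... = 0`.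
-/

set_option autoImplicit false

namespace Pool.Agent.Lib.MeadF

open Polynomial in
private theorem common_den {F F' : Type*} [Field F] [Field F'] [Algebra F F'] (x : F')
    (hgen : IntermediateField.adjoin F {x} = ⊤) {J : Type} [Fintype J] (M : J → F') :
    ∃ (q : F[X]) (P : J → F[X]), aeval x q ≠ 0 ∧ ∀ j, M j * aeval x q = aeval x (P j) := by
  classical
  have h1 : ∀ j, ∃ (r s : F[X]), aeval x s ≠ 0 ∧ M j * aeval x s = aeval x r := by
    intro j
    have h2 : M j ∈ IntermediateField.adjoin F {x} := by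
      rw [hgen]
      exact IntermediateField.mem_top
    obtain ⟨r, s, hrs⟩ := IntermediateField.mem_adjoin_simple_iff F (M j) |>.1 h2
    by_cases hs : aeval x s = 0
    · refine ⟨0, 1, by simp, ?_⟩
      rw [hrs, hs]
      simp
    · refine ⟨r, s, hs, ?_⟩
      rw [hrs]
      field_simp
  choose r s hs hrs using h1
  refine ⟨∏ j, s j, fun j => r j * ∏ i ∈ Finset.univ.erase j, s i, ?_, ?_⟩
  · rw [map_prod]
    exact Finset.prod_ne_zero_iff.2 fun j _ => hs j
  · intro j
    rw [map_mul, ← hrs j, mul_assoc, ← map_mul]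
    rw [Finset.mul_prod_erase _ _ (Finset.mem_univ j)]

open Polynomial in
private theorem aeval_form {F F' : Type*} [Field F] [Field F'] [Algebra F F'] (x : F')
    {ι : Type} [Fintype ι] {e : ℕ} (P : ι → ι → F[X]) (y : ι × Fin (e + 1) → F)
    (h : ∀ m : ℕ, ∑ a, ∑ b, (P a.1 b.1 * X ^ ((a.2 : ℕ) + (b.2 : ℕ))).coeff m * (y a * y b) = 0) :
    ∑ a, ∑ b, aeval x (P a b) * (aeval x (∑ i : Fin (e + 1), C (y (a, i)) * X ^ (i : ℕ)) *
      aeval x (∑ i : Fin (e + 1), C (y (b, i)) * X ^ (i : ℕ))) = 0 := by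
  have h0 : ∑ a, ∑ b, P a b * ((∑ i : Fin (e + 1), C (y (a, i)) * X ^ (i : ℕ)) *
      (∑ i : Fin (e + 1), C (y (b, i)) * X ^ (i : ℕ))) = 0 := by
    ext m
    rw [coeff_zero, ← h m, Fintype.sum_prod_type, finsetSum_coeff]
    refine Finset.sum_congr rfl fun a _ => ?_
    have h2 : ∀ i : Fin (e + 1), ∑ b : ι × Fin (e + 1),
        (P a b.1 * X ^ ((i : ℕ) + (b.2 : ℕ))).coeff m * (y (a, i) * y b) =
        ∑ b : ι, ∑ i' : Fin (e + 1),
        (P a b * X ^ ((i : ℕ) + (i' : ℕ))).coeff m * (y (a, i) * y (b, i')) := by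
      intro i
      rw [Fintype.sum_prod_type]
    simp only [h2]
    rw [Finset.sum_comm, finsetSum_coeff]
    refine Finset.sum_congr rfl fun b _ => ?_
    rw [Finset.sum_mul_sum, Finset.mul_sum, finsetSum_coeff]
    refine Finset.sum_congr rfl fun i _ => ?_
    rw [Finset.mul_sum, finsetSum_coeff]
    refine Finset.sum_congr rfl fun i' _ => ?_
    have h3 : P a b * (C (y (a, i)) * X ^ (i : ℕ) * (C (y (b, i')) * X ^ (i' : ℕ))) =
        C (y (a, i) * y (b, i')) * (P a b * X ^ ((i : ℕ) + (i' : ℕ))) := by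
      rw [C_mul, pow_add]
      ring
    rw [h3, coeff_C_mul, mul_comm]
  have h1 := congrArg (aeval x) h0
  simpa only [map_sum, map_mul, map_zero] using h1

theorem qs_transc {F F' : Type*} [Field F] [Field F'] [Algebra F F'] (x : F')
    (hx : Transcendental F x) (hgen : IntermediateField.adjoin F {x} = ⊤) {lam : ℕ}
    (h : QS F lam) : QS F' (2 * lam) := by
  classical
  intro ι κ _ _ hcard M
  obtain ⟨q, P, hq, hP⟩ := common_den x hgen (J := κ × ι × ι) (fun j => M j.1 j.2.1 j.2.2)
  obtain ⟨D, hD⟩ : ∃ D : ℕ, ∀ j, (P j).natDegree ≤ D :=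
    ⟨Finset.univ.sup fun j => (P j).natDegree, fun j =>
      Finset.le_sup (f := fun j => (P j).natDegree) (Finset.mem_univ j)⟩
  obtain ⟨e, he⟩ : ∃ e : ℕ, e = lam * Fintype.card κ * (D + 1) := ⟨_, rfl⟩
  have hc : lam * Fintype.card (κ × Fin (2 * e + D + 1)) < Fintype.card (ι × Fin (e + 1)) := by
    rw [Fintype.card_prod, Fintype.card_prod, Fintype.card_fin, Fintype.card_fin]
    have h1 : 2 * lam * Fintype.card κ + 1 ≤ Fintype.card ι := hcard
    have h2 : (2 * lam * Fintype.card κ + 1) * (e + 1) ≤ Fintype.card ι * (e + 1) :=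
      Nat.mul_le_mul_right _ h1
    refine lt_of_lt_of_le ?_ h2
    generalize Fintype.card κ = k at *
    have h3 : lam * (k * (2 * e + D + 1)) = 2 * lam * k * e + e := by
      rw [he]
      ring
    rw [h3]
    nlinarith [Nat.zero_le (2 * lam * k)]
  obtain ⟨y, hy, hy0⟩ := h (ι × Fin (e + 1)) (κ × Fin (2 * e + D + 1)) hc
    (fun j a b => (P (j.1, a.1, b.1) * Polynomial.X ^ ((a.2 : ℕ) + (b.2 : ℕ))).coeff (j.2 : ℕ))
  refine ⟨fun a => Polynomial.aeval x (∑ i : Fin (e + 1), Polynomial.C (y (a, i)) *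
    Polynomial.X ^ (i : ℕ)), ?_, ?_⟩
  · intro hcon
    apply hy
    funext ai
    obtain ⟨a, i⟩ := ai
    have h1 : Polynomial.aeval x (∑ i : Fin (e + 1), Polynomial.C (y (a, i)) *
      Polynomial.X ^ (i : ℕ)) = 0 := congrFun hcon a
    have h2 := (transcendental_iff.1 hx) _ h1
    have h3 := congrArg (fun p => p.coeff (i : ℕ)) h2
    simp only [Polynomial.finsetSum_coeff, Polynomial.coeff_C_mul_X_pow, Polynomial.coeff_zero] at h3
    rw [Finset.sum_eq_single i] at h3
    · simpa using h3
    · intro i' _ hne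
      rw [if_neg]
      intro h4
      exact hne (Fin.ext h4.symm)
    · intro h4
      exact absurd (Finset.mem_univ i) h4
  · intro j
    have h1 := aeval_form x (fun a b => P (j, a, b)) y (by
      intro m
      by_cases hm : m < 2 * e + D + 1
      · exact hy0 (j, ⟨m, hm⟩)
      · refine Finset.sum_eq_zero fun a _ => Finset.sum_eq_zero fun b _ => ?_
        rw [Polynomial.coeff_eq_zero_of_natDegree_lt, zero_mul]
        have h2 := hD (j, a.1, b.1)
        have h3 := a.2.isLt
        have h4 := b.2.isLt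
        have h5 : (P (j, a.1, b.1) * Polynomial.X ^ ((a.2 : ℕ) + (b.2 : ℕ))).natDegree ≤
            (P (j, a.1, b.1)).natDegree + ((a.2 : ℕ) + (b.2 : ℕ)) :=
          Polynomial.natDegree_mul_le.trans (Nat.add_le_add_left (Polynomial.natDegree_X_pow_le _) _)
        omega)
    have h2 : (∑ a, ∑ b, M j a b * ((fun a => Polynomial.aeval x
        (∑ i : Fin (e + 1), Polynomial.C (y (a, i)) * Polynomial.X ^ (i : ℕ))) a *
        (fun a => Polynomial.aeval x (∑ i : Fin (e + 1), Polynomial.C (y (a, i)) *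
          Polynomial.X ^ (i : ℕ))) b)) * Polynomial.aeval x q = 0 := by
      rw [← h1, Finset.sum_mul]
      refine Finset.sum_congr rfl fun a _ => ?_
      rw [Finset.sum_mul]
      refine Finset.sum_congr rfl fun b _ => ?_
      rw [← hP (j, a, b)]
      ring
    exact (mul_eq_zero.1 h2).resolve_right hq

end Pool.Agent.Lib.MeadF
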