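import Mathlib
import Pool.Agent.Lib.MeadF.TAlg
import Pool.Agent.Lib.MeadF.TFin
import Pool.Agent.Lib.MeadF.TRat

/-!
# MeadF.TAdj (size 180): Tsen-Lang for quadratic forms, finitely many generators

* `qs_adjoin`: induction on `m`. `m = 0`: `adjoin C ∅ = ⊥ ≃ C` and `qs_algClosed` (`QS` is invariant under ring isomorphisms; or use `qs_algebraic` / `qs_finite` for `⊥` over `C`). `m + 1`: `K₀ = adjoin C (range (init x))`,
  `K₁ = adjoin C (range x) = K₀(x (last m))`; the element is algebraic over `K₀` (then `K₁ / K₀` is finite: `qs_finite`, `QS.mono`) or transcendental (`qs_transc`). Work with `IntermediateField.adjoin K₀ {x}` and its identification with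
  `K₁` (`IntermediateField.adjoin_adjoin_left`, `restrictScalars`), or prove the statement for all fields `F'` generated by `m` elements over `C` (`∀ F', adjoin C (range x) = ⊤ → QS F' (2 ^ m)`), which avoids subfields of subfields.
* `qs_dependent`: `t : Fin n → Ω` algebraically dependent over `C`: there is a set `s` of indices such that `t` restricted to `s` is a transcendence basis of `adjoin C (range t)` (`exists_isTranscendenceBasis_subset`-type lemma), `s ≠ univ`,
  so `card s ≤ n - 1`. `adjoin C (range t)` is algebraic over `adjoin C (t '' s)`: `qs_adjoin`, `qs_algebraic`, `QS.mono`.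
-/

set_option autoImplicit false

namespace Pool.Agent.Lib.MeadF

private theorem qs_eq {C Ω : Type*} [Field C] [Field Ω] [Algebra C Ω]
    {K L : IntermediateField C Ω} (h : K = L) {lam : ℕ} (hK : QS K lam) : QS L lam := by
  subst h
  exact hK

private theorem adjoin_gen_top {K Ω : Type*} [Field K] [Field Ω] [Algebra K Ω] (y : Ω)
    (g : IntermediateField.adjoin K {y}) (hg : (g : Ω) = y) :
    IntermediateField.adjoin K {g} = ⊤ := by
  apply IntermediateField.map_injective (IntermediateField.adjoin K {y}).val
  rw [IntermediateField.adjoin_map, Set.image_singleton, ← AlgHom.fieldRange_eq_map,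
    IntermediateField.fieldRange_val]
  change IntermediateField.adjoin K {(g : Ω)} = _
  rw [hg]

private theorem qs_simple {K Ω : Type*} [Field K] [Field Ω] [Algebra K Ω] (y : Ω) {lam : ℕ}
    (h : QS K lam) : QS (IntermediateField.adjoin K {y}) (2 * lam) := by
  by_cases hy : IsAlgebraic K y
  · have : Algebra.IsAlgebraic K (IntermediateField.adjoin K {y}) :=
      IntermediateField.isAlgebraic_adjoin_simple hy.isIntegral
    exact (qs_algebraic h).mono (by omega)
  · obtain ⟨g, hg⟩ : ∃ g : IntermediateField.adjoin K {y}, (g : Ω) = y :=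
      ⟨⟨y, IntermediateField.mem_adjoin_simple_self K y⟩, rfl⟩
    have ht : Transcendental K g := by
      intro hcon
      apply hy
      have h1 : IsAlgebraic K (g : Ω) := hcon.algebraMap (A := Ω)
      rwa [hg] at h1
    exact qs_transc g ht (adjoin_gen_top y g hg) h

theorem qs_adjoin {C Ω : Type*} [Field C] [IsAlgClosed C] [Field Ω] [Algebra C Ω] (m : ℕ)
    (x : Fin m → Ω) : QS (IntermediateField.adjoin C (Set.range x)) (2 ^ m) := by
  induction m with
  | zero =>
    have h0 : Set.range x = ∅ := Set.range_eq_empty x
    rw [h0, pow_zero]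
    have h1 : Algebra.IsAlgebraic C (IntermediateField.adjoin C (∅ : Set Ω)) :=
      IntermediateField.isAlgebraic_adjoin fun x hx => absurd hx (Set.notMem_empty x)
    exact qs_algebraic (qs_algClosed C)
  | succ m ih =>
    have h1 := qs_simple (x (Fin.last m)) (ih (fun j => x j.castSucc))
    have h2 : (IntermediateField.adjoin (IntermediateField.adjoin C
        (Set.range fun j : Fin m => x j.castSucc)) {x (Fin.last m)}).restrictScalars C =
        IntermediateField.adjoin C (Set.range x) := by
      rw [IntermediateField.adjoin_adjoin_left]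
      congr 1
      ext y
      simp only [Set.mem_union, Set.mem_range, Set.mem_singleton_iff]
      constructor
      · rintro (⟨j, hj⟩ | hj)
        · exact ⟨_, hj⟩
        · exact ⟨_, hj.symm⟩
      · rintro ⟨j, hj⟩
        rcases Fin.eq_castSucc_or_eq_last j with ⟨i, rfl⟩ | rfl
        · exact Or.inl ⟨i, hj⟩
        · exact Or.inr hj.symm
    rw [pow_succ, mul_comm]
    exact qs_eq h2 h1

theorem qs_dependent {C Ω : Type*} [Field C] [IsAlgClosed C] [Field Ω] [Algebra C Ω] (n : ℕ)
    (t : Fin n → Ω) (ht : ¬ AlgebraicIndependent C t) :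
    QS (IntermediateField.adjoin C (Set.range t)) (2 ^ (n - 1)) := by
  obtain ⟨s, i, hi, hsi⟩ : ∃ (s : Set (Fin n)) (i : Fin n), i ∉ s ∧
      ¬ Transcendental (Algebra.adjoin C (t '' s)) (t i) := by
    by_contra hcon
    push Not at hcon
    exact ht (algebraicIndependent_of_finite_type' (algebraMap C Ω).injective
      fun s _ _ i hi => hcon s i hi)
  obtain ⟨m, rfl⟩ : ∃ m, n = m + 1 := ⟨n - 1, by have := i.pos; omega⟩
  obtain ⟨x, hx⟩ : ∃ x : Fin m → Ω, x = fun j => t (i.succAbove j) := ⟨_, rfl⟩
  have hsub : t '' s ⊆ Set.range x := by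
    rintro _ ⟨j, hj, rfl⟩
    have hji : j ≠ i := fun h => hi (h ▸ hj)
    obtain ⟨j', rfl⟩ := Fin.exists_succAbove_eq hji
    exact ⟨j', by rw [hx]⟩
  have halg : IsAlgebraic (IntermediateField.adjoin C (Set.range x)) (t i) := by
    rw [Transcendental, not_not] at hsi
    obtain ⟨p, hp0, hp⟩ := hsi
    have hle : Algebra.adjoin C (t '' s) ≤
        (IntermediateField.adjoin C (Set.range x)).toSubalgebra :=
      (Algebra.adjoin_mono hsub).trans (IntermediateField.algebra_adjoin_le_adjoin C _)
    refine ⟨p.map (Subalgebra.inclusion hle).toRingHom, ?_, ?_⟩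
    · exact (Polynomial.map_ne_zero_iff (Subalgebra.inclusion_injective hle)).mpr hp0
    · have h3 : (algebraMap (IntermediateField.adjoin C (Set.range x)) Ω).comp
          (Subalgebra.inclusion hle).toRingHom = algebraMap (Algebra.adjoin C (t '' s)) Ω := rfl
      rw [Polynomial.aeval_def, Polynomial.eval₂_map, h3]
      exact hp
  have h1 : QS (IntermediateField.adjoin (IntermediateField.adjoin C (Set.range x)) {t i})
      (2 ^ m) := by
    have : Algebra.IsAlgebraic (IntermediateField.adjoin C (Set.range x))
        (IntermediateField.adjoin (IntermediateField.adjoin C (Set.range x)) {t i}) :=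
      IntermediateField.isAlgebraic_adjoin_simple halg.isIntegral
    exact qs_algebraic (qs_adjoin (C := C) m x)
  have h2 : (IntermediateField.adjoin (IntermediateField.adjoin C
      (Set.range x)) {t i}).restrictScalars C = IntermediateField.adjoin C (Set.range t) := by
    rw [IntermediateField.adjoin_adjoin_left]
    congr 1
    ext y
    simp only [Set.mem_union, Set.mem_range, Set.mem_singleton_iff]
    constructor
    · rintro (⟨j, hj⟩ | hj)
      · rw [hx] at hj; exact ⟨_, hj⟩
      · exact ⟨_, hj.symm⟩
    · rintro ⟨j, hj⟩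
      by_cases hji : j = i
      · right; rw [← hj, hji]
      · left
        obtain ⟨j', rfl⟩ := Fin.exists_succAbove_eq hji
        exact ⟨j', by rw [hx]; exact hj⟩
  rw [Nat.add_sub_cancel]
  exact qs_eq h2 h1

end Pool.Agent.Lib.MeadF
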