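import Mathlib
import Pool.Agent.Lib.MeadF.TAdj
import Pool.Agent.Lib.MeadF.Basic

/-!
# MeadF.TNum (size 150): a zero over the compositum with a number field

`C = algebraicClosure ℚ Ω` (`IntermediateField`), algebraically closed (`Ω` is). `t` is algebraically dependent over `C` too (if it were independent over `C` it would be so over `ℚ`). `n ≥ 1` (the empty family is independent).
`qs_dependent` with one equation (`κ = Unit`) in `ι = Fin n → Bool`, `2 ^ (n-1) * 1 < 2 ^ n`, `M () a b = if a = b then pc t a else 0`: a nontrivial zero `x` with entries in `adjoin C (range t)`.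
Every element of `adjoin C (range t)` lies in `adjoin ℚ (range t) ⊔ l` for some `l` finite over `ℚ`: the union of these subfields is directed and contains `C` and `range t` (`IntermediateField.adjoin_induction`, sup of two finite
extensions is finite); take the sup of finitely many `l`; finally replace `l` by its normal closure in `Ω` together with `i`: `lt = normalClosure` (finite, normal, hence Galois in characteristic zero).
-/

set_option autoImplicit false

namespace Pool.Agent.Lib.MeadF

private theorem tn_mem {Ω : Type*} [Field Ω] [CharZero Ω] {n : ℕ} (t : Fin n → Ω) {y : Ω}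
    (hy : y ∈ IntermediateField.adjoin (algebraicClosure ℚ Ω) (Set.range t)) :
    ∃ l : IntermediateField ℚ Ω, FiniteDimensional ℚ l ∧
      y ∈ IntermediateField.adjoin ℚ (Set.range t) ⊔ l := by
  refine IntermediateField.adjoin_induction (algebraicClosure ℚ Ω)
    (p := fun y _ => ∃ l : IntermediateField ℚ Ω, FiniteDimensional ℚ l ∧
      y ∈ IntermediateField.adjoin ℚ (Set.range t) ⊔ l) ?_ ?_ ?_ ?_ ?_ hy
  · intro x hx
    refine ⟨⊥, inferInstance, ?_⟩
    exact (le_sup_left : IntermediateField.adjoin ℚ (Set.range t) ≤ _)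
      (IntermediateField.subset_adjoin ℚ _ hx)
  · intro x
    have hx : IsIntegral ℚ (x : Ω) := (mem_algebraicClosure_iff.mp x.2).isIntegral
    refine ⟨IntermediateField.adjoin ℚ {(x : Ω)}, IntermediateField.adjoin.finiteDimensional hx, ?_⟩
    exact (le_sup_right : IntermediateField.adjoin ℚ {(x : Ω)} ≤ _)
      (IntermediateField.mem_adjoin_simple_self ℚ (x : Ω))
  · rintro x y - - ⟨l, hl, hxl⟩ ⟨m, hm, hym⟩
    refine ⟨l ⊔ m, IntermediateField.finiteDimensional_sup l m, add_mem ?_ ?_⟩
    · exact (sup_le_sup_left (le_sup_left : l ≤ l ⊔ m) _) hxl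
    · exact (sup_le_sup_left (le_sup_right : m ≤ l ⊔ m) _) hym
  · rintro x - ⟨l, hl, hxl⟩
    exact ⟨l, hl, inv_mem hxl⟩
  · rintro x y - - ⟨l, hl, hxl⟩ ⟨m, hm, hym⟩
    refine ⟨l ⊔ m, IntermediateField.finiteDimensional_sup l m, mul_mem ?_ ?_⟩
    · exact (sup_le_sup_left (le_sup_left : l ≤ l ⊔ m) _) hxl
    · exact (sup_le_sup_left (le_sup_right : m ≤ l ⊔ m) _) hym

private theorem tn_normal {Ω : Type*} [Field Ω] [CharZero Ω] [IsAlgClosed Ω]
    (l : IntermediateField ℚ Ω) [FiniteDimensional ℚ l] :
    ∃ m : IntermediateField ℚ Ω, FiniteDimensional ℚ m ∧ IsGalois ℚ m ∧ l ≤ m := by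
  have halg : Algebra.IsAlgebraic ℚ l := inferInstance
  have h1 : IsNormalClosure ℚ l (IntermediateField.normalClosure ℚ l Ω) :=
    halg.isNormalClosure_normalClosure (fun x => IsAlgClosed.splits _)
  have h2 : Normal ℚ (IntermediateField.normalClosure ℚ l Ω) := h1.normal
  refine ⟨IntermediateField.normalClosure ℚ l Ω, inferInstance, ?_,
    IntermediateField.le_normalClosure l⟩
  exact { }

theorem exists_numberField {Ω : Type*} [Field Ω] [CharZero Ω] [IsAlgClosed Ω] {n : ℕ}
    (t : Fin n → Ω) (ht : ¬ AlgebraicIndependent ℚ t) (i : Ω) (hi : i ^ 2 = -1) :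
    ∃ l : IntermediateField ℚ Ω, FiniteDimensional ℚ l ∧ IsGalois ℚ l ∧ i ∈ l ∧
      ∃ x : (Fin n → Bool) → Ω, x ≠ 0 ∧
        (∀ s, x s ∈ IntermediateField.adjoin ℚ (Set.range t) ⊔ l) ∧ pf t x = 0 := by
  classical
  have hC : IsAlgClosed (algebraicClosure ℚ Ω) :=
    (algebraicClosure.isAlgClosure ℚ Ω).isAlgClosed
  have htC : ¬ AlgebraicIndependent (algebraicClosure ℚ Ω) t := fun h =>
    ht (h.restrictScalars (algebraMap ℚ (algebraicClosure ℚ Ω)).injective)
  have hn : n ≠ 0 := by
    rintro rfl
    exact ht (algebraicIndependent_empty_type_iff.mpr (algebraMap ℚ Ω).injective)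
  have hqs := qs_dependent n t htC
  set K := IntermediateField.adjoin (algebraicClosure ℚ Ω) (Set.range t) with hK
  have htK : ∀ j, t j ∈ K := fun j =>
    IntermediateField.subset_adjoin _ _ (Set.mem_range_self j)
  obtain ⟨x, hx0, hx⟩ := hqs (Fin n → Bool) Unit (by
      obtain ⟨m, rfl⟩ := Nat.exists_eq_succ_of_ne_zero hn
      simp only [Nat.succ_eq_add_one, Nat.add_sub_cancel, Fintype.card_unit, mul_one,
        Fintype.card_pi, Fintype.card_bool, Finset.prod_const, Finset.card_univ, Fintype.card_fin]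
      exact Nat.pow_lt_pow_right (by norm_num) (Nat.lt_succ_self m))
    (fun _ a b => if a = b then pc (fun j => (⟨t j, htK j⟩ : K)) a else 0)
  have hx1 := hx ()
  have hx2 : pf (fun j => (⟨t j, htK j⟩ : K)) x = 0 := by
    rw [← hx1]
    simp only [pf]
    refine Finset.sum_congr rfl fun s _ => ?_
    rw [Finset.sum_eq_single s]
    · rw [if_pos rfl, sq]
    · intro b _ hb
      rw [if_neg (fun h => hb h.symm), zero_mul]
    · intro h
      exact absurd (Finset.mem_univ _) h
  have hx3 : pf t (fun s => (x s : Ω)) = 0 := by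
    have h := map_pf (algebraMap K Ω) (fun j => (⟨t j, htK j⟩ : K)) x
    rw [hx2, map_zero] at h
    exact h.symm
  choose l hlf hlx using fun s => tn_mem t (x s).2
  have hfin : FiniteDimensional ℚ (⨆ s, l s : IntermediateField ℚ Ω) :=
    IntermediateField.finiteDimensional_iSup_of_finite
  have hii : IsIntegral ℚ i := by
    refine ⟨Polynomial.X ^ 2 + 1, by monicity!, ?_⟩
    simp [hi]
  have hif : FiniteDimensional ℚ (IntermediateField.adjoin ℚ {i}) :=
    IntermediateField.adjoin.finiteDimensional hii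
  have hsup : FiniteDimensional ℚ ((⨆ s, l s) ⊔ IntermediateField.adjoin ℚ {i} :
      IntermediateField ℚ Ω) := IntermediateField.finiteDimensional_sup _ _
  obtain ⟨m, hmf, hmg, hlm⟩ := tn_normal ((⨆ s, l s) ⊔ IntermediateField.adjoin ℚ {i})
  refine ⟨m, hmf, hmg, ?_, fun s => (x s : Ω), ?_, ?_, hx3⟩
  · exact hlm ((le_sup_right : IntermediateField.adjoin ℚ {i} ≤ _)
      (IntermediateField.mem_adjoin_simple_self ℚ i))
  · intro h
    apply hx0
    funext s
    have h1 : ((x s : K) : Ω) = 0 := congrFun h s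
    exact Subtype.ext h1
  · intro s
    have h1 : l s ≤ m := ((le_iSup l s).trans le_sup_left).trans hlm
    exact (sup_le_sup_left h1 _) (hlx s)

end Pool.Agent.Lib.MeadF
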