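import Mathlib
import Pool.Agent.Lib.MeadF.Claim
import Pool.Agent.Lib.MeadF.TNum

/-!
# MeadF.Key: the key theorem and its translation

* `key`: if some `t j = 0`: `iso_of_zero`. Otherwise `exists_numberField` gives `lt`, and `claim` with `l = adjoin ℚ {i}`, `a = p` nice (`nice_natCast`), `b = u`.
* `fail`: `Ω = AlgebraicClosure L`, `i` a root of `X² + 1`; `key` for the images of `t`. The entries of the zero lie in `adjoin ℚ (range t) ⊔ adjoin ℚ {i}`, so they are `algebraMap u + i * algebraMap v`.
-/

set_option autoImplicit false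

universe u

namespace Pool.Agent.Lib.MeadF

theorem key {Ω : Type*} [Field Ω] [CharZero Ω] [IsAlgClosed Ω] {n : ℕ} (t : Fin n → Ω)
    (ht : ¬ AlgebraicIndependent ℚ t) (i : Ω) (hi : i ^ 2 = -1) (p u : ℕ) (hp8 : p % 8 = 1)
    (hu : u ≠ 0) :
    IsoIn (IntermediateField.adjoin ℚ (Set.range t) ⊔ IntermediateField.adjoin ℚ {i})
      (p : Ω) (u : Ω) t := by
  by_cases h0 : ∃ j, t j = 0
  · obtain ⟨j, hj⟩ := h0
    have htS : ∀ j, t j ∈ IntermediateField.adjoin ℚ (Set.range t) ⊔ IntermediateField.adjoin ℚ {i} :=
      fun j => (le_sup_left : IntermediateField.adjoin ℚ (Set.range t) ≤ _)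
        (IntermediateField.subset_adjoin ℚ _ (Set.mem_range_self j))
    refine (isoIn_iff (natCast_mem _ p) (natCast_mem _ u) htS).mpr ?_
    exact iso_of_zero _ _ (j := j) (Subtype.ext hj)
  · have h0' : ∀ j, t j ≠ 0 := fun j hj => h0 ⟨j, hj⟩
    obtain ⟨lt, hfd, hgal, hilt, hiso⟩ := exists_numberField t ht i hi
    have hint : IsIntegral ℚ i := by
      refine ⟨Polynomial.X ^ 2 + 1, ?_, ?_⟩
      · have := Polynomial.monic_X_pow_add_C (1 : ℚ) (n := 2) (by norm_num)
        simpa using this
      · simp [hi]
    have hfi : FiniteDimensional ℚ (IntermediateField.adjoin ℚ {i}) :=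
      IntermediateField.adjoin.finiteDimensional hint
    have hnf : NumberField (IntermediateField.adjoin ℚ {i}) := ⟨⟩
    refine claim t h0' i hi lt hiso (IntermediateField.adjoin ℚ {i}) ?_ ?_ (p : Ω) (u : Ω) ?_ ?_
      (natCast_mem _ u) (Nat.cast_ne_zero.mpr hu)
    · rw [IntermediateField.adjoin_le_iff]
      rintro x rfl
      exact hilt
    · exact IntermediateField.mem_adjoin_simple_self ℚ i
    · refine ⟨hnf, natCast_mem _ p, ?_⟩
      exact nice_natCast hp8
    · have : p ≠ 0 := by rintro rfl; omega
      exact Nat.cast_ne_zero.mpr this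

theorem fail {L : Type u} [Field L] [CharZero L] {n : ℕ} (t : Fin n → L)
    (ht : ¬ AlgebraicIndependent ℚ t) (p u : ℕ) (hp8 : p % 8 = 1) (hu : u ≠ 0) :
    ∃ x y : (Fin n → Bool) → Fin 4 → L, (x ≠ 0 ∨ y ≠ 0) ∧
      qf (p : L) (u : L) t x = qf (p : L) (u : L) t y ∧ qb (p : L) (u : L) t x y = 0 := by
  classical
  have hcz : CharZero (AlgebraicClosure L) :=
    charZero_of_injective_algebraMap (algebraMap L (AlgebraicClosure L)).injective
  obtain ⟨i, hi⟩ : ∃ i : AlgebraicClosure L, i ^ 2 = -1 :=
    IsAlgClosed.exists_pow_nat_eq (-1) (by norm_num)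
  have ht' : ¬ AlgebraicIndependent ℚ (fun j => algebraMap L (AlgebraicClosure L) (t j)) := by
    intro h
    exact ht (AlgebraicIndependent.of_comp (IsScalarTower.toAlgHom ℚ L (AlgebraicClosure L)) h)
  obtain ⟨z, hz, hzS, hz0⟩ := key _ ht' i hi p u hp8 hu
  -- every entry is `a + i b`
  have hint : IsIntegral L i := by
    refine ⟨Polynomial.X ^ 2 + 1, ?_, ?_⟩
    · have := Polynomial.monic_X_pow_add_C (1 : L) (n := 2) (by norm_num)
      simpa using this
    · simp [hi]
  have hform : ∀ w ∈ IntermediateField.adjoin ℚ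
      (Set.range fun j => algebraMap L (AlgebraicClosure L) (t j)) ⊔
      IntermediateField.adjoin ℚ {i}, ∃ a b : L, w = algebraMap L _ a + i * algebraMap L _ b := by
    intro w hw
    have hle : IntermediateField.adjoin ℚ
        (Set.range fun j => algebraMap L (AlgebraicClosure L) (t j)) ⊔
        IntermediateField.adjoin ℚ {i} ≤ (IntermediateField.adjoin L {i}).restrictScalars ℚ := by
      refine sup_le ?_ ?_
      · rw [IntermediateField.adjoin_le_iff]
        rintro _ ⟨j, rfl⟩
        exact (IntermediateField.adjoin L {i}).algebraMap_mem (t j)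
      · rw [IntermediateField.adjoin_le_iff]
        rintro _ rfl
        exact IntermediateField.mem_adjoin_simple_self L _
    have hw1 : w ∈ IntermediateField.adjoin L {i} := hle hw
    have hw2 : w ∈ Algebra.adjoin L {i} := by
      rw [← IntermediateField.adjoin_simple_toSubalgebra_of_isAlgebraic hint.isAlgebraic]
      exact hw1
    rw [Algebra.adjoin_singleton_eq_range_aeval] at hw2
    obtain ⟨q, rfl⟩ := hw2
    have hmon : (Polynomial.X ^ 2 + 1 : Polynomial L).Monic := by
      have := Polynomial.monic_X_pow_add_C (1 : L) (n := 2) (by norm_num)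
      simpa using this
    have hdeg : (Polynomial.X ^ 2 + 1 : Polynomial L).natDegree = 2 := by
      have := Polynomial.natDegree_X_pow_add_C (n := 2) (r := (1 : L))
      simpa using this
    have hne1 : (Polynomial.X ^ 2 + 1 : Polynomial L) ≠ 1 := by
      intro h
      rw [h, Polynomial.natDegree_one] at hdeg
      omega
    have h1 := Polynomial.natDegree_modByMonic_lt q hmon hne1
    obtain ⟨b, a, hab⟩ := Polynomial.exists_eq_X_add_C_of_natDegree_le_one (p := q %ₘ (Polynomial.X ^ 2 + 1)) (by omega)
    refine ⟨a, b, ?_⟩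
    have h2 := Polynomial.modByMonic_add_div q (Polynomial.X ^ 2 + 1 : Polynomial L)
    rw [hab] at h2
    have h3 := congrArg (Polynomial.aeval i) h2
    simp only [map_add, map_mul, Polynomial.aeval_C, Polynomial.aeval_X, map_pow, map_one, hi] at h3
    change Polynomial.aeval i q = _
    rw [← h3]
    ring
  by_cases hiL : ∃ i₀ : L, algebraMap L (AlgebraicClosure L) i₀ = i
  · -- `i` lies in `L`
    obtain ⟨i₀, hi₀⟩ := hiL
    have hz' : ∀ s j, ∃ a : L, z s j = algebraMap L (AlgebraicClosure L) a := by
      intro s j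
      obtain ⟨a, b, hab⟩ := hform _ (hzS s j)
      refine ⟨a + i₀ * b, ?_⟩
      rw [hab, ← hi₀, map_add, map_mul]
    choose x hx using hz'
    refine ⟨x, 0, Or.inl ?_, ?_, ?_⟩
    · rintro rfl
      apply hz
      funext s j
      rw [hx s j]
      simp
    · have h1 : qf (p : L) (u : L) t (0 : (Fin n → Bool) → Fin 4 → L) = 0 := by
        simp [qf, nf]
      rw [h1]
      apply (algebraMap L (AlgebraicClosure L)).injective
      rw [map_qf, map_zero, ← hz0]
      simp only [map_natCast]
      congr 1
      funext s j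
      exact (hx s j).symm
    · simp [qb, nb]
  · have hz' : ∀ s j, ∃ a b : L, z s j = algebraMap L (AlgebraicClosure L) a +
        i * algebraMap L (AlgebraicClosure L) b := fun s j => hform _ (hzS s j)
    choose x y hxy using hz'
    have hz1 : z = fun s j => algebraMap L (AlgebraicClosure L) (x s j) +
        i * algebraMap L (AlgebraicClosure L) (y s j) := by
      funext s j
      exact hxy s j
    have h1 := hz0
    rw [hz1, qf_add_mul, hi] at h1
    have h2 : algebraMap L (AlgebraicClosure L) (qf (p : L) (u : L) t x - qf (p : L) (u : L) t y) +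
        i * algebraMap L (AlgebraicClosure L) (2 * qb (p : L) (u : L) t x y) = 0 := by
      rw [map_sub, map_mul, map_qf, map_qf, map_qb]
      simp only [map_natCast, map_ofNat]
      linear_combination h1
    have h3 : qb (p : L) (u : L) t x y = 0 := by
      by_contra hne
      apply hiL
      refine ⟨- (qf (p : L) (u : L) t x - qf (p : L) (u : L) t y) / (2 * qb (p : L) (u : L) t x y), ?_⟩
      have hne' : algebraMap L (AlgebraicClosure L) (2 * qb (p : L) (u : L) t x y) ≠ 0 := by
        rw [map_ne_zero]
        exact mul_ne_zero two_ne_zero hne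
      rw [map_div₀, map_neg, div_eq_iff hne']
      linear_combination -h2
    refine ⟨x, y, ?_, ?_, h3⟩
    · by_contra hcon
      push Not at hcon
      obtain ⟨hx0, hy0⟩ := hcon
      apply hz
      rw [hz1, hx0, hy0]
      funext s j
      simp
    · rw [h3, mul_zero, map_zero, mul_zero, add_zero, map_eq_zero, sub_eq_zero] at h2
      exact h2

end Pool.Agent.Lib.MeadF
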