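import Mathlib

/-!
# MeadF.RelN (size 250): generators and relations

Adapt `Lib/MP_fa3e6c_al/RelG.lean` (there: one transcendental generator `t`; here `t : Fin n → K` a transcendence basis). Every element of `K` is algebraic over `ℚ[t] = Algebra.adjoin ℚ (range t)`; for each `c₀ i` there is a nonzero
`D_i ∈ ℚ[t]` with `D_i c₀ i` integral over `ℚ[t]`. `c = Fin.append t (fun i => D_i * c₀ i)`, `m = n₀`. `A = range (aeval c) ⊆ K` is integral over `ℚ[t]`; `ker (aeval c)` is finitely generated, clear denominators to get `G`.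
If `d` satisfies `G` then there is `f : A → L` with `f (c i) = d i`; if the first `n` entries of `d` are algebraically independent then `ker f` meets `ℚ[t]` in `0`, so `ker f = 0` (`A` is a domain integral over `ℚ[t]`) and `f`
extends to `K = Frac A`.
-/

set_option autoImplicit false

universe u

namespace Pool.Agent.Lib.MeadF

/-- Clearing denominators. -/
private theorem clear_den {σ : Type} (p : MvPolynomial σ ℚ) :
    ∃ (N : ℤ) (q : MvPolynomial σ ℤ), N ≠ 0 ∧
      MvPolynomial.map (algebraMap ℤ ℚ) q = MvPolynomial.C (N : ℚ) * p := by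
  induction p using MvPolynomial.induction_on with
  | C a =>
    refine ⟨a.den, MvPolynomial.C a.num, by exact_mod_cast a.den_ne_zero, ?_⟩
    rw [MvPolynomial.map_C, ← MvPolynomial.C_mul]
    congr 1
    have := Rat.mul_den_eq_num a
    rw [mul_comm] at this
    simp
  | add p q hp hq =>
    obtain ⟨N, q₁, hN, h1⟩ := hp
    obtain ⟨M, q₂, hM, h2⟩ := hq
    refine ⟨N * M, MvPolynomial.C M * q₁ + MvPolynomial.C N * q₂, mul_ne_zero hN hM, ?_⟩
    rw [map_add, map_mul, map_mul, h1, h2, MvPolynomial.map_C, MvPolynomial.map_C]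
    push_cast
    rw [MvPolynomial.C_mul]
    simp only [algebraMap_int_eq, eq_intCast, map_intCast]
    ring
  | mul_X p i hp =>
    obtain ⟨N, q₁, hN, h1⟩ := hp
    refine ⟨N, q₁ * MvPolynomial.X i, hN, ?_⟩
    rw [map_mul, h1, MvPolynomial.map_X, mul_assoc]

theorem exists_relN (K : Type u) [Field K] [CharZero K] {n₀ : ℕ} (c₀ : Fin n₀ → K)
    (hc₀ : IntermediateField.adjoin ℚ (Set.range c₀) = ⊤) {n : ℕ} (t : Fin n → K)
    (ht : IsTranscendenceBasis ℚ t) :
    ∃ (m : ℕ) (c : Fin (n + m) → K) (G : Finset (MvPolynomial (Fin (n + m)) ℤ)),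
      (∀ j, c (Fin.castAdd m j) = t j) ∧ IntermediateField.adjoin ℚ (Set.range c) = ⊤ ∧
      (∀ g ∈ G, MvPolynomial.aeval c g = 0) ∧
      ∀ (L : Type) [Field L] [CharZero L] (d : Fin (n + m) → L),
        (∀ g ∈ G, MvPolynomial.aeval d g = 0) →
        AlgebraicIndependent ℚ (fun j => d (Fin.castAdd m j)) →
        ∃ ρ : K →+* L, ∀ i, ρ (c i) = d i := by
  classical
  have halg : ∀ x : K, IsAlgebraic (Algebra.adjoin ℚ (Set.range t)) x := fun x =>
    ht.isAlgebraic.isAlgebraic x
  have hmul : ∀ i, ∃ y : Algebra.adjoin ℚ (Set.range t), y ≠ 0 ∧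
      IsIntegral (Algebra.adjoin ℚ (Set.range t)) (y • c₀ i) := fun i =>
    (halg (c₀ i)).exists_integral_multiple
  choose y hy0 hyi using hmul
  set c : Fin (n + n₀) → K := Fin.append t (fun i => (y i : K) * c₀ i) with hc
  have hct : ∀ j, c (Fin.castAdd n₀ j) = t j := fun j => by simp [hc]
  have hcs : ∀ i : Fin n₀, c (Fin.natAdd n i) = (y i : K) * c₀ i := fun i => by simp [hc]
  -- integrality of the generators
  have hcint : ∀ i, IsIntegral (Algebra.adjoin ℚ (Set.range t)) (c i) := by
    intro i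
    refine Fin.addCases ?_ ?_ i
    · intro j
      rw [hct]
      have : (t j : K) = algebraMap (Algebra.adjoin ℚ (Set.range t)) K
          ⟨t j, Algebra.subset_adjoin ⟨j, rfl⟩⟩ := rfl
      rw [this]
      exact isIntegral_algebraMap
    · intro j
      rw [hcs]
      exact hyi j
  -- generation
  have hgen : IntermediateField.adjoin ℚ (Set.range c) = ⊤ := by
    rw [eq_top_iff, ← hc₀, IntermediateField.adjoin_le_iff]
    rintro _ ⟨i, rfl⟩
    have hR : Algebra.adjoin ℚ (Set.range t) ≤
        (IntermediateField.adjoin ℚ (Set.range c)).toSubalgebra := by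
      rw [Algebra.adjoin_le_iff]
      rintro _ ⟨j, rfl⟩
      exact IntermediateField.subset_adjoin _ _ ⟨Fin.castAdd n₀ j, hct j⟩
    have hyK : (y i : K) ∈ IntermediateField.adjoin ℚ (Set.range c) := hR (y i).2
    have hci : c (Fin.natAdd n i) ∈ IntermediateField.adjoin ℚ (Set.range c) :=
      IntermediateField.subset_adjoin _ _ ⟨Fin.natAdd n i, rfl⟩
    have hyne : (y i : K) ≠ 0 := by
      intro h
      exact hy0 i (Subtype.ext h)
    have : c₀ i = c (Fin.natAdd n i) / (y i : K) := by
      rw [hcs, mul_comm, mul_div_assoc, div_self hyne, mul_one]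
    rw [this]
    exact div_mem hci hyK
  -- the kernel
  have hJ : (RingHom.ker (MvPolynomial.aeval c : MvPolynomial (Fin (n + n₀)) ℚ →ₐ[ℚ] K)).FG :=
    IsNoetherian.noetherian _
  obtain ⟨S, hS⟩ := hJ
  choose N q hN hq using fun p : MvPolynomial (Fin (n + n₀)) ℚ => clear_den p
  have haev : ∀ {L : Type u} [Field L] [CharZero L] (d : Fin (n + n₀) → L)
      (p : MvPolynomial (Fin (n + n₀)) ℚ),
      MvPolynomial.aeval d (q p) = (N p : L) * MvPolynomial.aeval d p := by
    intro L _ _ d p
    rw [← MvPolynomial.aeval_map_algebraMap ℚ d (q p), hq p, map_mul]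
    simp
  have haev' : ∀ {L : Type} [Field L] [CharZero L] (d : Fin (n + n₀) → L)
      (p : MvPolynomial (Fin (n + n₀)) ℚ),
      MvPolynomial.aeval d (q p) = (N p : L) * MvPolynomial.aeval d p := by
    intro L _ _ d p
    rw [← MvPolynomial.aeval_map_algebraMap ℚ d (q p), hq p, map_mul]
    simp
  refine ⟨n₀, c, S.image q, hct, hgen, ?_, ?_⟩
  · intro g hg
    obtain ⟨s, hs, rfl⟩ := Finset.mem_image.1 hg
    rw [haev]
    have : s ∈ RingHom.ker (MvPolynomial.aeval c : MvPolynomial (Fin (n + n₀)) ℚ →ₐ[ℚ] K) := by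
      rw [← hS]
      exact Ideal.subset_span hs
    rw [RingHom.mem_ker.1 this, mul_zero]
  intro L _ _ d hd
  have hle : RingHom.ker (MvPolynomial.aeval c : MvPolynomial (Fin (n + n₀)) ℚ →ₐ[ℚ] K) ≤
      RingHom.ker (MvPolynomial.aeval d : MvPolynomial (Fin (n + n₀)) ℚ →ₐ[ℚ] L) := by
    rw [← hS]
    refine Ideal.span_le.2 ?_
    intro s hs
    have h1 := hd (q s) (Finset.mem_image_of_mem _ hs)
    rw [haev'] at h1
    have h2 : ((N s : ℤ) : L) ≠ 0 := by exact_mod_cast hN s
    exact RingHom.mem_ker.2 ((mul_eq_zero.1 h1).resolve_left h2)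
  set A : Subalgebra ℚ K :=
    (MvPolynomial.aeval c : MvPolynomial (Fin (n + n₀)) ℚ →ₐ[ℚ] K).range with hA
  have hAadj : A = Algebra.adjoin ℚ (Set.range c) := (Algebra.adjoin_range_eq_range_aeval ℚ c).symm
  let e : MvPolynomial (Fin (n + n₀)) ℚ →ₐ[ℚ] A :=
    (MvPolynomial.aeval c : MvPolynomial (Fin (n + n₀)) ℚ →ₐ[ℚ] K).rangeRestrict
  have he : Function.Surjective e := AlgHom.rangeRestrict_surjective _
  have hker : RingHom.ker e.toRingHom ≤
      RingHom.ker (MvPolynomial.aeval d : MvPolynomial (Fin (n + n₀)) ℚ →ₐ[ℚ] L).toRingHom := by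
    intro p hp
    refine hle ?_
    have := RingHom.mem_ker.1 hp
    exact RingHom.mem_ker.2 (congrArg Subtype.val this)
  let f : A →ₐ[ℚ] L := AlgHom.liftOfSurjective e he (MvPolynomial.aeval d) hker
  have hfe : ∀ p, f (e p) = MvPolynomial.aeval d p := fun p =>
    AlgHom.liftOfSurjective_apply e he _ hker p
  have hcA : ∀ i, c i ∈ A := fun i => ⟨MvPolynomial.X i, by simp⟩
  have hfc : ∀ i, f ⟨c i, hcA i⟩ = d i := by
    intro i
    have : (⟨c i, hcA i⟩ : A) = e (MvPolynomial.X i) := by
      apply Subtype.ext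
      simp [e]
    rw [this, hfe]
    simp
  -- the subring `R`
  set R : Subalgebra ℚ K := Algebra.adjoin ℚ (Set.range t) with hR
  have hRA : R ≤ A := by
    rw [hR, Algebra.adjoin_le_iff]
    rintro _ ⟨j, rfl⟩
    have := hcA (Fin.castAdd n₀ j)
    rwa [hct] at this
  let algRA : Algebra R A := (Subalgebra.inclusion hRA).toRingHom.toAlgebra
  have : IsScalarTower R A K := IsScalarTower.of_algebraMap_eq (fun x => rfl)
  have hRint : ∀ a : A, IsIntegral R a := by
    intro a
    have h1 : IsIntegral R (a : K) := by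
      have hsub : Algebra.adjoin ℚ (Set.range c) ≤
          (integralClosure R K).restrictScalars ℚ := by
        rw [Algebra.adjoin_le_iff]
        rintro _ ⟨i, rfl⟩
        exact hcint i
      have h2 : (a : K) ∈ Algebra.adjoin ℚ (Set.range c) := by
        rw [← hAadj]
        exact a.2
      exact hsub h2
    exact (isIntegral_algebraMap_iff (R := R) (A := A) (B := K)
      (Subtype.coe_injective)).1 h1
  have : Algebra.IsIntegral R A := ⟨hRint⟩
  have hfR : ∀ r : R, ∃ p : MvPolynomial (Fin n) ℚ, MvPolynomial.aeval t p = (r : K) ∧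
      f (algebraMap R A r) = MvPolynomial.aeval (fun j => d (Fin.castAdd n₀ j)) p := by
    intro r
    have h1 : (r : K) ∈ (MvPolynomial.aeval t : MvPolynomial (Fin n) ℚ →ₐ[ℚ] K).range := by
      rw [← Algebra.adjoin_range_eq_range_aeval]
      exact r.2
    obtain ⟨p, hp⟩ := h1
    have hp' : MvPolynomial.aeval t p = (r : K) := hp
    refine ⟨p, hp', ?_⟩
    have h2 : algebraMap R A r =
        MvPolynomial.aeval (fun j => (⟨c (Fin.castAdd n₀ j), hcA _⟩ : A)) p := by
      apply Subtype.ext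
      have h3 : A.val (MvPolynomial.aeval (fun j => (⟨c (Fin.castAdd n₀ j), hcA _⟩ : A)) p) =
          MvPolynomial.aeval (fun j => c (Fin.castAdd n₀ j)) p :=
        (MvPolynomial.comp_aeval_apply (f := fun j => (⟨c (Fin.castAdd n₀ j), hcA _⟩ : A))
          A.val p)
      refine Eq.trans ?_ h3.symm
      rw [show (fun j => c (Fin.castAdd n₀ j)) = t from funext hct, hp']
      rfl
    rw [h2, MvPolynomial.comp_aeval_apply]
    simp only [hfc]
  intro hd0
  have hcomap : (RingHom.ker (f : A →+* L)).comap (algebraMap R A) = ⊥ := by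
    rw [eq_bot_iff]
    intro r hr
    have hr' : f (algebraMap R A r) = 0 := RingHom.mem_ker.1 (Ideal.mem_comap.1 hr)
    obtain ⟨p, hp1, hp2⟩ := hfR r
    rw [hr'] at hp2
    have hp0 : p = 0 := hd0.eq_zero_of_aeval_eq_zero p hp2.symm
    rw [hp0, map_zero] at hp1
    exact Ideal.mem_bot.2 (Subtype.ext hp1.symm)
  have hbot : RingHom.ker (f : A →+* L) = ⊥ := Ideal.eq_bot_of_comap_eq_bot hcomap
  have hinj : Function.Injective (f : A →+* L) := (RingHom.injective_iff_ker_eq_bot _).2 hbot
  have : FaithfulSMul A K := (faithfulSMul_iff_algebraMap_injective A K).2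
    Subtype.coe_injective
  have : IsFractionRing A K := by
    refine IsFractionRing.of_field A K (fun z => ?_)
    have hz : z ∈ IntermediateField.adjoin ℚ (Set.range c) := by rw [hgen]; trivial
    obtain ⟨r, hr, s, hs, hrs⟩ := IntermediateField.mem_adjoin_iff_div.1 hz
    rw [← hAadj] at hr hs
    exact ⟨⟨r, hr⟩, ⟨s, hs⟩, hrs⟩
  refine ⟨IsFractionRing.lift hinj, fun i => ?_⟩
  have := IsFractionRing.lift_algebraMap (K := K) hinj ⟨c i, hcA i⟩
  rw [show (algebraMap A K) ⟨c i, hcA i⟩ = c i from rfl] at this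
  rw [this]
  exact hfc i

end Pool.Agent.Lib.MeadF
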