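import Mathlib
import Pool.Agent.Lib.MP_fa3e6c_al.PresF
import Pool.Agent.Lib.MP_fa3e6c_al.GenL
import Pool.Agent.Lib.MP_fa3e6c_al.PrimeP
import Pool.Agent.Lib.MeadF.EncN
import Pool.Agent.Lib.MeadF.RelN
import Pool.Agent.Lib.MeadF.AnisoK
import Pool.Agent.Lib.MeadF.Key

/-!
# MeadF.MainN: every finitely generated field of characteristic zero is a finitely presented meadow
-/

set_option autoImplicit false

universe u

namespace Pool.Agent.Lib.MeadF

open Pool.Agent.Lib.MP_fa3e6c_al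

private theorem finite_trdeg (K : Type u) [Field K] [CharZero K] {n₀ : ℕ} (c₀ : Fin n₀ → K)
    (hc₀ : IntermediateField.adjoin ℚ (Set.range c₀) = ⊤) : ∃ n : ℕ, Algebra.trdeg ℚ K = n := by
  have halg : Algebra.IsAlgebraic (Algebra.adjoin ℚ (Set.range c₀)) K := by
    refine ⟨fun x => ?_⟩
    have hx : x ∈ IntermediateField.adjoin ℚ (Set.range c₀) := by rw [hc₀]; trivial
    obtain ⟨r, hr, s, hs, rfl⟩ := IntermediateField.mem_adjoin_iff_div.mp hx
    have h1 : IsAlgebraic (Algebra.adjoin ℚ (Set.range c₀)) r :=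
      isAlgebraic_algebraMap (⟨r, hr⟩ : Algebra.adjoin ℚ (Set.range c₀))
    have h2 : IsAlgebraic (Algebra.adjoin ℚ (Set.range c₀)) s :=
      isAlgebraic_algebraMap (⟨s, hs⟩ : Algebra.adjoin ℚ (Set.range c₀))
    rw [div_eq_mul_inv]
    exact h1.mul h2.inv
  have h := Algebra.IsAlgebraic.trdeg_le_cardinalMk (R := ℚ) (A := K) (s := Set.range c₀)
  have h' : Algebra.trdeg ℚ K < Cardinal.aleph0 :=
    h.trans_lt (Cardinal.lt_aleph0_iff_set_finite.mpr (Set.finite_range c₀))
  exact Cardinal.lt_aleph0.mp h'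

theorem main (K : Type u) [Field K] [CharZero K] {n₀ : ℕ} (c₀ : Fin n₀ → K)
    (hc₀ : IntermediateField.adjoin ℚ (Set.range c₀) = ⊤) : HasFinitePresentation K := by
  classical
  obtain ⟨n, htr⟩ := finite_trdeg K c₀ hc₀
  obtain ⟨t, p, hp, ht, hp8, hu⟩ := exists_anisoK K c₀ hc₀ n htr
  have hp2 : p ≠ 2 := by rintro rfl; omega
  obtain ⟨u, hu0, husq⟩ := exists_u p hp.out hp2
  obtain ⟨h1, h2⟩ := hu u husq
  obtain ⟨m, c, G, hct, hc, hG, hL⟩ := exists_relN K c₀ hc₀ t ht
  obtain ⟨E, hEf, hE1, hE2⟩ := exists_EN.{u} G p u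
  have hct' : (fun j => c (Fin.castAdd m j)) = t := funext hct
  refine ⟨Fin (n + m), E, inferInstance, hEf,
    presentation_of_fields E K c (gen_of_adjoin K c hc) ((hE1 K c).mpr ⟨h1, hG, ?_⟩) ?_⟩
  · rw [hct']; exact h2
  · intro L _ d hd hsat
    have hgood := (hE2 L d).mp hsat
    have hch : CharZero L := charZero_of_good L p u hgood.sq
    by_cases hind : AlgebraicIndependent ℚ (fun j => d (Fin.castAdd m j))
    · exact hL L d hgood.rel hind
    · exfalso
      obtain ⟨x, y, hxy, h3, h4⟩ := fail _ hind p u hp8 hu0.ne_zero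
      obtain ⟨h5, h6⟩ := hgood.form x y h3 h4
      rcases hxy with h | h
      · exact h h5
      · exact h h6

end Pool.Agent.Lib.MeadF
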